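import Pool.Agent.Work.MP_a98e4e_ag.Fu.L.Jac
import Pool.Agent.Work.MP_a98e4e_ag.L.Chunk

/-! Kernel check: the Killing form of `e_8` is `60` times the form. -/

set_option linter.unusedSectionVars false

namespace Pool.Agent.Licci

/-- trace of `(ad e_i) (ad e_j)` -/
def trN (i j : ℕ) : ℤ := (List.range 248).foldr (fun k s => cf (lm i (sp j k)) k + s) 0

/-- the trace is `60` times the form, checked on pairs of weight zero -/
def trc (i j : ℕ) : Bool :=
  bif Nat.beq (Nat.add (cd i) (cd j)) 1145324612 then isz (trN i j - 60 * kcN i j) else true

set_option maxRecDepth 100000

theorem trc_all_r15 : (List.range' 240 8).all (fun i => (List.range 248).all (fun j => trc i j)) = true :=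
  all_range_of8 _ (by decide +kernel) (by decide +kernel) (by decide +kernel) (by decide +kernel)
    (by decide +kernel) (by decide +kernel) (by decide +kernel) (by decide +kernel)

theorem trc_all : (List.range 248).all (fun i => (List.range 248).all (fun j => trc i j)) = true :=
  all_range_of16 _ (by decide +kernel) (by decide +kernel) (by decide +kernel) (by decide +kernel) (by decide +kernel) (by decide +kernel) (by decide +kernel) (by decide +kernel)
    (by decide +kernel) (by decide +kernel) (by decide +kernel) (by decide +kernel) (by decide +kernel) (by decide +kernel) (by decide +kernel) trc_all_r15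

end Pool.Agent.Licci
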