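import Pool.Agent.Work.MP_a98e4e_ag.Fu.L.Jac
import Pool.Agent.Work.MP_a98e4e_ag.L.Chunk
import Pool.Agent.Work.MP_a98e4e_ag.Fu.L.Form
import Pool.Agent.Work.MP_a98e4e_ag.Fu.L.Grad

section

/-! Kernel check: the dual basis for the form of `e_8`. -/

set_option linter.unusedSectionVars false

namespace Pool.Agent.Licci

set_option maxRecDepth 100000

/-- inverse Cartan matrix, row `q` -/
def icN (q : ℕ) : List ℤ :=
  ([[2, 3, 4, 5, 6, 4, 2, 3], [3, 6, 8, 10, 12, 8, 4, 6], [4, 8, 12, 15, 18, 12, 6, 9],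
    [5, 10, 15, 20, 24, 16, 8, 12], [6, 12, 18, 24, 30, 20, 10, 15], [4, 8, 12, 16, 20, 14, 7, 10],
    [2, 4, 6, 8, 10, 7, 4, 5], [3, 6, 9, 12, 15, 10, 5, 8]] : List (List ℤ)).getD q []

/-- dual basis, as sparse vectors -/
def dbN (i : ℕ) : List (ℕ × ℤ) :=
  bif Nat.blt i 240 then [(fnd (Nat.sub 1717986918 (cd i)), -1)]
  else (List.range 8).map (fun q => (240 + q, (icN (i - 240)).getD q 0))

/-- duality -/
def dbc (i j : ℕ) : Bool :=
  isz ((dbN i).foldr (fun p s => p.2 * kcN p.1 j + s) 0 - (bif Nat.beq i j then 1 else 0))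

theorem dbc_all : (List.range 248).all (fun i => (List.range 248).all (fun j => dbc i j)) = true :=
  all_range_of16 _ (by decide +kernel) (by decide +kernel) (by decide +kernel) (by decide +kernel) (by decide +kernel) (by decide +kernel) (by decide +kernel) (by decide +kernel)
    (by decide +kernel) (by decide +kernel) (by decide +kernel) (by decide +kernel) (by decide +kernel) (by decide +kernel) (by decide +kernel) (by decide +kernel)

theorem db_rng : (List.range 248).all (fun i => (dbN i).all (fun p => Nat.blt p.1 248)) = true := by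
  decide +kernel

end Pool.Agent.Licci

end

section

/-!
# LICCI, codimension 4, module L4c: the component of degree `3` of `[Y, [Z, e]]`, `e` in degree `-2`
-/

namespace Pool.Agent.Licci

open scoped BigOperators

namespace FormA3

/-- index of `w_si`, `s < i` -/
def i2N (s i : ℕ) : ℕ := 8 + s * (15 - s) / 2 + (i - s - 1)

/-- coefficient `w_si` of the basis vector `b` -/
def wz (b s i : ℕ) : ℤ :=
  bif Nat.blt s i && Nat.beq b (i2N s i) then 1
  else bif Nat.blt i s && Nat.beq b (i2N i s) then -1 else 0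

/-- value of the right hand side on a vector `a < 8` of degree `3` and a vector `b` of degree `2` -/
def vz (a b i j q : ℕ) : ℤ :=
  (bif Nat.beq q j then wz b a i else 0) - (bif Nat.beq q i then wz b a j else 0) +
    (bif Nat.beq a q then wz b i j else 0)

/-- check -/
def ckl (i j : ℕ) : Bool :=
  (List.range 8).all fun a => (List.range 28).all fun b => (List.range 8).all fun q =>
    (cf (lm a (sp (b + 8) (196 + i2N i j))) q == vz a (b + 8) i j q) &&
      (cf (lm (b + 8) (sp a (196 + i2N i j))) q == vz a (b + 8) i j q)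

set_option maxRecDepth 100000 in

set_option maxRecDepth 100000 in

set_option maxRecDepth 100000 in

set_option maxRecDepth 100000 in

set_option maxRecDepth 100000 in

set_option maxRecDepth 100000 in

set_option maxRecDepth 100000 in

set_option maxRecDepth 100000 in

theorem ckl_all : (List.range 8).all (fun j => (List.range j).all fun i => ckl i j) = true := by
  rw [List.all_eq_true]
  intro q hq
  rw [List.mem_range] at hq
  match q, hq with
  | 0, _ => exact (by decide +kernel)
  | 1, _ => exact (by decide +kernel)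
  | 2, _ => exact (by decide +kernel)
  | 3, _ => exact (by decide +kernel)
  | 4, _ => exact (by decide +kernel)
  | 5, _ => exact (by decide +kernel)
  | 6, _ => exact (by decide +kernel)
  | 7, _ => exact (by decide +kernel)

theorem zd_chk : ∀ m : Fin 248, (zdg m = 3 → (m : ℕ) < 8) ∧ (zdg m = 2 → 8 ≤ (m : ℕ) ∧ (m : ℕ) < 36) ∧
    zdg m ≤ 3 ∧ ((m : ℕ) < 8 → zdg m = 3) ∧ (204 ≤ (m : ℕ) ∧ (m : ℕ) < 232 → zdg m = -2) := by
  decide +kernel

theorem i2_chk : ∀ s i : Fin 8, s < i → (i2 s i : ℕ) = i2N s i ∧ (i2 i s : ℕ) = i2N s i ∧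
    (im2 s i : ℕ) = 196 + i2N s i := by decide +kernel

theorem bif_beq {α : Type*} (m n : ℕ) (x y : α) :
    (bif Nat.beq m n then x else y) = if m = n then x else y := by
  by_cases h : m = n
  · rw [if_pos h, show Nat.beq m n = true by simpa using h, cond_true]
  · rw [if_neg h, show Nat.beq m n = false by rw [Bool.eq_false_iff]; simpa using h, cond_false]

theorem vz_eq (a b i j q : ℕ) : vz a b i j q = (if q = j then wz b a i else 0) -
    (if q = i then wz b a j else 0) + (if a = q then wz b i j else 0) := by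
  unfold vz
  rw [bif_beq, bif_beq, bif_beq]

theorem ix_val (q : Fin 8) : (ix q : ℕ) = q := by
  simp only [ix, Fin.ofNat_eq_cast]
  rw [Fin.val_natCast]
  omega

variable {A : Type*} [CommRing A]

theorem w2_eb (b : Fin 248) (s i : Fin 8) : w2 (eb b : E8 A) s i = ((wz b s i : ℤ) : A) := by
  unfold w2 wz ep2
  rw [eb_apply]
  rcases lt_trichotomy s i with h | h | h
  · obtain ⟨e1, -, -⟩ := i2_chk s i h
    have hs : Int.sign ((i : ℤ) - s) = 1 := Int.sign_eq_one_of_pos (by
      have : (s : ℕ) < i := h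
      omega)
    rw [hs]
    have b1 : Nat.blt s i = true := by rw [Nat.blt_eq]; exact h
    have b2 : Nat.blt i s = false := by
      rw [Bool.eq_false_iff]; intro h'; rw [Nat.blt_eq] at h'; exact absurd h (by
        have : (s : ℕ) < i := h
        simp only [Fin.lt_def]; omega)
    rw [b1, b2, Bool.true_and, Bool.false_and, cond_false, ← e1]
    by_cases hb : i2 s i = b
    · subst hb
      simp
    · have : Nat.beq b (i2 s i) = false := by
        rw [Bool.eq_false_iff]; intro h'
        exact hb (Fin.ext (by rw [Nat.beq_eq] at h'; exact h'.symm))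
      rw [if_neg hb, this]
      simp
  · subst h
    have b1 : Nat.blt (s : ℕ) s = false := by
      rw [Bool.eq_false_iff]; intro h'; rw [Nat.blt_eq] at h'; omega
    rw [b1]
    simp
  · obtain ⟨-, e1, -⟩ := i2_chk i s h
    have hs : Int.sign ((i : ℤ) - s) = -1 := Int.sign_eq_neg_one_of_neg (by
      have : (i : ℕ) < s := h
      omega)
    rw [hs]
    have b1 : Nat.blt i s = true := by rw [Nat.blt_eq]; exact h
    have b2 : Nat.blt s i = false := by
      rw [Bool.eq_false_iff]; intro h'; rw [Nat.blt_eq] at h'; exact absurd h (by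
        have : (i : ℕ) < s := h
        simp only [Fin.lt_def]; omega)
    rw [b1, b2, Bool.true_and, Bool.false_and, cond_false, ← e1]
    by_cases hb : i2 s i = b
    · subst hb
      simp
    · have : Nat.beq b (i2 s i) = false := by
        rw [Bool.eq_false_iff]; intro h'
        exact hb (Fin.ext (by rw [Nat.beq_eq] at h'; exact h'.symm))
      rw [if_neg hb, this]
      simp

theorem p3_eb (a : Fin 248) (q : Fin 8) :
    p3 (eb a : E8 A) q = ((if (a : ℕ) = q then (1 : ℤ) else 0 : ℤ) : A) := by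
  unfold p3
  rw [eb_apply]
  by_cases h : ix q = a
  · have : (a : ℕ) = q := by rw [← h, ix_val]
    rw [if_pos h, if_pos this]
    simp
  · have : ¬ (a : ℕ) = q := fun h' => h (Fin.ext (by rw [ix_val, h']))
    rw [if_neg h, if_neg this]
    simp

theorem om_single (Y : E8 A) (x : Vec A) (i : Fin 8) :
    om Y x (Pi.single i 1) = ∑ s, w2 Y s i * x s := by
  unfold om
  refine Finset.sum_congr rfl fun s _ => ?_
  rw [Finset.sum_eq_single i]
  · simp
  · intro b _ hb
    simp [hb]
  · intro h
    exact absurd (Finset.mem_univ _) h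

theorem Th_single (Y Z : E8 A) (i : Fin 8) :
    Th Y Z (Pi.single i 1) = ∑ s, (w2 Z s i * p3 Y s + w2 Y s i * p3 Z s) := by
  unfold Th
  rw [om_single, om_single, ← Finset.sum_add_distrib]

theorem w2_add (Y Z : E8 A) (i j : Fin 8) : w2 (Y + Z) i j = w2 Y i j + w2 Z i j := by
  simp only [w2, Pi.add_apply, mul_add]

theorem w2_smul (c : A) (Y : E8 A) (i j : Fin 8) : w2 (c • Y) i j = c * w2 Y i j := by
  simp only [w2, Pi.smul_apply, smul_eq_mul]; ring

theorem p3_add (Y Z : E8 A) (i : Fin 8) : p3 (Y + Z) i = p3 Y i + p3 Z i := rfl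

theorem p3_smul (c : A) (Y : E8 A) (i : Fin 8) : p3 (c • Y) i = c * p3 Y i := rfl

/-- right hand side as a bilinear map -/
def rB (i j q : Fin 8) : E8 A →ₗ[A] E8 A →ₗ[A] A :=
  LinearMap.mk₂ A (fun Y Z => (if q = j then Th Y Z (Pi.single i 1) else 0) -
      (if q = i then Th Y Z (Pi.single j 1) else 0) + w2 Z i j * p3 Y q + w2 Y i j * p3 Z q)
    (by
      intro Y Y' Z
      simp only [Th_single, w2_add, p3_add, Finset.sum_add_distrib, mul_add, add_mul]
      split_ifs <;> ring)
    (by
      intro c Y Z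
      simp only [Th_single, w2_smul, p3_smul, smul_eq_mul]
      have e : ∀ k : Fin 8, ∑ s, (w2 Z s k * (c * p3 Y s) + c * w2 Y s k * p3 Z s) =
          c * ∑ s, (w2 Z s k * p3 Y s + w2 Y s k * p3 Z s) := by
        intro k
        rw [Finset.mul_sum]
        exact Finset.sum_congr rfl fun s _ => by ring
      rw [e, e]
      split_ifs <;> ring)
    (by
      intro Y Z Z'
      simp only [Th_single, w2_add, p3_add, Finset.sum_add_distrib, mul_add, add_mul]
      split_ifs <;> ring)
    (by
      intro c Y Z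
      simp only [Th_single, w2_smul, p3_smul, smul_eq_mul]
      have e : ∀ k : Fin 8, ∑ s, (c * w2 Z s k * p3 Y s + w2 Y s k * (c * p3 Z s)) =
          c * ∑ s, (w2 Z s k * p3 Y s + w2 Y s k * p3 Z s) := by
        intro k
        rw [Finset.mul_sum]
        exact Finset.sum_congr rfl fun s _ => by ring
      rw [e, e]
      split_ifs <;> ring)

/-- left hand side as a bilinear map -/
def lB (i j q : Fin 8) : E8 A →ₗ[A] E8 A →ₗ[A] A :=
  LinearMap.mk₂ A (fun Y Z => p3 (br Y (br Z (eb (im2 i j)))) q)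
    (fun Y Y' Z => by rw [br_add_left, p3_add])
    (fun c Y Z => by rw [br_smul_left, p3_smul, smul_eq_mul])
    (fun Y Z Z' => by rw [br_add_left, br_add_right, p3_add])
    (fun c Y Z => by rw [br_smul_left, br_smul_right, p3_smul, smul_eq_mul])

/-- value of the right hand side on basis vectors -/
theorem rB_eb (i j q : Fin 8) (a b : Fin 248) : rB (A := A) i j q (eb a) (eb b) =
    (((if (q : ℕ) = j then (if (a : ℕ) < 8 then wz b a i else 0) +
        (if (b : ℕ) < 8 then wz a b i else 0) else 0) -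
      (if (q : ℕ) = i then (if (a : ℕ) < 8 then wz b a j else 0) +
        (if (b : ℕ) < 8 then wz a b j else 0) else 0) +
      wz b i j * (if (a : ℕ) = q then 1 else 0) + wz a i j * (if (b : ℕ) = q then 1 else 0) : ℤ) :
        A) := by
  have hT : ∀ k : Fin 8, Th (eb a : E8 A) (eb b) (Pi.single k 1) =
      (((if (a : ℕ) < 8 then wz b a k else 0) + (if (b : ℕ) < 8 then wz a b k else 0) : ℤ) : A) := by
    intro k
    rw [Th_single, Finset.sum_add_distrib, Int.cast_add]
    have key : ∀ a b : Fin 248, ∑ s : Fin 8, w2 (eb b : E8 A) s k * p3 (eb a) s =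
        ((if (a : ℕ) < 8 then wz b a k else 0 : ℤ) : A) := by
      intro a b
      simp only [w2_eb, p3_eb]
      by_cases ha : (a : ℕ) < 8
      · rw [if_pos ha, Finset.sum_eq_single (⟨a, ha⟩ : Fin 8)]
        · simp
        · intro s _ hs
          rw [if_neg (fun h => hs (Fin.ext h.symm))]
          simp
        · intro h
          exact absurd (Finset.mem_univ _) h
      · rw [if_neg ha, Int.cast_zero]
        refine Finset.sum_eq_zero fun s _ => ?_
        have : ¬ (a : ℕ) = s := fun h => ha (h ▸ s.2)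
        rw [if_neg this]
        simp
    rw [key a b, key b a]
  rw [rB, LinearMap.mk₂_apply, hT, hT]
  simp only [w2_eb, p3_eb, Fin.ext_iff]
  split_ifs <;> push_cast <;> ring

theorem lB_eb (i j q : Fin 8) (a b : Fin 248) : lB (A := A) i j q (eb a) (eb b) =
    ((cf (lm a (sp b (im2 i j))) q : ℤ) : A) := by
  rw [lB, LinearMap.mk₂_apply, p3, br_eb_br, ix_val]
  have e1 := sum_cf (sp b (im2 i j)) (fun p hp => sp_rng b.2 (im2 i j).2 hp) (fun m => scN a m q)
  simp only [scN] at e1 ⊢
  rw [e1, cf_lm]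
  rfl

theorem i2N_rng : ∀ s i : Fin 8, s < i → 8 ≤ i2N s i ∧ i2N s i < 36 := by decide +kernel

theorem wz_of_lt {b : ℕ} (s i : ℕ) (h : b < 8 ∨ (36 ≤ b)) (hs : s < 8) (hi : i < 8) :
    wz b s i = 0 := by
  unfold wz
  have h1 : ∀ s i : ℕ, s < 8 → i < 8 → (Nat.blt s i && Nat.beq b (i2N s i)) = false := by
    intro s i hs hi
    rw [Bool.and_eq_false_iff]
    by_cases h' : s < i
    · right
      have := i2N_rng ⟨s, hs⟩ ⟨i, hi⟩ h'
      simp only at this
      rw [Bool.eq_false_iff]
      intro h''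
      have : b = i2N s i := by simpa using h''
      omega
    · left
      rw [Bool.eq_false_iff, Ne, Nat.blt_eq]
      exact h'
  rw [h1 s i hs hi, h1 i s hi hs]
  rfl

theorem lB_eq_rB (i j q : Fin 8) (h : i < j) : lB (A := A) i j q = rB i j q := by
  refine E8.hom_ext fun a => E8.hom_ext fun b => ?_
  rw [lB_eb, rB_eb]
  congr 1
  obtain ⟨-, -, hc⟩ := i2_chk i j h
  have hij : (i : ℕ) < j := h
  have hck := all_range (all_range ckl_all j.2) hij
  unfold ckl at hck
  have hm0 : ∀ b : ℕ, b < 8 → ∀ s k : Fin 8, wz b s k = 0 := fun b hb s k =>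
    wz_of_lt s k (Or.inl hb) s.2 k.2
  have hm1 : ∀ b : ℕ, 36 ≤ b → ∀ s k : Fin 8, wz b s k = 0 := fun b hb s k =>
    wz_of_lt s k (Or.inr hb) s.2 k.2
  have wz' : ∀ (x y k : ℕ) (hx : x < 8), wz y x k = wz y ((⟨x, hx⟩ : Fin 8) : ℕ) k :=
    fun _ _ _ _ => rfl
  by_cases h1 : (a : ℕ) < 8 ∧ 8 ≤ (b : ℕ) ∧ (b : ℕ) < 36
  · obtain ⟨ha, hb8, hb36⟩ := h1
    have k1 := all_range (all_range (all_range hck ha) (i := (b : ℕ) - 8) (by omega)) q.2
    rw [Bool.and_eq_true, beq_iff_eq, beq_iff_eq] at k1
    have e8 : (b : ℕ) - 8 + 8 = b := by omega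
    rw [e8] at k1
    rw [hc, k1.1, vz_eq]
    have hb8' : ¬ (b : ℕ) < 8 := by omega
    have hbq : ¬ (b : ℕ) = q := by omega
    rw [if_pos ha, if_pos ha, if_neg hb8', if_neg hb8', if_neg hbq, hm0 a ha i j]
    simp only [add_zero, mul_zero, mul_ite, mul_one]
  by_cases h2 : (b : ℕ) < 8 ∧ 8 ≤ (a : ℕ) ∧ (a : ℕ) < 36
  · obtain ⟨hb, ha8, ha36⟩ := h2
    have k1 := all_range (all_range (all_range hck hb) (i := (a : ℕ) - 8) (by omega)) q.2
    rw [Bool.and_eq_true, beq_iff_eq, beq_iff_eq] at k1
    have e8 : (a : ℕ) - 8 + 8 = a := by omega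
    rw [e8] at k1
    rw [hc, k1.2, vz_eq]
    have ha8' : ¬ (a : ℕ) < 8 := by omega
    have haq : ¬ (a : ℕ) = q := by omega
    rw [if_pos hb, if_pos hb, if_neg ha8', if_neg ha8', if_neg haq, hm0 b hb i j]
    simp only [zero_add, add_zero, mul_zero, mul_ite, mul_one]
  -- the left hand side vanishes by degrees
  have hl : cf (lm a (sp b (im2 i j))) q = 0 := by
    have e1 := sum_cf (sp b (im2 i j)) (fun p hp => sp_rng b.2 (im2 i j).2 hp)
      (fun m => scN a m q)
    rw [cf_lm, ← e1]
    refine Finset.sum_eq_zero fun m _ => ?_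
    by_contra hne
    have n1 : scN b (im2 i j) m ≠ 0 := left_ne_zero_of_mul hne
    have n2 : scN a m q ≠ 0 := right_ne_zero_of_mul hne
    have z1 := sc_zdg (i := b) (j := im2 i j) (k := m) n1
    have z2 := sc_zdg (i := a) (j := m) (k := ix q) (by rw [sc, ix_val]; exact n2)
    have zc : zdg (im2 i j) = -2 := (zd_chk (im2 i j)).2.2.2.2 (by
      rw [hc]
      have := i2N_rng i j h
      omega)
    have zq : zdg (ix q) = 3 := (zd_chk (ix q)).2.2.2.1 (by rw [ix_val]; exact q.2)
    have ka := zd_chk a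
    have kb := zd_chk b
    have hab : zdg a + zdg b = 5 := by omega
    by_cases ha : zdg a = 3
    · exact h1 ⟨ka.1 ha, kb.2.1 (by omega)⟩
    · exact h2 ⟨kb.1 (by omega), ka.2.1 (by omega)⟩
  rw [hl]
  by_cases ha : (a : ℕ) < 8
  · have hb : (b : ℕ) < 8 ∨ 36 ≤ (b : ℕ) := by omega
    have wb : ∀ s k : Fin 8, wz b s k = 0 := fun s k => wz_of_lt s k hb s.2 k.2
    rw [if_pos ha, if_pos ha, wz' a b i ha, wb, wz' a b j ha, wb, wb, hm0 a ha i j]
    by_cases hb' : (b : ℕ) < 8
    · rw [if_pos hb', if_pos hb', wz' b a i hb', hm0 a ha, wz' b a j hb', hm0 a ha]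
      simp
    · rw [if_neg hb', if_neg hb']
      simp
  · have haq : ¬ (a : ℕ) = q := fun h' => ha (h' ▸ q.2)
    rw [if_neg ha, if_neg ha, if_neg haq]
    by_cases hb : (b : ℕ) < 8
    · have ha' : (a : ℕ) < 8 ∨ 36 ≤ (a : ℕ) := by omega
      have wa : ∀ s k : Fin 8, wz a s k = 0 := fun s k => wz_of_lt s k ha' s.2 k.2
      rw [if_pos hb, if_pos hb, wz' b a i hb, wa, wz' b a j hb, wa, wa]
      simp
    · have hbq : ¬ (b : ℕ) = q := fun h' => hb (h' ▸ q.2)
      rw [if_neg hb, if_neg hb, if_neg hbq]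
      simp

end FormA3

/-- (F5) -/
theorem p3_low {A : Type*} [CommRing A] (Y Z : E8 A) (i j q : Fin 8) (h : i < j) :
    p3 (br Y (br Z (eb (im2 i j)))) q = (if q = j then Th Y Z (Pi.single i 1) else 0) -
      (if q = i then Th Y Z (Pi.single j 1) else 0) + w2 Z i j * p3 Y q + w2 Y i j * p3 Z q :=
  congrArg (fun f : E8 A →ₗ[A] E8 A →ₗ[A] A => f Y Z) (FormA3.lB_eq_rB i j q h)

end Pool.Agent.Licci

end
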