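import Pool.Agent.Work.MP_a98e4e_ag.Fu.E.KChk1
import Pool.Agent.Work.MP_a98e4e_ag.Fu.E.KChk2
import Pool.Agent.Work.MP_a98e4e_ag.Fu.E.KChk3
import Pool.Agent.Work.MP_a98e4e_ag.Fu.MFree
import Pool.Agent.Work.MP_a98e4e_ag.Fu.XE.PhiDefs

section

/-!
# LICCI, codimension 6: the invariant form of `e_8`

Bilinear, symmetric, invariant, unimodular; `60 kf x y` is the trace of `(ad x) (ad y)`; preserved by
automorphisms.
-/

set_option linter.unusedSectionVars false

namespace Pool.Agent.Licci

open scoped BigOperators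

theorem kcN_symm {i j : ℕ} (hi : i < 248) (hj : j < 248) : kcN i j = kcN j i := by
  unfold kcN
  rcases lt_or_ge i 240 with h1 | h1 <;> rcases lt_or_ge j 240 with h2 | h2
  · rw [blt_true h1, blt_true h2]
    simp only [cond_true]
    rw [show Nat.add (cd i) (cd j) = Nat.add (cd j) (cd i) from Nat.add_comm _ _]
  · rw [blt_true h1, blt_false h2]
    simp
  · rw [blt_false h1, blt_true h2]
    simp
  · rw [blt_false h1, blt_false h2]
    simp only [cond_false]
    have h : ∀ a < 8, ∀ b < 8, prN (gens.getD a 0) b = prN (gens.getD b 0) a := by decide +kernel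
    exact h _ (by omega) _ (by omega)

theorem kcN_wt {i j : ℕ} (hi : i < 248) (hj : j < 248) (h : kcN i j ≠ 0) :
    cd i + cd j = off + off := by
  unfold kcN at h
  rcases lt_or_ge i 240 with h1 | h1 <;> rcases lt_or_ge j 240 with h2 | h2
  · rw [blt_true h1, blt_true h2] at h
    simp only [cond_true] at h
    cases h3 : Nat.beq (Nat.add (cd i) (cd j)) 1145324612 with
    | true =>
      rw [← off2]
      simpa using h3
    | false => rw [h3] at h; simp at h
  · rw [blt_true h1, blt_false h2] at h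
    simp at h
  · rw [blt_false h1, blt_true h2] at h
    simp at h
  · rw [cd_cartan h1 hi, cd_cartan h2 hj]

theorem kl_eq (L : List (ℕ × ℤ)) (k : ℕ) : kl L k = (L.map (fun p => p.2 * kcN p.1 k)).sum := by
  induction L with
  | nil => rfl
  | cons p L ih =>
    rw [List.map_cons, List.sum_cons, ← ih]
    rfl

theorem sum_kl {i j : ℕ} (hi : i < 248) (hj : j < 248) (k : ℕ) :
    ∑ m : Fin 248, scN i j m * kcN m k = kl (sp i j) k := by
  rw [kl_eq]
  exact sum_cf (sp i j) (fun p hp => sp_rng hi hj hp) (fun m => kcN m k)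

/-- invariance of the form, on basis vectors -/
theorem kc_inv (i j k : Fin 248) :
    ∑ m : Fin 248, scN i j m * kcN m k = ∑ m : Fin 248, scN j k m * kcN m i := by
  by_cases hw : cd i + cd j + cd k = off + off + off
  · rw [sum_kl i.2 j.2, sum_kl j.2 k.2]
    have h := all_range (all_range ivc_all i.2) j.2
    unfold ivc at h
    simp only at h
    rcases lt_or_ge (k : ℕ) 240 with h1 | h1
    · have e : Nat.sub 2290649224 (Nat.add (cd i) (cd j)) = cd k + off := by
        change 2290649224 - (cd i + cd j) = _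
        have : (2290649224 : ℕ) = off + off + off + off := rfl
        omega
      rw [e, fnd_cd h1, blt_true h1, cond_true] at h
      have := (isz_iff _).1 h
      omega
    · have e : Nat.sub 2290649224 (Nat.add (cd i) (cd j)) = 1145324612 := by
        change 2290649224 - (cd i + cd j) = _
        rw [cd_cartan h1 k.2] at hw
        have h3 : (2290649224 : ℕ) = off + off + off + off := rfl
        have h4 : (1145324612 : ℕ) = off + off := rfl
        omega
      rw [e] at h
      have h5 : Nat.blt (fnd 1145324612) 240 = false := by decide +kernel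
      rw [h5, cond_false] at h
      have h6 : Nat.beq 1145324612 1145324612 = true := by decide +kernel
      rw [h6, cond_true] at h
      have h7 := all_range h (i := (k : ℕ) - 240) (by omega)
      have h8 : 240 + ((k : ℕ) - 240) = k := by omega
      rw [h8] at h7
      have := (isz_iff _).1 h7
      omega
  · have h1 : ∀ m : Fin 248, scN i j m * kcN m k = 0 := by
      intro m
      by_contra hne
      have h1 := scN_wt i.2 j.2 (left_ne_zero_of_mul hne)
      have h2 := kcN_wt m.2 k.2 (right_ne_zero_of_mul hne)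
      omega
    have h2 : ∀ m : Fin 248, scN j k m * kcN m i = 0 := by
      intro m
      by_contra hne
      have h1 := scN_wt j.2 k.2 (left_ne_zero_of_mul hne)
      have h2 := kcN_wt m.2 i.2 (right_ne_zero_of_mul hne)
      omega
    rw [Finset.sum_congr rfl fun m _ => h1 m, Finset.sum_congr rfl fun m _ => h2 m]

variable {A : Type*} [CommRing A]

theorem kf_def (x y : E8 A) : kf x y = ∑ i, ∑ j, (kc i j : A) * (x i * y j) := rfl

theorem kf_add_left (x x' y : E8 A) : kf (x + x') y = kf x y + kf x' y := by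
  simp only [kf_def, Pi.add_apply, add_mul, mul_add, Finset.sum_add_distrib]

theorem kf_add_right (x y y' : E8 A) : kf x (y + y') = kf x y + kf x y' := by
  simp only [kf_def, Pi.add_apply, mul_add, Finset.sum_add_distrib]

theorem kf_smul_left (c : A) (x y : E8 A) : kf (c • x) y = c * kf x y := by
  simp only [kf_def, Pi.smul_apply, smul_eq_mul, Finset.mul_sum]
  refine Finset.sum_congr rfl fun i _ => Finset.sum_congr rfl fun j _ => ?_
  ring

theorem kf_smul_right (c : A) (x y : E8 A) : kf x (c • y) = c * kf x y := by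
  simp only [kf_def, Pi.smul_apply, smul_eq_mul, Finset.mul_sum]
  refine Finset.sum_congr rfl fun i _ => Finset.sum_congr rfl fun j _ => ?_
  ring

/-- the form as a bilinear map -/
def kfL : E8 A →ₗ[A] E8 A →ₗ[A] A :=
  LinearMap.mk₂ A kf kf_add_left kf_smul_left kf_add_right kf_smul_right

@[simp] theorem kfL_apply (x y : E8 A) : kfL x y = kf x y := rfl

@[simp] theorem kf_zero_left (y : E8 A) : kf 0 y = 0 := by
  simpa using kf_smul_left (0 : A) 0 y

@[simp] theorem kf_zero_right (x : E8 A) : kf x 0 = 0 := by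
  simpa using kf_smul_right (0 : A) x 0

theorem kf_neg_left (x y : E8 A) : kf (-x) y = - kf x y := by
  simpa using kf_smul_left (-1 : A) x y

theorem kf_neg_right (x y : E8 A) : kf x (-y) = - kf x y := by
  simpa using kf_smul_right (-1 : A) x y

theorem kf_sub_left (x x' y : E8 A) : kf (x - x') y = kf x y - kf x' y := by
  rw [sub_eq_add_neg, kf_add_left, kf_neg_left, sub_eq_add_neg]

theorem kf_sub_right (x y y' : E8 A) : kf x (y - y') = kf x y - kf x y' := by
  rw [sub_eq_add_neg, kf_add_right, kf_neg_right, sub_eq_add_neg]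

theorem kf_sum_left {ι : Type*} (s : Finset ι) (x : ι → E8 A) (y : E8 A) :
    kf (∑ i ∈ s, x i) y = ∑ i ∈ s, kf (x i) y := by
  have h := congrArg (fun f => f y) (map_sum (kfL (A := A)) x s)
  rw [LinearMap.sum_apply] at h
  exact h

theorem kf_sum_right {ι : Type*} (s : Finset ι) (x : E8 A) (y : ι → E8 A) :
    kf x (∑ i ∈ s, y i) = ∑ i ∈ s, kf x (y i) :=
  map_sum (kfL (A := A) x) y s

theorem kf_eb_eb (i j : Fin 248) : kf (eb i : E8 A) (eb j) = (kc i j : A) := by
  simp [kf_def, eb_apply]

theorem kf_symm (x y : E8 A) : kf x y = kf y x := by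
  rw [kf_def, kf_def, Finset.sum_comm]
  refine Finset.sum_congr rfl fun j _ => Finset.sum_congr rfl fun i _ => ?_
  rw [kc, kc, kcN_symm i.2 j.2, mul_comm (x i)]

theorem kf_br_eb (i j k : Fin 248) :
    kf (br (eb i : E8 A) (eb j)) (eb k) = ((∑ m : Fin 248, scN i j m * kcN m k : ℤ) : A) := by
  have : br (eb i : E8 A) (eb j) = ∑ m, (sc i j m : A) • (eb m : E8 A) := by
    conv_lhs => rw [E8.eq_sum (br (eb i : E8 A) (eb j))]
    simp only [br_eb_eb]
  rw [this, kf_sum_left]
  simp only [kf_smul_left, kf_eb_eb]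
  push_cast
  rfl

/-- the form is invariant -/
theorem kf_inv (x y z : E8 A) : kf (br x y) z = kf x (br y z) := by
  have h : ∀ i j k : Fin 248, kf (br (eb i : E8 A) (eb j)) (eb k) = kf (eb i) (br (eb j) (eb k)) := by
    intro i j k
    rw [kf_symm (eb i : E8 A), kf_br_eb, kf_br_eb, kc_inv i j k]
  conv_lhs => rw [E8.eq_sum x, E8.eq_sum y, E8.eq_sum z]
  conv_rhs => rw [E8.eq_sum x, E8.eq_sum y, E8.eq_sum z]
  simp only [br_sum_left, br_sum_right, br_smul_left, br_smul_right, kf_sum_left, kf_sum_right,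
    kf_smul_left, kf_smul_right, h]

/-- `ad x` is skew for the form -/
theorem kf_br_left (x y z : E8 A) : kf (br x y) z = - kf y (br x z) := by
  rw [br_skew x y, kf_neg_left, kf_inv]

/-- base change -/
theorem kf_map {A' : Type*} [CommRing A'] (φ : A →+* A') (x y : E8 A) :
    φ (kf x y) = kf (φ ∘ x) (φ ∘ y) := by
  simp only [Function.comp_apply, kf_def, map_sum, map_mul, map_intCast]

/-- dual basis -/
def db (i : Fin 248) : E8 A := ∑ m : Fin 248, (cf (dbN i) m : A) • eb m

theorem kf_db (i j : Fin 248) : kf (db i : E8 A) (eb j) = if i = j then 1 else 0 := by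
  have h := (isz_iff _).1 (all_range (all_range dbc_all i.2) j.2)
  have h1 : ∀ p ∈ dbN i, p.1 < 248 := by
    intro p hp
    have := all_range db_rng i.2
    rw [List.all_eq_true] at this
    have := this p hp
    simpa [Nat.blt_eq] using this
  have h2 := sum_cf (dbN i) h1 (fun m => kcN m j)
  have h3 : ∀ L : List (ℕ × ℤ), L.foldr (fun p s => p.2 * kcN p.1 j + s) 0 =
      (L.map (fun p => p.2 * kcN p.1 j)).sum := by
    intro L
    induction L with
    | nil => rfl
    | cons p L ih => rw [List.map_cons, List.sum_cons, ← ih]; rfl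
  rw [h3, ← h2] at h
  rw [db, kf_sum_left]
  simp only [kf_smul_left, kf_eb_eb]
  have h4 : (∑ m : Fin 248, (cf (dbN i) m : A) * (kc m j : A)) =
      ((∑ m : Fin 248, cf (dbN i) m * kcN m j : ℤ) : A) := by
    push_cast
    rfl
  rw [h4, sub_eq_zero.1 h]
  by_cases hij : i = j
  · subst hij
    have : Nat.beq (i : ℕ) i = true := by simp
    rw [this]
    simp
  · have : Nat.beq (i : ℕ) j = false := by
      rw [Bool.eq_false_iff]
      intro h5
      exact hij (Fin.ext (by simpa using h5))
    rw [this, if_neg hij]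
    simp

theorem kf_db_apply (i : Fin 248) (x : E8 A) : kf (db i) x = x i := by
  conv_lhs => rw [E8.eq_sum x, kf_sum_right]
  simp [kf_smul_right, kf_db]

/-- the form is nondegenerate -/
theorem kf_ext {x y : E8 A} (h : ∀ z, kf z x = kf z y) : x = y := by
  funext i
  rw [← kf_db_apply i x, ← kf_db_apply i y, h]

theorem kf_ext' {x y : E8 A} (h : ∀ z, kf x z = kf y z) : x = y :=
  kf_ext fun z => by rw [kf_symm z x, kf_symm z y, h]

/-- the form is unimodular -/
theorem kf_perfect (φ : E8 A →ₗ[A] A) : ∃ x : E8 A, ∀ y, kf x y = φ y := by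
  refine ⟨∑ i, φ (eb i) • db i, fun y => ?_⟩
  rw [kf_sum_left]
  simp only [kf_smul_left, kf_db_apply]
  conv_rhs => rw [E8.eq_sum y, map_sum]
  refine Finset.sum_congr rfl fun i _ => ?_
  rw [map_smul, smul_eq_mul, mul_comm]

theorem kf_db_sum (x : E8 A) : x = ∑ i, kf x (eb i) • (db i : E8 A) := by
  refine kf_ext' fun z => ?_
  rw [kf_sum_left]
  simp only [kf_smul_left, kf_db_apply]
  conv_lhs => rw [E8.eq_sum z, kf_sum_right]
  refine Finset.sum_congr rfl fun i _ => ?_
  rw [kf_smul_right, mul_comm]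

/-! ### trace -/

theorem foldr_range_sum (f : ℕ → ℤ) (n : ℕ) :
    (List.range n).foldr (fun k s => f k + s) 0 = ∑ k : Fin n, f k := by
  have h : ∀ (L : List ℕ), L.foldr (fun k s => f k + s) 0 = (L.map f).sum := by
    intro L
    induction L with
    | nil => rfl
    | cons a L ih => rw [List.map_cons, List.sum_cons, ← ih]; rfl
  rw [h, Fin.sum_univ_eq_sum_range f n, ← Finset.sum_map_toList]
  simp [Finset.sum, Finset.range, Multiset.range]

/-- the trace of `(ad e_i) (ad e_j)` -/
theorem sum_tr (i j : Fin 248) :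
    ∑ k : Fin 248, ∑ m : Fin 248, scN j k m * scN i m k = 60 * kcN i j := by
  by_cases hw : cd i + cd j = off + off
  · have h := all_range (all_range trc_all i.2) j.2
    unfold trc at h
    have e : Nat.beq (Nat.add (cd i) (cd j)) 1145324612 = true := by
      rw [off2]
      change Nat.beq (cd i + cd j) _ = true
      rw [hw]
      simp
    rw [e, cond_true] at h
    have h1 := (isz_iff _).1 h
    rw [trN, foldr_range_sum (fun k => cf (lm i (sp j k)) k)] at h1
    rw [← sub_eq_zero, ← h1]
    congr 1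
    refine Finset.sum_congr rfl fun k _ => ?_
    rw [cf_lm]
    exact sum_cf (sp j k) (fun p hp => sp_rng j.2 k.2 hp) (fun m => scN i m k)
  · have h1 : ∀ k m : Fin 248, scN j k m * scN i m k = 0 := by
      intro k m
      by_contra hne
      have h1 := scN_wt j.2 k.2 (left_ne_zero_of_mul hne)
      have h2 := scN_wt i.2 m.2 (right_ne_zero_of_mul hne)
      omega
    have h2 : kcN i j = 0 := by
      by_contra hne
      exact hw (kcN_wt i.2 j.2 hne)
    simp [h1, h2]

/-- the trace of `(ad x) (ad y)` -/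
theorem tr_eq_sum (f : E8 A →ₗ[A] E8 A) : LinearMap.trace A (E8 A) f = ∑ k, f (eb k) k := by
  rw [LinearMap.trace_eq_matrix_trace A (Pi.basisFun A (Fin 248)), Matrix.trace]
  refine Finset.sum_congr rfl fun k _ => ?_
  rw [Matrix.diag_apply, LinearMap.toMatrix_apply]
  simp [eb]

/-- the Killing form is `60` times the form -/
theorem killing (x y : E8 A) :
    LinearMap.trace A (E8 A) (brL x ∘ₗ brL y) = 60 * kf x y := by
  have h : ∀ i j : Fin 248, ∑ k : Fin 248, br (eb i : E8 A) (br (eb j) (eb k)) k =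
      60 * kf (eb i : E8 A) (eb j) := by
    intro i j
    rw [kf_eb_eb, kc]
    have h1 := congrArg (Int.cast : ℤ → A) (sum_tr i j)
    push_cast at h1
    rw [← h1]
    refine Finset.sum_congr rfl fun k _ => ?_
    rw [br_eb_br]
    push_cast
    rfl
  rw [tr_eq_sum]
  simp only [LinearMap.comp_apply, brL_apply]
  conv_lhs => rw [E8.eq_sum x, E8.eq_sum y]
  conv_rhs => rw [E8.eq_sum x, E8.eq_sum y]
  simp only [br_sum_left, br_sum_right, br_smul_left, br_smul_right, kf_sum_left, kf_sum_right,
    kf_smul_left, kf_smul_right, Finset.sum_apply, Pi.smul_apply, smul_eq_mul, Finset.mul_sum]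
  rw [Finset.sum_comm]
  refine Finset.sum_congr rfl fun i _ => ?_
  rw [Finset.sum_comm]
  refine Finset.sum_congr rfl fun j _ => ?_
  rw [← Finset.mul_sum, ← Finset.mul_sum, h]
  ring

/-- an automorphism as an equivalence -/
noncomputable def IsAut.equiv {k : E8 A →ₗ[A] E8 A} (h : IsAut k) : E8 A ≃ₗ[A] E8 A :=
  LinearEquiv.ofBijective k h.bij

theorem IsAut.kf_kf [Algebra ℚ A] {k : E8 A →ₗ[A] E8 A} (h : IsAut k) (x y : E8 A) :
    kf (k x) (k y) = kf x y := by
  have e : ∀ z : E8 A, brL (k z) = k ∘ₗ brL z ∘ₗ (h.equiv.symm : E8 A →ₗ[A] E8 A) := by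
    intro z
    refine LinearMap.ext fun u => ?_
    obtain ⟨v, rfl⟩ := h.bij.2 u
    have h1 : h.equiv.symm (k v) = v := by
      rw [LinearEquiv.symm_apply_eq]
      rfl
    simp only [LinearMap.comp_apply, LinearEquiv.coe_coe, brL_apply, h1]
    exact (h.map_br z v).symm
  have h2 : brL (k x) ∘ₗ brL (k y) =
      (h.equiv : E8 A →ₗ[A] E8 A) ∘ₗ (brL x ∘ₗ brL y) ∘ₗ (h.equiv.symm : E8 A →ₗ[A] E8 A) := by
    rw [e x, e y]
    refine LinearMap.ext fun u => ?_
    simp only [LinearMap.comp_apply, LinearEquiv.coe_coe]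
    have h1 : ∀ v, h.equiv.symm (k v) = v := by
      intro v
      rw [LinearEquiv.symm_apply_eq]
      rfl
    rw [h1]
    rfl
  have h3 : (60 : A) * kf (k x) (k y) = 60 * kf x y := by
    rw [← killing, ← killing, h2, ← LinearMap.comp_assoc]
    exact LinearMap.trace_conj' (brL x ∘ₗ brL y) h.equiv
  have h4 : (algebraMap ℚ A 60⁻¹) * (60 * kf (k x) (k y)) = (algebraMap ℚ A 60⁻¹) * (60 * kf x y) := by
    rw [h3]
  have h5 : (algebraMap ℚ A 60⁻¹) * 60 = 1 := by
    rw [← map_ofNat (algebraMap ℚ A) 60, ← map_mul]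
    norm_num
  rwa [← mul_assoc, ← mul_assoc, h5, one_mul, one_mul] at h4

end Pool.Agent.Licci

end

section

/-!
# LICCI, codimension 6: the `sl_2` of two opposite extremal elements of `e_8`
-/

set_option linter.unusedSectionVars false

namespace Pool.Agent.Licci

open scoped BigOperators

variable {A : Type*} [CommRing A]

theorem br_br_skew (x y z : E8 A) : br (br x y) z = br x (br y z) - br y (br x z) := by
  rw [jacobi x y z]
  abel

/-- twice the identity for `(ad p) (ad e) (ad p)` -/
theorem Cone.two_PEP {p : E8 A} (hp : Cone p) (e u : E8 A) :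
    (2 : A) • br p (br e (br p u)) =
      (2 : A) • ((-kf p (br e u)) • p + (-kf p u) • br e p + kf p e • br p u) := by
  have h1 : br (br p (br p e)) u = (-(2 * kf p e)) • br p u := by rw [hp e, br_smul_left]
  rw [br_br_skew p (br p e) u, br_br_skew p e u, br_br_skew p e (br p u), br_sub_right,
    hp (br e u), hp u, br_smul_right] at h1
  have h2 : (2 : A) • br p (br e (br p u)) = (-(2 * kf p (br e u))) • p +
      (-(2 * kf p u)) • br e p - (-(2 * kf p e)) • br p u := by
    rw [← h1, two_smul]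
    abel
  rw [h2]
  module

section rat

variable [Algebra ℚ A]

theorem smul_two_cancel {x y : E8 A} (h : (2 : A) • x = (2 : A) • y) : x = y := by
  have h3 : (algebraMap ℚ A 2⁻¹ : A) • ((2 : A) • x) = (algebraMap ℚ A 2⁻¹ : A) • ((2 : A) • y) := by
    rw [h]
  rwa [smul_smul, smul_smul, ← map_ofNat (algebraMap ℚ A) 2, ← map_mul,
    inv_mul_cancel₀ (by norm_num : (2 : ℚ) ≠ 0), map_one, one_smul, one_smul] at h3

theorem smul_nat_cancel {n : ℕ} (hn : n ≠ 0) {x : E8 A} (h : (n : A) • x = 0) : x = 0 := by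
  have h3 : (algebraMap ℚ A (n : ℚ)⁻¹ : A) • ((n : A) • x) = 0 := by
    rw [h, smul_zero]
  rwa [smul_smul, ← map_natCast (algebraMap ℚ A) n, ← map_mul,
    inv_mul_cancel₀ (by exact_mod_cast hn : (n : ℚ) ≠ 0), map_one, one_smul] at h3

theorem nat_cancel {n : ℕ} (hn : n ≠ 0) {x : A} (h : (n : A) * x = 0) : x = 0 := by
  have h3 : (algebraMap ℚ A (n : ℚ)⁻¹ : A) * ((n : A) * x) = 0 := by
    rw [h, mul_zero]
  rwa [← mul_assoc, ← map_natCast (algebraMap ℚ A) n, ← map_mul,
    inv_mul_cancel₀ (by exact_mod_cast hn : (n : ℚ) ≠ 0), map_one, one_mul] at h3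

/-- `(ad p) (ad e) (ad p)` -/
theorem Cone.PEP {p : E8 A} (hp : Cone p) (e u : E8 A) :
    br p (br e (br p u)) = (-kf p (br e u)) • p + (-kf p u) • br e p + kf p e • br p u :=
  smul_two_cancel (hp.two_PEP e u)

variable {p w : E8 A}

theorem Pair.symm (h : Pair p w) : Pair w p := ⟨h.cw, h.cp, by rw [kf_symm]; exact h.one⟩

theorem Pair.br_h_p (h : Pair p w) : br (br p w) p = (2 : A) • p := by
  rw [br_skew, h.cp w, h.one, ← neg_smul]
  congr 1
  ring

theorem Pair.br_h_w (h : Pair p w) : br (br p w) w = (-2 : A) • w := by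
  have := h.symm.br_h_p
  rw [br_skew p w, br_neg_left, this, ← neg_smul]

theorem Pair.kf_h_h (h : Pair p w) : kf (br p w) (br p w) = (2 : A) := by
  rw [kf_inv p w, br_skew w, kf_neg_right, h.br_h_w, kf_smul_right, h.one]
  ring

/-- eigenspaces for different eigenvalues are orthogonal unless the sum is zero -/
theorem kf_eigen {h x y : E8 A} {a b : A} (hx : br h x = a • x) (hy : br h y = b • y) :
    (a + b) * kf x y = 0 := by
  have h1 : kf (br h x) y = - kf x (br h y) := kf_br_left h x y
  rw [hx, hy, kf_smul_left, kf_smul_right] at h1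
  rw [add_mul, h1]
  ring

theorem br_eigen {h x y : E8 A} {a b : A} (hx : br h x = a • x) (hy : br h y = b • y) :
    br h (br x y) = (a + b) • br x y := by
  rw [jacobi, hx, hy, br_smul_left, br_smul_right, add_smul]

/-- the eigenspace for the eigenvalue `2` is `A p` -/
theorem Pair.eigen_two (h : Pair p w) {x : E8 A} (hx : br (br p w) x = (2 : A) • x) :
    x = kf w x • p := by
  have hpx : kf p x = 0 := by
    have := kf_eigen h.br_h_p hx
    have h4 : (2 + 2 : A) = ((4 : ℕ) : A) := by norm_num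
    rw [h4] at this
    exact nat_cancel (by norm_num) this
  have hhh : br (br p w) (br p w) = (0 : A) • br p w := by rw [br_self, zero_smul]
  have hhx : kf (br p w) x = 0 := by
    have := kf_eigen hhh hx
    have h4 : (0 + 2 : A) = ((2 : ℕ) : A) := by norm_num
    rw [h4] at this
    exact nat_cancel (by norm_num) this
  have hbp : br p x = 0 := by
    have h1 := h.cp.PEP w x
    rw [hpx, ← kf_inv p w x, hhx, h.one, neg_zero, zero_smul, zero_smul, zero_add, zero_add,
      one_smul] at h1
    have h2 := br_br_skew p w (br p x)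
    rw [h.cp x, hpx, mul_zero, neg_zero, zero_smul, br_zero_right, sub_zero, h1,
      br_eigen h.br_h_p hx] at h2
    have h3 : ((3 : ℕ) : A) • br p x = 0 := by
      have h4 : (2 + 2 : A) • br p x - br p x = 0 := by rw [h2, sub_self]
      rw [← h4]
      push_cast
      module
    exact smul_nat_cancel (by norm_num) h3
  have hwx : br p (br w x) = (2 : A) • x := by
    have h1 := br_br_skew p w x
    rw [hbp, br_zero_right, sub_zero, hx] at h1
    exact h1.symm
  have hpwx : br (br p w) (br w x) = 0 := by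
    rw [br_eigen h.br_h_w hx]
    have : (-2 + 2 : A) = 0 := by ring
    rw [this, zero_smul]
  have h1 : br p (br w (br w x)) = (2 : A) • br w x := by
    have h2 := br_br_skew p w (br w x)
    rw [hpwx, hwx, br_smul_right] at h2
    exact (sub_eq_zero.1 h2.symm)
  have h2 : br w (br w x) = (-(2 * kf w x)) • w := h.cw x
  have h3 : br p (br p (br w (br w x))) = ((4 : ℕ) : A) • x := by
    rw [h1, br_smul_right, hwx, smul_smul]
    congr 1
    push_cast
    ring
  rw [h2, br_smul_right, br_smul_right, h.cp w, h.one, smul_smul] at h3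
  have h4 : ((4 : ℕ) : A) • (x - kf w x • p) = 0 := by
    rw [smul_sub, ← h3, smul_smul, ← sub_smul]
    have : -(2 * kf w x) * -(2 * 1) - ((4 : ℕ) : A) * kf w x = 0 := by
      push_cast
      ring
    rw [this, zero_smul]
  exact sub_eq_zero.1 (smul_nat_cancel (by norm_num) h4)

end rat

end Pool.Agent.Licci

end

section

/-!
# LICCI, codimension 6: the local projector onto `F1 p`

`R` a domain, `p` extremal, `e` arbitrary: a linear map `E8 R → F1 p` which is multiplication by
`(p, e) ^ 2` on `F1 p`.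
-/

set_option linter.unusedSectionVars false

namespace Pool.Agent.Licci

open scoped BigOperators

variable {R : Type*} [CommRing R]

theorem mem_F0 {p w : E8 R} : w ∈ F0 p ↔ ∀ i j, br w p i * p j = br w p j * p i := Iff.rfl

theorem mem_F1 {p x : E8 R} : x ∈ F1 p ↔ ∀ w ∈ F0 p, kf x w = 0 := Iff.rfl

theorem F0_of_smul {p w : E8 R} {c : R} (h : br w p = c • p) : w ∈ F0 p := by
  intro i j
  rw [h, Pi.smul_apply, Pi.smul_apply, smul_eq_mul, smul_eq_mul]
  ring

/-- `p_j [w, p] = [w, p]_j p` for `w` in `F0 p` -/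
theorem F0_smul {p w : E8 R} (h : w ∈ F0 p) (j : Fin 248) : p j • br w p = br w p j • p := by
  funext i
  rw [Pi.smul_apply, Pi.smul_apply, smul_eq_mul, smul_eq_mul, mul_comm, h i j]

/-- `F1 p` as a submodule -/
def F1s (p : E8 R) : Submodule R (E8 R) where
  carrier := F1 p
  add_mem' := fun {a b} ha hb w hw => by rw [kf_add_left, ha w hw, hb w hw, add_zero]
  zero_mem' := fun w _ => kf_zero_left w
  smul_mem' := fun c x hx w hw => by rw [kf_smul_left, hx w hw, mul_zero]

theorem mem_F1s {p x : E8 R} : x ∈ F1s p ↔ x ∈ F1 p := Iff.rfl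

/-- `F0 p` as a submodule -/
def F0s (p : E8 R) : Submodule R (E8 R) where
  carrier := F0 p
  add_mem' := fun {a b} ha hb i j => by
    rw [br_add_left, Pi.add_apply, Pi.add_apply, add_mul, add_mul, ha i j, hb i j]
  zero_mem' := fun i j => by rw [br_zero_left]; simp
  smul_mem' := fun c x hx i j => by
    rw [br_smul_left, Pi.smul_apply, Pi.smul_apply, smul_eq_mul, smul_eq_mul, mul_assoc, hx i j,
      mul_assoc]

theorem mem_F0s {p x : E8 R} : x ∈ F0s p ↔ x ∈ F0 p := Iff.rfl

section dom

variable [IsDomain R] [Algebra ℚ R]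

theorem two_cancel {x : R} (h : 2 * x = 0) : x = 0 := by
  have h4 : (2 : R) = ((2 : ℕ) : R) := by norm_num
  rw [h4] at h
  exact nat_cancel (by norm_num) h

variable {p : E8 R}

theorem Cone.self_mem_F0 (_ : Cone p) : p ∈ F0 p := F0_of_smul (c := 0) (by rw [br_self, zero_smul])

/-- `(p, w) = 0` for `w` in `F0 p` -/
theorem Cone.kf_F0 (hp : Cone p) {w : E8 R} (hw : w ∈ F0 p) : kf p w = 0 := by
  by_cases h0 : p = 0
  · rw [h0, kf_zero_left]
  obtain ⟨j, hj⟩ : ∃ j, p j ≠ 0 := by
    by_contra h
    push Not at h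
    exact h0 (funext h)
  have h1 : p j • br p (br p w) = 0 := by
    rw [← br_smul_right, br_skew p w, smul_neg, F0_smul hw, br_neg_right, br_smul_right, br_self,
      smul_zero, neg_zero]
  rw [hp w, smul_smul] at h1
  have h2 := congrFun h1 j
  rw [Pi.smul_apply, Pi.zero_apply, smul_eq_mul] at h2
  rcases mul_eq_zero.1 h2 with h3 | h3
  · rcases mul_eq_zero.1 h3 with h4 | h4
    · exact absurd h4 hj
    · exact two_cancel (neg_eq_zero.1 h4)
  · exact absurd h3 hj

theorem Cone.self_mem_F1 (hp : Cone p) : p ∈ F1 p := fun _ hw => hp.kf_F0 hw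

/-- `[p, z]` is in `F0 p` -/
theorem Cone.br_mem_F0 (hp : Cone p) (z : E8 R) : br p z ∈ F0 p := by
  refine F0_of_smul (c := 2 * kf p z) ?_
  rw [br_skew, hp z, neg_smul, neg_neg]

/-- `[p, z]` is in `F1 p` if `(p, z) = 0` -/
theorem Cone.br_mem_F1 (hp : Cone p) {z : E8 R} (hz : kf p z = 0) : br p z ∈ F1 p := by
  intro w hw
  by_cases h0 : p = 0
  · rw [h0, br_zero_left, kf_zero_left]
  obtain ⟨j, hj⟩ : ∃ j, p j ≠ 0 := by
    by_contra h
    push Not at h
    exact h0 (funext h)
  have h1 : p j * kf (br p z) w = 0 := by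
    rw [kf_br_left, br_skew p w, kf_neg_right, neg_neg, ← kf_smul_right, F0_smul hw, kf_smul_right,
      kf_symm, hz, mul_zero]
  exact (mul_eq_zero.1 h1).resolve_left hj

theorem Cone.br_F1 (hp : Cone p) {x : E8 R} (hx : x ∈ F1 p) : br p x = 0 := by
  refine kf_ext' fun z => ?_
  rw [kf_br_left, hx _ (hp.br_mem_F0 z), kf_zero_left, neg_zero]

theorem Cone.kf_F1 (hp : Cone p) {x : E8 R} (hx : x ∈ F1 p) : kf p x = 0 := by
  rw [kf_symm]
  exact hx _ hp.self_mem_F0

/-- the test element for `br_br_F1` -/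
theorem Cone.test_mem (hp : Cone p) (e z : E8 R) :
    br (br z p) e - kf p e • z - kf z p • e ∈ F0 p := by
  refine F0_of_smul (c := kf p (br e z)) ?_
  have h1 : br (br (br z p) e) p = - br p (br e (br p z)) := by
    rw [br_skew (br (br z p) e) p, br_skew z p, br_neg_left, br_neg_right, neg_neg,
      br_skew (br p z) e, br_neg_right]
  rw [br_sub_left, br_sub_left, h1, hp.PEP e z, br_smul_left, br_smul_left, kf_symm z p,
    br_skew z p, br_skew e p]
  module

/-- `[p, [e, x]] = (p, e) x + (x, e) p` for `x` in `F1 p` -/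
theorem Cone.br_br_F1 (hp : Cone p) (e : E8 R) {x : E8 R} (hx : x ∈ F1 p) :
    br p (br e x) = kf p e • x + kf x e • p := by
  refine kf_ext fun z => ?_
  have h1 := hx _ (hp.test_mem e z)
  rw [kf_sub_right, kf_sub_right, kf_smul_right, kf_smul_right] at h1
  have h2 : kf z (br p (br e x)) = kf x (br (br z p) e) := by
    rw [← kf_inv z p, ← kf_inv (br z p) e x, kf_symm]
  rw [h2, kf_add_right, kf_smul_right, kf_smul_right, kf_symm z x]
  linear_combination h1

/-- the local projector -/
def PiL (e p : E8 R) : E8 R →ₗ[R] E8 R where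
  toFun y := br p (kf p e • br e y - kf p (br e y) • e) - (kf p e * kf y e) • p
  map_add' y y' := by
    simp only [br_add_right, kf_add_right, kf_add_left, smul_add, add_smul, mul_add, br_sub_right]
    abel
  map_smul' c y := by
    simp only [br_smul_right, kf_smul_right, kf_smul_left, RingHom.id_apply, smul_sub, br_sub_right,
      smul_smul]
    congr 2
    · congr 1
      rw [mul_comm]
    · ring

theorem PiL_apply (e p y : E8 R) :
    PiL e p y = br p (kf p e • br e y - kf p (br e y) • e) - (kf p e * kf y e) • p := rfl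

theorem Cone.PiL_mem (hp : Cone p) (e y : E8 R) : PiL e p y ∈ F1 p := by
  rw [PiL_apply, ← mem_F1s]
  refine sub_mem (hp.br_mem_F1 ?_) ((F1s p).smul_mem _ hp.self_mem_F1)
  rw [kf_sub_right, kf_smul_right, kf_smul_right]
  ring

theorem Cone.PiL_F1 (hp : Cone p) (e : E8 R) {x : E8 R} (hx : x ∈ F1 p) :
    PiL e p x = (kf p e) ^ 2 • x := by
  have h1 : kf p (br e x) = 0 := by
    rw [← kf_inv, kf_symm]
    exact hx _ (hp.br_mem_F0 e)
  rw [PiL_apply, h1, zero_smul, sub_zero, br_smul_right, hp.br_br_F1 e hx, smul_add, smul_smul,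
    smul_smul]
  rw [add_sub_cancel_right, sq]

/-- the local projector for a coordinate of `p` -/
theorem Cone.PiL_db (hp : Cone p) (j : Fin 248) {x : E8 R} (hx : x ∈ F1 p) :
    PiL (db j) p x = (p j) ^ 2 • x := by
  rw [hp.PiL_F1 (db j) hx, kf_symm, kf_db_apply]

end dom

end Pool.Agent.Licci

end

section

/-!
# LICCI, codimension 6 (XE): `Φ (p)` and `Φ (p) / R p` are projective off the closed point
-/

set_option autoImplicit false

namespace Pool.Agent.Licci.XE

open scoped BigOperators
open IsLocalRing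

universe u

variable {R : Type u} [CommRing R] {p : E8 R}

/-- the properties of `e_8` and of an extremal element -/
theorem coneDatQ [Algebra ℚ R] (hp : Cone p) : ConeDat (brL (A := R)) (kfL (A := R)) p where
  skew := br_skew
  self := br_self
  jac := jacobi
  inv := kf_inv
  sym := kf_symm
  two := by
    intro x y h
    have h1 := congrArg (fun z => algebraMap ℚ R (1 / 2) • z) h
    simp only [smul_smul] at h1
    have h2 : algebraMap ℚ R (1 / 2) * 2 = 1 := by
      have h3 : (2 : R) = algebraMap ℚ R 2 := (map_ofNat _ 2).symm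
      rw [h3, ← map_mul]
      norm_num
    rwa [h2, one_smul, one_smul] at h1
  cone := hp

theorem mem_Phi_iff {y : E8 R} : y ∈ Phi p ↔
    br p y = 0 ∧ ∀ w, br p (br y w) = -(kf p w • y) - kf y w • p := Iff.rfl

theorem p_mem_Phi [Algebra ℚ R] (hp : Cone p) : p ∈ Phi p :=
  ⟨br_self p, fun w => (coneDatQ hp).self_lin w⟩

theorem br_mem_Phi [Algebra ℚ R] (hp : Cone p) {z : E8 R} (hz : kf p z = 0) : br p z ∈ Phi p := by
  refine ⟨?_, fun w => (coneDatQ hp).lin z hz w⟩
  rw [hp z, hz, mul_zero, neg_zero, zero_smul]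

theorem Phi_recover {y : E8 R} (hy : y ∈ Phi p) (w : E8 R) :
    kf p w • y = br p (br w y) - kf y w • p := by
  rw [br_skew w y, br_neg_right, hy.2]
  abel

theorem Phi_sat [IsDomain R] {c : R} (hc : c ≠ 0) {y : E8 R} (h : c • y ∈ Phi p) : y ∈ Phi p := by
  constructor
  · have h1 := h.1
    rw [br_smul_right] at h1
    exact (smul_eq_zero.1 h1).resolve_left hc
  · intro w
    have h1 := h.2 w
    rw [br_smul_left, br_smul_right, kf_smul_left] at h1
    have h2 : c • br p (br y w) = c • (-(kf p w • y) - kf y w • p) := by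
      rw [h1, smul_sub, smul_neg, smul_smul, smul_smul, smul_smul, mul_comm]
    exact smul_right_injective _ hc h2

/-- `(p, [w, y]) = 0` on `Φ` -/
theorem kf_br_Phi {y : E8 R} (hy : y ∈ Phi p) (w : E8 R) : kf p (br w y) = 0 := by
  rw [← kf_inv, kf_br_left, kf_symm, hy.1]
  simpa using kf_smul_left (0 : R) 0 w

/-- the linear map `z ↦ [p, f z - (p, z) w]`, where `f = (p, w)` -/
noncomputable def bz (p w : E8 R) : E8 R →ₗ[R] E8 R :=
  brL p ∘ₗ (kf p w • LinearMap.id - (LinearMap.toSpanSingleton R (E8 R) w) ∘ₗ kfL p)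

theorem bz_apply (p w z : E8 R) : bz p w z = br p (kf p w • z - kf p z • w) := by
  simp only [bz, LinearMap.comp_apply, LinearMap.sub_apply, LinearMap.smul_apply,
    LinearMap.id_apply, LinearMap.toSpanSingleton_apply, brL_apply, kfL_apply]

theorem bz_mem [Algebra ℚ R] (hp : Cone p) (w z : E8 R) : bz p w z ∈ Phi p := by
  rw [bz_apply]
  refine br_mem_Phi hp ?_
  rw [kf_sub_right, kf_smul_right, kf_smul_right]
  ring

/-- the value of `bz` at `[w, y]` -/
theorem bz_br {y : E8 R} (hy : y ∈ Phi p) (w : E8 R) :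
    bz p w (br w y) = kf p w ^ 2 • y + (kf p w * kf y w) • p := by
  rw [bz_apply, kf_br_Phi hy, zero_smul, sub_zero, br_smul_right]
  have h1 : br p (br w y) = kf p w • y + kf y w • p := by
    rw [Phi_recover hy w, sub_add_cancel]
  rw [h1, smul_add, smul_smul, smul_smul, sq]

variable [Algebra ℚ R] [IsLocalRing R]

theorem UP_Phi (hp : Cone p)
    (hf : ∀ y ∈ maximalIdeal R, ∃ n : ℕ, y ^ n ∈ Ideal.span (Set.range (p3 p))) :
    UP R (Phi p) := by
  refine UP_of_local (ι := Fin 8) (E8 R × R) (p3 p) 2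
    (fun i => LinearMap.prod (brL (db (ix i)) ∘ₗ (Phi p).subtype)
      (kfL (db (ix i)) ∘ₗ (Phi p).subtype))
    (fun i => (bz p (db (ix i)) ∘ₗ LinearMap.fst R (E8 R) R -
      (kf p (db (ix i))) • ((LinearMap.toSpanSingleton R (E8 R) p) ∘ₗ
        LinearMap.snd R (E8 R) R)).codRestrict (Phi p) (fun z => ?_)) (fun i y => ?_) hf
  · rw [LinearMap.sub_apply, LinearMap.comp_apply, LinearMap.smul_apply, LinearMap.comp_apply,
      LinearMap.toSpanSingleton_apply]
    exact (Phi p).sub_mem (bz_mem hp _ _) ((Phi p).smul_mem _ ((Phi p).smul_mem _ (p_mem_Phi hp)))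
  · apply Subtype.ext
    have hpi : kf p (db (ix i)) = p3 p i := by rw [kf_symm, kf_db_apply]; rfl
    show bz p (db (ix i)) (br (db (ix i)) (y : E8 R)) -
      kf p (db (ix i)) • (kf (db (ix i)) (y : E8 R) • p) = ((p3 p i ^ 2 • y : Phi p) : E8 R)
    rw [Submodule.coe_smul, bz_br y.2, smul_smul, kf_symm (db (ix i)) (y : E8 R), add_sub_cancel_right, hpi]

theorem UP_VR (hp : Cone p)
    (hf : ∀ y ∈ maximalIdeal R, ∃ n : ℕ, y ^ n ∈ Ideal.span (Set.range (p3 p))) :
    UP R (VR p) := by
  let S : Submodule R (Phi p) := (Submodule.span R {p}).comap (Phi p).subtype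
  -- `y ↦ [w, f y - (y, w) p]`
  let a0 : Fin 8 → Phi p →ₗ[R] E8 R := fun i =>
    brL (db (ix i)) ∘ₗ (kf p (db (ix i)) • (Phi p).subtype -
      (LinearMap.toSpanSingleton R (E8 R) p) ∘ₗ kfL (db (ix i)) ∘ₗ (Phi p).subtype)
  have ha0 : ∀ i (y : Phi p), a0 i y = br (db (ix i)) (kf p (db (ix i)) • (y : E8 R) -
      kf (y : E8 R) (db (ix i)) • p) := by
    intro i y
    simp only [a0, LinearMap.comp_apply, LinearMap.sub_apply, LinearMap.smul_apply,
      Submodule.subtype_apply, LinearMap.toSpanSingleton_apply, brL_apply, kfL_apply]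
    rw [kf_symm (db (ix i)) (y : E8 R)]
  have hker : ∀ i, S ≤ LinearMap.ker (a0 i) := by
    intro i y hy
    rw [LinearMap.mem_ker, ha0]
    obtain ⟨c, hc⟩ := Submodule.mem_span_singleton.1 (show (y : E8 R) ∈ Submodule.span R {p} from hy)
    rw [← hc, kf_smul_left, smul_smul, mul_comm, sub_self, br_zero_right]
  refine UP_of_local (ι := Fin 8) (E8 R) (p3 p) 3 (fun i => S.liftQ (a0 i) (hker i))
    (fun i => S.mkQ ∘ₗ (bz p (db (ix i))).codRestrict (Phi p) (bz_mem hp _)) (fun i x => ?_) hf
  obtain ⟨y, rfl⟩ := S.mkQ_surjective x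
  have hpi : kf p (db (ix i)) = p3 p i := by rw [kf_symm, kf_db_apply]; rfl
  have hy' : kf p (db (ix i)) • (y : E8 R) - kf (y : E8 R) (db (ix i)) • p ∈ Phi p :=
    (Phi p).sub_mem ((Phi p).smul_mem _ y.2) ((Phi p).smul_mem _ (p_mem_Phi hp))
  have h1 : kf (kf p (db (ix i)) • (y : E8 R) - kf (y : E8 R) (db (ix i)) • p) (db (ix i)) = 0 := by
    rw [kf_sub_left, kf_smul_left, kf_smul_left]
    ring
  rw [Submodule.mkQ_apply, Submodule.liftQ_apply, LinearMap.comp_apply, ← Submodule.mkQ_apply,
    ← map_smul, ← sub_eq_zero, ← map_sub, Submodule.mkQ_apply, Submodule.Quotient.mk_eq_zero]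
  show ((bz p (db (ix i))).codRestrict (Phi p) (bz_mem hp _) (a0 i y) - p3 p i ^ 3 • y : Phi p).1 ∈
    Submodule.span R {p}
  rw [Submodule.coe_sub, LinearMap.codRestrict_apply, Submodule.coe_smul, ha0, bz_br hy', h1,
    mul_zero, zero_smul, add_zero, smul_sub, smul_smul, smul_smul, hpi]
  refine Submodule.mem_span_singleton.2 ⟨-(p3 p i ^ 2 * kf (y : E8 R) (db (ix i))), ?_⟩
  module

end Pool.Agent.Licci.XE

end
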