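import Pool.Agent.Work.MP_a98e4e_ag.Fu.L.Jac
import Pool.Agent.Work.MP_a98e4e_ag.Fu.E.TrTab2
import Pool.Agent.Work.MP_a98e4e_ag.Fu.E.TrTab3
import Pool.Agent.Work.MP_a98e4e_ag.Fu.L.Grad

section

/-! LICCI, codimension 6: kernel checks of `E/TrDef.lean`, charts 0..3 -/

set_option linter.unusedSectionVars false

namespace Pool.Agent.Licci

set_option maxRecDepth 100000

theorem tch_0 : tch 0 = true := tch_of (by decide +kernel) (by decide +kernel)

theorem tch_1 : tch 1 = true := tch_of (by decide +kernel) (by decide +kernel)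

theorem tch_2 : tch 2 = true := tch_of (by decide +kernel) (by decide +kernel)

theorem tch_3 : tch 3 = true := tch_of (by decide +kernel) (by decide +kernel)

end Pool.Agent.Licci

end

section

/-!
# LICCI, codimension 6: the pair `e_q`, `- e_(-q)` and the trace formula on its `56`
-/

set_option linter.unusedSectionVars false

namespace Pool.Agent.Licci

open scoped BigOperators

variable {A : Type*} [CommRing A]

/-- a sparse vector as an element of `E8 A` -/
def tev (L : List (ℕ × ℤ)) : E8 A := fun k => (cf L k : A)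

theorem t_br_eb_eb (i j : Fin 248) : br (eb i : E8 A) (eb j) = tev (sp i j) := by
  funext k
  rw [br_eb_eb]
  rfl

theorem t_br_eb_ev (i : Fin 248) {L : List (ℕ × ℤ)} (hL : ∀ p ∈ L, p.1 < 248) :
    br (eb i : E8 A) (tev L) = tev (lm i L) := by
  funext k
  have h1 : br (eb i : E8 A) (tev L) k = ∑ j : Fin 248, (sc i j k : A) * (cf L j : A) := by
    rw [br_apply, Finset.sum_eq_single i]
    · refine Finset.sum_congr rfl fun j _ => ?_
      rw [eb_apply, if_pos rfl, one_mul, tev]
    · intro b _ hb
      refine Finset.sum_eq_zero fun j _ => ?_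
      rw [eb_apply, if_neg hb, zero_mul, mul_zero]
    · intro h
      exact absurd (Finset.mem_univ i) h
  have h2 := sum_cf L hL (fun m => scN i m k)
  rw [h1, tev, cf_lm, ← h2]
  push_cast
  refine Finset.sum_congr rfl fun j _ => ?_
  rw [mul_comm]
  rfl

/-- `[e_i, [e_j, e_k]]` -/
theorem t_br_eb3 (i j k : Fin 248) : br (eb i : E8 A) (br (eb j) (eb k)) = tev (lm i (sp j k)) := by
  rw [t_br_eb_eb, t_br_eb_ev i (fun p hp => sp_rng j.2 k.2 hp)]

theorem t_br_sum_right (x y : E8 A) : br x y = ∑ j, y j • br x (eb j) := by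
  conv_lhs => rw [E8.eq_sum y]
  rw [br_sum_right]
  simp_rw [br_smul_right]

theorem t_br_sum_left (x y : E8 A) : br x y = ∑ j, x j • br (eb j) y := by
  conv_lhs => rw [E8.eq_sum x]
  rw [br_sum_left]
  simp_rw [br_smul_left]

theorem t_kf_eb (i : Fin 248) (y : E8 A) : kf (eb i) y = ∑ j, (kc i j : A) * y j := by
  rw [kf, Finset.sum_eq_single i]
  · refine Finset.sum_congr rfl fun j _ => ?_
    rw [eb_apply, if_pos rfl, one_mul]
  · intro b _ hb
    refine Finset.sum_eq_zero fun j _ => ?_
    rw [eb_apply, if_neg hb, zero_mul, mul_zero]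
  · intro h
    exact absurd (Finset.mem_univ i) h

theorem t_ix_val {k : ℕ} (h : k < 248) : ((ix k : Fin 248) : ℕ) = k := by
  simp [ix, Nat.mod_eq_of_lt h]

theorem t_cck_spec {g o j : ℕ} (h : cck g o j = true) (l : ℕ) :
    cf (lm g (sp g j)) l = - (if g = l then 2 * kcN g j else 0) := by
  unfold cck at h
  cases h1 : Nat.beq j o with
  | true =>
    rw [h1, cond_true] at h
    have h2 := zr_spec h l
    rw [cf_append, cf_cons, cf_nil, add_zero] at h2
    exact eq_neg_of_add_eq_zero_left h2
  | false =>
    rw [h1, cond_false, Bool.and_eq_true, List.isEmpty_iff, isz_iff] at h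
    rw [h.1, h.2, cf_nil, mul_zero, ite_self, neg_zero]

theorem t_cone_of (g : Fin 248) (o : ℕ) (h : ∀ j < 248, cck g o j = true) :
    Cone (eb g : E8 A) := by
  intro y
  rw [t_br_sum_right (eb g) y, br_sum_right]
  simp_rw [br_smul_right, t_br_eb3]
  funext l
  rw [Finset.sum_apply]
  have h1 : ∀ j : Fin 248, (y j • (tev (lm g (sp g j)) : E8 A)) l =
      - (2 * ((kc g j : A) * y j)) * (eb g : E8 A) l := by
    intro j
    rw [Pi.smul_apply, smul_eq_mul, tev, t_cck_spec (h j j.2) l, eb_apply]
    by_cases hl : l = g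
    · rw [if_pos hl, if_pos (by rw [hl]), kc]
      push_cast
      ring
    · rw [if_neg hl, if_neg (fun h' => hl (Fin.ext h'.symm))]
      simp
  rw [Finset.sum_congr rfl fun j _ => h1 j, Pi.smul_apply, smul_eq_mul, t_kf_eb,
    ← Finset.sum_mul, Finset.sum_neg_distrib, ← Finset.mul_sum]

theorem t_cck_q (q : Fin 8) {j : ℕ} (hj : j < 248) :
    cck q (232 + q) j = true ∧ cck (232 + q) q j = true := by
  have h := all_range (all_range cck_all q.2) hj
  simpa only [Bool.and_eq_true] using h

/-- root vectors of degree `3` are extremal -/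
theorem cone_eb (q : Fin 8) : Cone (eb (ix q) : E8 A) := by
  have hq := q.2
  refine t_cone_of (ix q) (232 + q) fun j hj => ?_
  rw [t_ix_val (by omega)]
  exact (t_cck_q q hj).1

theorem t_kf_neg (x y : E8 A) : kf (-x) y = - kf x y := by
  simp only [kf, Pi.neg_apply, neg_mul, mul_neg, Finset.sum_neg_distrib]

theorem t_cone_neg {p : E8 A} (h : Cone p) : Cone (-p) := by
  intro y
  rw [br_neg_left, br_neg_left, br_neg_right, neg_neg, h y, t_kf_neg]
  simp

theorem cone_wq (q : Fin 8) : Cone (wq q : E8 A) := by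
  have hq := q.2
  refine t_cone_neg (t_cone_of (ix (232 + q)) q fun j hj => ?_)
  rw [t_ix_val (by omega)]
  exact (t_cck_q q hj).2

theorem t_cd_opp : ∀ q : Fin 8, cd q + cd (232 + q) = 1145324612 := by decide +kernel

theorem pair_eb (q : Fin 8) : Pair (eb (ix q) : E8 A) (wq q) where
  cp := cone_eb q
  cw := cone_wq q
  one := by
    have hq := q.2
    rw [t_kf_eb, Finset.sum_eq_single (ix (232 + q))]
    · have h1 : kc (ix q) (ix (232 + q)) = -1 := by
        rw [kc, t_ix_val (by omega), t_ix_val (by omega), kcN]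
        have h2 : Nat.blt (q : ℕ) 240 = true := blt_true (by omega)
        have h3 : Nat.blt (232 + (q : ℕ)) 240 = true := blt_true (by omega)
        have h4 : Nat.beq (Nat.add (cd q) (cd (232 + q))) 1145324612 = true := by
          rw [show Nat.add (cd q) (cd (232 + q)) = 1145324612 from t_cd_opp q]
          rfl
        rw [h2, h3, h4, cond_true, cond_true, cond_true]
      rw [h1, wq, Pi.neg_apply, eb_apply, if_pos rfl]
      simp
    · intro j _ hj
      rw [wq, Pi.neg_apply, eb_apply, if_neg hj, neg_zero, mul_zero]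
    · intro h
      exact absurd (Finset.mem_univ _) h

/-- the semisimple element of the chart `q` -/
def hq (q : Fin 8) : E8 A := br (eb (ix q)) (wq q)

theorem t_hq_eq (q : Fin 8) : (hq q : E8 A) = - tev (sp q (232 + q)) := by
  have hq := q.2
  rw [Licci.hq, wq, br_neg_right, t_br_eb_eb, t_ix_val (by omega), t_ix_val (by omega)]

theorem t_lck (q : Fin 8) {p : ℕ × ℤ} (hp : p ∈ sp q (232 + q)) : 240 ≤ p.1 ∧ p.1 < 248 := by
  have h := all_range lck_all q.2
  rw [List.all_eq_true] at h
  have h1 := h p hp
  rw [Bool.and_eq_true, Nat.ble_eq, Nat.blt_eq] at h1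
  exact h1

theorem t_foldr_sum {α : Type*} (f : α → ℤ) (L : List α) :
    L.foldr (fun p s => f p + s) 0 = (L.map f).sum := by
  induction L with
  | nil => rfl
  | cons a L ih => rw [List.foldr_cons, ih, List.map_cons, List.sum_cons]

theorem t_wtN_cartan {m : ℕ} (h1 : 240 ≤ m) (h2 : m < 248) (q : Fin 8) : wtN m q = 0 := by
  have h : dg m q = Nat.mod (Nat.shiftRight off (Nat.mul 4 q)) 16 := by
    unfold dg
    rw [cd_cartan h1 h2]
  rw [wtN, h]
  clear h
  revert q
  decide

/-- `h` acts by the weight `b_q` -/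
theorem br_hq (q : Fin 8) (y : E8 A) (m : Fin 248) : br (hq q) y m = (wtg q m : A) * y m := by
  rw [br_apply, Finset.sum_comm]
  have h1 : ∀ j : Fin 248, ∑ i : Fin 248, (sc i j m : A) * ((hq q : E8 A) i * y j) =
      ((-((sp q (232 + q)).map (fun p => p.2 * scN p.1 j m)).sum : ℤ) : A) * y j := by
    intro j
    have h2 := sum_cf (sp q (232 + q)) (fun p hp => (t_lck q hp).2) (fun i => scN i j m)
    rw [← h2, t_hq_eq]
    push_cast
    rw [neg_mul, Finset.sum_mul, ← Finset.sum_neg_distrib]
    refine Finset.sum_congr rfl fun i _ => ?_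
    rw [Pi.neg_apply, tev, sc]
    ring
  rw [Finset.sum_congr rfl fun j _ => h1 j]
  have h3 : ∀ j : Fin 248, ((sp q (232 + q)).map (fun p => p.2 * scN p.1 j m)).sum =
      if (j : ℕ) < 240 ∧ j = m then ((sp q (232 + q)).map
        (fun p => p.2 * prN m (p.1 - 240))).sum else 0 := by
    intro j
    have h4 : ∀ p ∈ sp q (232 + q), p.2 * scN p.1 j m =
        if (j : ℕ) < 240 ∧ j = m then p.2 * prN m (p.1 - 240) else 0 := by
      intro p hp
      obtain ⟨l1, l2⟩ := t_lck q hp
      have h5 := gr_sc (i := ⟨p.1, l2⟩) (j := j) (k := m) l1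
      simp only [sc] at h5
      rw [h5]
      split_ifs
      · rfl
      · rw [mul_zero]
    rw [List.map_congr_left h4]
    split_ifs with h6
    · rfl
    · exact List.sum_eq_zero (by simp)
  simp_rw [h3]
  by_cases hm : (m : ℕ) < 240
  · rw [Finset.sum_eq_single m]
    · rw [if_pos ⟨hm, rfl⟩]
      have h := all_range (all_range hck_all q.2) hm
      rw [hck, isz_iff, t_foldr_sum (fun p : ℕ × ℤ => p.2 * prN m (p.1 - 240))] at h
      rw [show -((sp q (232 + q)).map (fun p => p.2 * prN m (p.1 - 240))).sum = wtN m q by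
        linarith]
      rfl
    · intro j _ hj
      rw [if_neg (fun h => hj h.2), neg_zero, Int.cast_zero, zero_mul]
    · intro h
      exact absurd (Finset.mem_univ m) h
  · have hz : wtg q m = 0 := t_wtN_cartan (by omega) m.2 q
    rw [hz, Int.cast_zero, zero_mul]
    refine Finset.sum_eq_zero fun j _ => ?_
    rw [if_neg, neg_zero, Int.cast_zero, zero_mul]
    rintro ⟨a1, a2⟩
    rw [a2] at a1
    exact hm a1

/-! ### the trace formula on basis vectors -/

theorem t_gcmp_spec (p : ℕ → Bool) : ∀ (n : ℕ) (L : List ℕ), gcmp p n L = true →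
    L.reverse = (List.range n).filter p
  | 0, L, h => by
    cases L with
    | nil => rfl
    | cons a L => simp [gcmp] at h
  | n + 1, L, h => by
    rw [List.range_succ, List.filter_append]
    cases L with
    | nil =>
      rw [gcmp] at h
      cases hp : p n with
      | true => rw [hp, cond_true] at h; exact absurd h (by simp)
      | false =>
        rw [hp, cond_false] at h
        have := t_gcmp_spec p n [] h
        rw [← this]
        simp [hp]
    | cons a L =>
      rw [gcmp] at h
      cases hp : p n with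
      | true =>
        rw [hp, cond_true] at h
        cases ha : Nat.beq a n with
        | true =>
          rw [ha, cond_true] at h
          have := t_gcmp_spec p n L h
          rw [← this, List.reverse_cons]
          have e : a = n := by simpa using ha
          simp [hp, e]
        | false => rw [ha, cond_false] at h; exact absurd h (by simp)
      | false =>
        rw [hp, cond_false] at h
        have := t_gcmp_spec p n (a :: L) h
        rw [← this]
        simp [hp]

theorem t_sum_filter (p : ℕ → Bool) (F : ℕ → ℤ) (N : ℕ) :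
    (((List.range N).filter p).map F).sum = ∑ n ∈ Finset.range N, if p n = true then F n else 0 := by
  induction N with
  | zero => simp
  | succ N ih =>
    rw [List.range_succ, List.filter_append, List.map_append, List.sum_append, ih,
      Finset.sum_range_succ]
    congr 1
    by_cases h : p N = true <;> simp [h]

theorem t_sum_g1 (q : Fin 8) (F : ℕ → ℤ) :
    ((g1 q).map F).sum = ∑ k : Fin 248 with wtg q k = 1, F k := by
  have h := t_gcmp_spec _ _ _ (all_range gcmp_chk q.2)
  rw [List.reverse_reverse] at h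
  rw [h, t_sum_filter, Finset.sum_filter,
    ← Fin.sum_univ_eq_sum_range (fun n => if Nat.beq (dg n q) 3 = true then F n else 0) 248]
  refine Finset.sum_congr rfl fun k _ => ?_
  have : Nat.beq (dg k q) 3 = true ↔ wtg q k = 1 := by
    rw [Nat.beq_eq, wtg, wtN]
    omega
  simp only [this]

theorem t_tLN_eq (L : List ℕ) (m n : ℕ) :
    tLN L m n = (L.map (fun k => cf (lm m (sp n k)) k)).sum :=
  t_foldr_sum (fun k => cf (lm m (sp n k)) k) L

theorem t_cf_lm_sp {m n k l : ℕ} (hm : m < 248) (hn : n < 248) (hk : k < 248)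
    (h : cf (lm m (sp n k)) l ≠ 0) : cd m + cd n + cd k = cd l + off + off := by
  rw [cf_lm] at h
  by_contra hc
  apply h
  refine List.sum_eq_zero fun x hx => ?_
  rw [List.mem_map] at hx
  obtain ⟨p, hp, rfl⟩ := hx
  obtain ⟨h1, h2⟩ := sp_mem hn hk hp
  by_cases h3 : scN m p.1 l = 0
  · rw [h3, mul_zero]
  · exfalso
    have h4 := scN_wt hm h1 h3
    omega

theorem t_hcN_eq (q : Fin 8) (m : ℕ) :
    hcN q m = - ((sp q (232 + q)).map (fun p => p.2 * kcN m p.1)).sum := by
  rw [hcN, t_foldr_sum (fun p : ℕ × ℤ => p.2 * kcN m p.1)]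

theorem t_kcN_mixed {m j : ℕ} (h1 : m < 240) (h2 : 240 ≤ j) : kcN m j = 0 := by
  rw [kcN, blt_true h1, blt_false h2, cond_true, cond_false]

theorem t_hcN_root (q : Fin 8) {m : ℕ} (hm : m < 240) : hcN q m = 0 := by
  rw [t_hcN_eq, neg_eq_zero]
  refine List.sum_eq_zero fun x hx => ?_
  rw [List.mem_map] at hx
  obtain ⟨p, hp, rfl⟩ := hx
  rw [t_kcN_mixed hm (t_lck q hp).1, mul_zero]

theorem t_tch_all (q : Fin 8) : tch q = true := by
  fin_cases q
  · exact tch_0
  · exact tch_1
  · exact tch_2
  · exact tch_3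
  · exact tch_4
  · exact tch_5
  · exact tch_6
  · exact tch_7

theorem t_cd_root_ne {m : ℕ} (hm : m < 240) : cd m ≠ off := by
  intro h
  have h1 := fnd_cd hm
  rw [h, t_fnd_off] at h1
  omega

/-- the trace formula for basis vectors -/
theorem t_pair_table (q : Fin 8) (m n : Fin 248) (hm : wtg q m = 0) :
    tLN (g1 q) m n = 12 * kcN m n + 8 * (hcN q m * hcN q n) := by
  by_cases hw : cd m + cd n = off + off
  · have ht := t_tch_all q
    rw [tch, Bool.and_eq_true] at ht
    have key : ∀ {m n : ℕ}, tc (g1 q) q m n = true →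
        tLN (g1 q) m n = 12 * kcN m n + 8 * (hcN q m * hcN q n) := by
      intro m n h
      rw [tc, isz_iff] at h
      linarith
    rcases lt_or_ge (m : ℕ) 240 with h1 | h1
    · have h2 : (n : ℕ) < 240 := by
        by_contra hc
        rw [cd_cartan (by omega) n.2] at hw
        exact t_cd_root_ne h1 (by omega)
      have h3 := all_range ht.1 h1
      have h4 : Nat.beq (dg m q) 2 = true := by
        rw [Nat.beq_eq]
        rw [wtg, wtN] at hm
        omega
      have h5 : opN m = n := by
        have h6 : Nat.sub 1717986918 (cd m) = cd n + off := by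
          rw [off3]
          show off + off + off - cd m = cd n + off
          omega
        rw [opN, h6, fnd_cd h2]
      rw [h4, cond_true, h5] at h3
      exact key h3
    · have h2 : 240 ≤ (n : ℕ) := by
        by_contra hc
        rw [cd_cartan h1 m.2] at hw
        exact t_cd_root_ne (show (n : ℕ) < 240 by omega) (by omega)
      have h3 := all_range (all_range ht.2 (show (m : ℕ) - 240 < 8 by omega))
        (show (n : ℕ) - 240 < 8 by omega)
      rw [show 240 + ((m : ℕ) - 240) = m by omega, show 240 + ((n : ℕ) - 240) = n by omega] at h3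
      exact key h3
  · have e1 : tLN (g1 q) m n = 0 := by
      rw [t_tLN_eq]
      refine List.sum_eq_zero fun x hx => ?_
      rw [List.mem_map] at hx
      obtain ⟨k, hk, rfl⟩ := hx
      have hk2 : k < 248 := by
        have h := t_gcmp_spec _ _ _ (all_range gcmp_chk q.2)
        rw [List.reverse_reverse] at h
        rw [h] at hk
        exact List.mem_range.1 (List.mem_filter.1 hk).1
      by_contra hc
      have := t_cf_lm_sp m.2 n.2 hk2 hc
      omega
    have e2 : kcN m n = 0 := by
      rcases lt_or_ge (m : ℕ) 240 with h1 | h1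
      · rcases lt_or_ge (n : ℕ) 240 with h2 | h2
        · rw [kcN, blt_true h1, blt_true h2, cond_true, cond_true]
          have : Nat.beq (Nat.add (cd m) (cd n)) 1145324612 = false := by
            rw [Bool.eq_false_iff]
            intro h
            rw [Nat.beq_eq, off2] at h
            exact hw h
          rw [this, cond_false]
        · exact t_kcN_mixed h1 h2
      · rcases lt_or_ge (n : ℕ) 240 with h2 | h2
        · rw [kcN, blt_false h1, blt_true h2, cond_false, cond_true]
        · exfalso
          rw [cd_cartan h1 m.2, cd_cartan h2 n.2] at hw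
          exact hw rfl
    have e3 : hcN q m * hcN q n = 0 := by
      rcases lt_or_ge (m : ℕ) 240 with h1 | h1
      · rw [t_hcN_root q h1, zero_mul]
      · rcases lt_or_ge (n : ℕ) 240 with h2 | h2
        · rw [t_hcN_root q h2, mul_zero]
        · exfalso
          rw [cd_cartan h1 m.2, cd_cartan h2 n.2] at hw
          exact hw rfl
    rw [e1, e2, e3]
    norm_num

theorem t_kf_hq (q : Fin 8) (a : E8 A) : kf a (hq q) = ∑ m : Fin 248, (hcN q m : A) * a m := by
  rw [kf]
  refine Finset.sum_congr rfl fun m _ => ?_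
  have h2 := sum_cf (sp q (232 + q)) (fun p hp => (t_lck q hp).2) (fun j => kcN m j)
  rw [t_hcN_eq, ← h2, t_hq_eq]
  push_cast
  rw [neg_mul, Finset.sum_mul, ← Finset.sum_neg_distrib]
  refine Finset.sum_congr rfl fun j _ => ?_
  rw [Pi.neg_apply, tev, kc]
  ring

theorem t_br_br_eb (a b : E8 A) (k : Fin 248) : br a (br b (eb k)) k =
    ∑ m : Fin 248, ∑ n : Fin 248, a m * b n * ((cf (lm m (sp n k)) k : ℤ) : A) := by
  rw [t_br_sum_left a, Finset.sum_apply]
  refine Finset.sum_congr rfl fun m _ => ?_
  rw [Pi.smul_apply, t_br_sum_left b, br_sum_right, Finset.sum_apply, smul_eq_mul, Finset.mul_sum]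
  refine Finset.sum_congr rfl fun n _ => ?_
  rw [br_smul_right, Pi.smul_apply, t_br_eb3, tev, smul_eq_mul, mul_assoc]

/-- the trace formula in the chart `q` -/
theorem tr0 (q : Fin 8) (a b : E8 A) (ha : ∀ m, wtg q m ≠ 0 → a m = 0)
    (hb : ∀ m, wtg q m ≠ 0 → b m = 0) : (∑ k with wtg q k = 1, br a (br b (eb k)) k) =
      12 * kf a b + 8 * (kf a (hq q) * kf b (hq q)) := by
  have h1 : (∑ k with wtg q k = 1, br a (br b (eb k)) k) =
      ∑ m : Fin 248, ∑ n : Fin 248, a m * b n * ((tLN (g1 q) m n : ℤ) : A) := by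
    simp_rw [t_br_br_eb]
    rw [Finset.sum_comm]
    refine Finset.sum_congr rfl fun m _ => ?_
    rw [Finset.sum_comm]
    refine Finset.sum_congr rfl fun n _ => ?_
    rw [← Finset.mul_sum, t_tLN_eq, t_sum_g1 q (fun k => cf (lm m (sp n k)) k)]
    push_cast
    rfl
  have h2 : 12 * kf a b + 8 * (kf a (hq q) * kf b (hq q)) =
      ∑ m : Fin 248, ∑ n : Fin 248, a m * b n *
        ((12 * kcN m n + 8 * (hcN q m * hcN q n) : ℤ) : A) := by
    rw [t_kf_hq, t_kf_hq, Finset.sum_mul_sum, kf, Finset.mul_sum, Finset.mul_sum,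
      ← Finset.sum_add_distrib]
    refine Finset.sum_congr rfl fun m _ => ?_
    rw [Finset.mul_sum, Finset.mul_sum, ← Finset.sum_add_distrib]
    refine Finset.sum_congr rfl fun n _ => ?_
    rw [kc]
    push_cast
    ring
  rw [h1, h2]
  refine Finset.sum_congr rfl fun m _ => Finset.sum_congr rfl fun n _ => ?_
  by_cases hm : wtg q m = 0
  · by_cases hn : wtg q n = 0
    · rw [t_pair_table q m n hm]
    · rw [hb n hn, mul_zero, zero_mul, zero_mul]
  · rw [ha m hm, zero_mul, zero_mul, zero_mul]

end Pool.Agent.Licci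

end
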