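import Pool.Agent.Work.MP_a98e4e_ag.Fu.E.KForm
import Pool.Agent.Work.MP_a98e4e_ag.Fu.Core.KFacts
import Pool.Agent.Work.MP_a98e4e_ag.Fu.E.TrTab1
import Pool.Agent.Work.MP_a98e4e_ag.Fu.E.Trace
import Pool.Agent.Work.MP_a98e4e_ag.Fu.E.Dim
import Pool.Agent.Work.MP_a98e4e_ag.Fu.Cx.Cone

section

/-!
# The facts on `e_8` used in the core: the filtration of an extremal element

`R` a domain of characteristic zero, `p` an extremal element of `e_8 (R)`. The proofs pass to the
fraction field, where `Core/KFacts` applies.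
-/

set_option autoImplicit false
set_option linter.unusedSectionVars false
set_option linter.unusedVariables false

namespace LicciCore

open Pool.Agent.Licci Matrix

section ring

variable {R : Type*} [CommRing R]

/-- the line of `p` is saturated -/
def Sat (p : E8 R) : Prop := ∀ c : R, c ≠ 0 → ∀ (y : E8 R) (r : R), c • y = r • p →
  ∃ r' : R, y = r' • p

/-- the matrix of the invariant form -/
def kM (R : Type*) [CommRing R] : Matrix (Fin 248) (Fin 248) R := Matrix.of fun i j => (kc i j : R)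

theorem kf_eq (x y : E8 R) : kf x y = x ⬝ᵥ (kM R *ᵥ y) := by
  rw [kf_def, dotProduct]
  refine Finset.sum_congr rfl fun i _ => ?_
  rw [mulVec, dotProduct, Finset.mul_sum]
  refine Finset.sum_congr rfl fun j _ => ?_
  rw [kM, Matrix.of_apply]
  ring

theorem kf_comm (x y : E8 R) : kf x y = kf y x := kf_symm x y

theorem kM_symm : (kM R)ᵀ = kM R := by
  ext i j
  have h := kf_symm (eb i : E8 R) (eb j)
  rw [kf_eb_eb, kf_eb_eb] at h
  rw [transpose_apply, kM, Matrix.of_apply, Matrix.of_apply, h]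

/-- the form is unimodular -/
theorem exists_kM_inv : ∃ kI : Matrix (Fin 248) (Fin 248) R, kM R * kI = 1 ∧ kI * kM R = 1 := by
  have h1 : (Matrix.of fun i j => (db i : E8 R) j) * kM R = 1 := by
    ext i j
    have h := kf_db (A := R) i j
    rw [kf_eq] at h
    rw [Matrix.mul_apply, Matrix.one_apply, ← h, dotProduct]
    refine Finset.sum_congr rfl fun m _ => ?_
    rw [Matrix.of_apply, mulVec, dotProduct]
    simp [eb_apply]
  exact ⟨_, mul_eq_one_comm.1 h1, h1⟩

theorem kf_inv (x y z : E8 R) : kf (br x y) z = kf x (br y z) := Pool.Agent.Licci.kf_inv x y z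

theorem F0_add {p x y : E8 R} (hx : x ∈ F0 p) (hy : y ∈ F0 p) : x + y ∈ F0 p := by
  intro i j
  rw [br_add_left, Pi.add_apply, Pi.add_apply, add_mul, add_mul, hx i j, hy i j]

theorem F0_smul {p x : E8 R} (c : R) (hx : x ∈ F0 p) : c • x ∈ F0 p := by
  intro i j
  rw [br_smul_left, Pi.smul_apply, Pi.smul_apply, smul_eq_mul, smul_eq_mul, mul_assoc, mul_assoc,
    hx i j]

theorem F0_of_smul [IsDomain R] {p x : E8 R} {c : R} (hc : c ≠ 0) (hx : c • x ∈ F0 p) :
    x ∈ F0 p := by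
  intro i j
  have h := hx i j
  rw [br_smul_left, Pi.smul_apply, Pi.smul_apply, smul_eq_mul, smul_eq_mul, mul_assoc,
    mul_assoc] at h
  exact mul_left_cancel₀ hc h

theorem F1_add {p x y : E8 R} (hx : x ∈ F1 p) (hy : y ∈ F1 p) : x + y ∈ F1 p := by
  intro w hw
  rw [kf_add_left, hx w hw, hy w hw, add_zero]

theorem F1_smul {p x : E8 R} (c : R) (hx : x ∈ F1 p) : c • x ∈ F1 p := by
  intro w hw
  rw [kf_smul_left, hx w hw, mul_zero]

theorem F1_of_smul [IsDomain R] {p x : E8 R} {c : R} (hc : c ≠ 0) (hx : c • x ∈ F1 p) :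
    x ∈ F1 p := by
  intro w hw
  have h := hx w hw
  rw [kf_smul_left] at h
  exact (mul_eq_zero.1 h).resolve_left hc

theorem F1_zero {p : E8 R} : (0 : E8 R) ∈ F1 p := fun w _ => kf_zero_left w

theorem mem_F0_of_eigen {p w : E8 R} {χ : R} (h : br w p = χ • p) : w ∈ F0 p := by
  intro i j
  rw [h, Pi.smul_apply, Pi.smul_apply, smul_eq_mul, smul_eq_mul]
  ring

theorem F0_eigen {p : E8 R} (hs : Sat p) (hp0 : p ≠ 0) {w : E8 R} (hw : w ∈ F0 p) :
    ∃ χ : R, br w p = χ • p := by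
  obtain ⟨j, hj⟩ : ∃ j, p j ≠ 0 := by
    by_contra h
    push Not at h
    exact hp0 (funext h)
  refine hs (p j) hj _ (br w p j) ?_
  funext i
  rw [Pi.smul_apply, Pi.smul_apply, smul_eq_mul, smul_eq_mul, mul_comm, hw i j]

end ring

section field

variable (K : Type*) [Field K] [CharZero K]

/-- `e_8` over a field of characteristic zero as a bracket with form -/
def LK : KF.LieForm K (E8 K) where
  b := brL
  k := kfL
  skew x y := br_skew x y
  jac x y z := jacobi x y z
  symm x y := kf_symm x y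
  inv x y z := Pool.Agent.Licci.kf_inv x y z
  nd x h := kf_ext' fun z => by
    have h1 : kf x z = 0 := h z
    rw [h1, kf_zero_left]
  two x h := (smul_eq_zero.1 h).resolve_left two_ne_zero

variable {K}

theorem LK_b (x y : E8 K) : (LK K).b x y = br x y := rfl

theorem LK_k (x y : E8 K) : (LK K).k x y = kf x y := rfl

theorem exists_kf_ne {p : E8 K} (hp0 : p ≠ 0) : ∃ w : E8 K, kf p w ≠ 0 := by
  by_contra h
  push Not at h
  exact hp0 (kf_ext' fun z => by rw [h, kf_zero_left])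

/-- pointed data over a field -/
theorem pt_field {p w : E8 K} (hc : Cone p) (hw : kf p w ≠ 0) : KF.Pt (LK K) p w where
  cone := hc
  reg y h := (smul_eq_zero.1 h).resolve_left hw
  regA c h := (mul_eq_zero.1 h).resolve_left hw
  sat y r h := by
    refine ⟨(kf p w)⁻¹ * r, ?_⟩
    have h1 : (kf p w) • y = r • p := h
    rw [mul_smul, ← h1, smul_smul, inv_mul_cancel₀ hw, one_smul]

theorem mem_F0_field {p z : E8 K} (hp0 : p ≠ 0) : z ∈ (LK K).F0 p ↔ z ∈ F0 p := by
  constructor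
  · rintro ⟨c, hc⟩
    exact mem_F0_of_eigen hc
  · intro h
    refine F0_eigen (fun c hc y r hy => ⟨c⁻¹ * r, ?_⟩) hp0 h
    rw [mul_smul, ← hy, smul_smul, inv_mul_cancel₀ hc, one_smul]

theorem mem_F1_field {p x : E8 K} (hp0 : p ≠ 0) : x ∈ (LK K).F1 p ↔ x ∈ F1 p := by
  constructor
  · intro h z hz
    exact h z ((mem_F0_field hp0).2 hz)
  · intro h z hz
    exact h z ((mem_F0_field hp0).1 hz)

end field

section domain

variable {R : Type*} [CommRing R] [IsDomain R]

/-- base change to the fraction field -/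
noncomputable abbrev fk (x : E8 R) : E8 (FractionRing R) := algebraMap R (FractionRing R) ∘ x

theorem fk_inj {x y : E8 R} (h : fk x = fk y) : x = y := by
  funext i
  exact IsFractionRing.injective R (FractionRing R) (congrFun h i)

theorem fk_br (x y : E8 R) : fk (br x y) = br (fk x) (fk y) := br_map _ x y

theorem fk_kf (x y : E8 R) : algebraMap R (FractionRing R) (kf x y) = kf (fk x) (fk y) :=
  kf_map _ x y

theorem fk_smul (c : R) (x : E8 R) : fk (c • x) = algebraMap R (FractionRing R) c • fk x := by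
  funext i
  simp

theorem fk_add (x y : E8 R) : fk (x + y) = fk x + fk y := by
  funext i
  simp

theorem fk_zero : fk (0 : E8 R) = 0 := by
  funext i
  simp

theorem fk_ne {p : E8 R} (hp0 : p ≠ 0) : fk p ≠ 0 := by
  intro h
  exact hp0 (fk_inj (h.trans fk_zero.symm))

theorem fk_cone {p : E8 R} (hc : Cone p) : Cone (fk p) := by
  intro y
  -- both sides are linear in `y`
  have h : (brL (fk p)).comp (brL (fk p)) = (-(2 : FractionRing R)) •
      (LinearMap.smulRight (kfL (fk p)) (fk p)) := by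
    refine E8.hom_ext fun i => ?_
    have h1 : (eb i : E8 (FractionRing R)) = fk (eb i : E8 R) := by
      funext j
      simp only [Function.comp_apply, eb_apply]
      split_ifs <;> simp
    have h2 := congrArg fk (hc (eb i))
    rw [fk_br, fk_br, fk_smul, map_neg, map_mul, fk_kf, map_ofNat] at h2
    rw [LinearMap.comp_apply, brL_apply, brL_apply, h1, h2]
    rw [LinearMap.smul_apply, LinearMap.smulRight_apply, kfL_apply, smul_smul, neg_mul]
  have h1 := LinearMap.congr_fun h y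
  rw [LinearMap.comp_apply, brL_apply, brL_apply, LinearMap.smul_apply,
    LinearMap.smulRight_apply, kfL_apply, smul_smul, neg_mul] at h1
  exact h1

theorem mem_F0_fk {p z : E8 R} : fk z ∈ F0 (fk p) ↔ z ∈ F0 p := by
  constructor
  · intro h i j
    have h1 := h i j
    rw [← fk_br] at h1
    simp only [Function.comp_apply, ← map_mul] at h1
    exact IsFractionRing.injective R (FractionRing R) h1
  · intro h i j
    rw [← fk_br]
    simp only [Function.comp_apply, ← map_mul]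
    rw [h i j]

/-- common denominators -/
theorem exists_den (z : E8 (FractionRing R)) : ∃ (c : R) (z' : E8 R), c ≠ 0 ∧
    algebraMap R (FractionRing R) c • z = fk z' := by
  obtain ⟨c, hc⟩ := IsLocalization.exist_integer_multiples_of_finite (nonZeroDivisors R) z
  choose z' hz' using hc
  refine ⟨c, z', nonZeroDivisors.ne_zero c.2, ?_⟩
  funext i
  change algebraMap R (FractionRing R) c * z i = algebraMap R (FractionRing R) (z' i)
  rw [hz' i, Algebra.smul_def]

theorem mem_F1_fk {p x : E8 R} : fk x ∈ F1 (fk p) ↔ x ∈ F1 p := by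
  constructor
  · intro h z hz
    have h1 := h _ (mem_F0_fk.2 hz)
    rw [← fk_kf] at h1
    exact IsFractionRing.injective R (FractionRing R) (h1.trans (map_zero _).symm)
  · intro h z hz
    obtain ⟨c, z', hc, hz'⟩ := exists_den z
    have h1 : fk z' ∈ F0 (fk p) := by
      rw [← hz']
      exact F0_smul _ hz
    have h2 := h _ (mem_F0_fk.1 h1)
    have h3 := congrArg (algebraMap R (FractionRing R)) h2
    rw [fk_kf, ← hz', kf_smul_right, map_zero] at h3
    refine (mul_eq_zero.1 h3).resolve_left ?_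
    intro h4
    exact hc (IsFractionRing.injective R (FractionRing R) (h4.trans (map_zero _).symm))

variable [CharZero R]

instance : CharZero (FractionRing R) :=
  charZero_of_injective_algebraMap (IsFractionRing.injective R (FractionRing R))

variable {p : E8 R}

theorem exists_pt (hc : Cone p) (hp0 : p ≠ 0) : ∃ w, KF.Pt (LK (FractionRing R)) (fk p) w := by
  obtain ⟨w, hw⟩ := exists_kf_ne (fk_ne hp0)
  exact ⟨w, pt_field (fk_cone hc) hw⟩

theorem F0K (hp0 : p ≠ 0) {z : E8 R} :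
    fk z ∈ (LK (FractionRing R)).F0 (fk p) ↔ z ∈ F0 p :=
  (mem_F0_field (fk_ne hp0)).trans mem_F0_fk

theorem F1K (hp0 : p ≠ 0) {z : E8 R} :
    fk z ∈ (LK (FractionRing R)).F1 (fk p) ↔ z ∈ F1 p :=
  (mem_F1_field (fk_ne hp0)).trans mem_F1_fk

theorem kfK {x y : E8 R} (h : kf (fk x) (fk y) = 0) : kf x y = 0 := by
  rw [← fk_kf] at h
  exact IsFractionRing.injective R (FractionRing R) (h.trans (map_zero _).symm)

theorem kfK' {x y : E8 R} (h : kf x y = 0) : kf (fk x) (fk y) = 0 := by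
  rw [← fk_kf, h, map_zero]

/-- a multiple of `p` over the fraction field is a multiple of `p` -/
theorem sat_fk (hs : Sat p) {y : E8 R} {c : FractionRing R} (h : fk y = c • fk p) :
    ∃ r : R, y = r • p := by
  obtain ⟨a, b, hb, rfl⟩ := IsFractionRing.div_surjective (A := R) c
  have hb0 : (b : R) ≠ 0 := nonZeroDivisors.ne_zero hb
  have hb1 : algebraMap R (FractionRing R) b ≠ 0 := by
    intro h4
    exact hb0 (IsFractionRing.injective R (FractionRing R) (h4.trans (map_zero _).symm))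
  refine hs b hb0 y a (fk_inj ?_)
  rw [fk_smul, fk_smul, h, smul_smul, mul_div_cancel₀ _ hb1]

theorem F0_perp (hc : Cone p) (hp0 : p ≠ 0) {w : E8 R} (hw : w ∈ F0 p) : kf p w = 0 := by
  obtain ⟨e, P⟩ := exists_pt hc hp0
  exact kfK (P.F0_le_Fm ((F0K hp0).2 hw))

theorem p_mem (hc : Cone p) : p ∈ F1 p := by
  by_cases hp0 : p = 0
  · rw [hp0]
    exact F1_zero
  obtain ⟨e, P⟩ := exists_pt hc hp0
  exact (F1K hp0).1 P.p_mem_F1

theorem F1_bot {x : E8 R} (hx : x ∈ F1 (0 : E8 R)) : x = 0 := by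
  refine kf_ext' fun z => ?_
  rw [kf_zero_left]
  refine hx z fun i j => ?_
  simp

theorem br_p_F1 (hc : Cone p) {x : E8 R} (hx : x ∈ F1 p) : br p x = 0 := by
  by_cases hp0 : p = 0
  · rw [hp0, br_zero_left]
  obtain ⟨e, P⟩ := exists_pt hc hp0
  refine fk_inj ?_
  rw [fk_br, fk_zero]
  exact P.p_F1 ((F1K hp0).2 hx)

theorem kf_p_F1 (hc : Cone p) {x : E8 R} (hx : x ∈ F1 p) : kf p x = 0 := by
  by_cases hp0 : p = 0
  · rw [hp0, kf_zero_left]
  obtain ⟨e, P⟩ := exists_pt hc hp0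
  exact kfK (P.F0_le_Fm (P.F1_le_F0 ((F1K hp0).2 hx)))

theorem F1_le_F0 (hc : Cone p) {x : E8 R} (hx : x ∈ F1 p) : x ∈ F0 p := by
  refine mem_F0_of_eigen (χ := 0) ?_
  rw [br_skew, br_p_F1 hc hx, neg_zero, zero_smul]

theorem kf_F1_F1 (hc : Cone p) {x y : E8 R} (hx : x ∈ F1 p) (hy : y ∈ F1 p) : kf x y = 0 :=
  hx _ (F1_le_F0 hc hy)

/-- over the fraction field, a linear condition on all elements of `F1` may be checked on the
elements with coefficients in `R` -/
theorem F1_clear {q : E8 (FractionRing R) → FractionRing R}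
    (hq : ∀ (c : FractionRing R) z, q (c • z) = c * q z)
    (h : ∀ x ∈ F1 p, q (fk x) = 0) : ∀ x ∈ F1 (fk p), q x = 0 := by
  intro x hx
  obtain ⟨c, x', hc, hx'⟩ := exists_den x
  have h1 : fk x' ∈ F1 (fk p) := by
    rw [← hx']
    exact F1_smul _ hx
  have h2 := h _ (mem_F1_fk.1 h1)
  rw [← hx', hq] at h2
  refine (mul_eq_zero.1 h2).resolve_left ?_
  intro h4
  exact hc (IsFractionRing.injective R (FractionRing R) (h4.trans (map_zero _).symm))

theorem F0_iff (hc : Cone p) (hp0 : p ≠ 0) {w : E8 R} : w ∈ F0 p ↔ ∀ x ∈ F1 p, kf w x = 0 := by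
  constructor
  · intro hw x hx
    rw [kf_symm]
    exact hx w hw
  · intro h
    obtain ⟨e, P⟩ := exists_pt hc hp0
    refine (F0K hp0).1 (P.mem_F0_of_orth fun x hx => ?_)
    exact F1_clear (p := p) (q := fun z => kf (fk w) z) (fun c z => kf_smul_right c _ z)
      (fun x hx => kfK' (h x hx)) x ((mem_F1_field (fk_ne hp0)).1 hx)

theorem br_F1_F1 (hc : Cone p) (hs : Sat p) (hp0 : p ≠ 0) {x y : E8 R} (hx : x ∈ F1 p)
    (hy : y ∈ F1 p) : ∃ c : R, br x y = c • p := by
  obtain ⟨e, P⟩ := exists_pt hc hp0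
  obtain ⟨c, h⟩ := P.F1_F1 ((F1K hp0).2 hx) ((F1K hp0).2 hy)
  exact sat_fk hs (c := c) (by rw [fk_br]; exact h)

theorem br_F0_F0 (hc : Cone p) (hp0 : p ≠ 0) {w x : E8 R} (hw : w ∈ F0 p) (hx : x ∈ F0 p) :
    br w x ∈ F0 p := by
  rw [← F0K hp0, fk_br]
  exact KF.LieForm.F0_mul ((F0K hp0).2 hw) ((F0K hp0).2 hx)

theorem br_F0_F1 (hc : Cone p) (hp0 : p ≠ 0) {w x : E8 R} (hw : w ∈ F0 p) (hx : x ∈ F1 p) :
    br w x ∈ F1 p := by
  rw [← F1K hp0, fk_br]
  exact KF.LieForm.F0_F1 ((F0K hp0).2 hw) ((F1K hp0).2 hx)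

theorem br_perp_F1 (hc : Cone p) (hp0 : p ≠ 0) {w x : E8 R} (hw : kf p w = 0) (hx : x ∈ F1 p) :
    br w x ∈ F0 p := by
  obtain ⟨e, P⟩ := exists_pt hc hp0
  rw [← F0K hp0, fk_br]
  exact P.Fm_F1 (kfK' hw) ((F1K hp0).2 hx)

/-- relation (1) -/
theorem br_perp_F1_p (hc : Cone p) (hp0 : p ≠ 0) {w x : E8 R} (hw : kf p w = 0)
    (hx : x ∈ F1 p) : br (br w x) p = (-(kf w x)) • p := by
  obtain ⟨e, P⟩ := exists_pt hc hp0
  refine fk_inj ?_
  rw [fk_br, fk_br, fk_smul, map_neg, fk_kf]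
  exact P.Fm_F1_p (kfK' hw) ((F1K hp0).2 hx)

theorem br_p_perp (hc : Cone p) (hp0 : p ≠ 0) {w : E8 R} (hw : kf p w = 0) : br p w ∈ F1 p := by
  obtain ⟨e, P⟩ := exists_pt hc hp0
  rw [← F1K hp0, fk_br]
  exact P.br_mem_F1 (kfK' hw)

theorem br_br_p (hc : Cone p) (hp0 : p ≠ 0) {w x : E8 R} (hw : kf p w = 0) (hx : x ∈ F1 p) :
    br (br p w) x = kf w x • p := by
  obtain ⟨e, P⟩ := exists_pt hc hp0
  refine fk_inj ?_
  rw [fk_br, fk_br, fk_smul, fk_kf]
  exact P.mix' ((F1K hp0).2 hx) (kfK' hw)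

theorem kf_p_br (hc : Cone p) {x : E8 R} (hx : x ∈ F1 p) (e : E8 R) : kf p (br e x) = 0 := by
  rw [kf_symm, kf_inv, br_skew x p, br_p_F1 hc hx, neg_zero, kf_zero_right]

/-- sharp form of `br_p_br` -/
theorem br_p_br_sharp (hc : Cone p) {x : E8 R} (hx : x ∈ F1 p) (e : E8 R) :
    br p (br e x) = kf p e • x + kf x e • p := by
  by_cases hp0 : p = 0
  · have hx0 : x = 0 := by
      rw [hp0] at hx
      exact F1_bot hx
    rw [hx0, hp0]
    simp
  obtain ⟨w, P⟩ := exists_pt hc hp0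
  refine fk_inj ?_
  rw [fk_br, fk_br, fk_add, fk_smul, fk_smul, fk_kf, fk_kf]
  exact P.lift_eq_sharp ((F1K hp0).2 hx) (fk e)

theorem br_p_br (hc : Cone p) (hs : Sat p) (hp0 : p ≠ 0) {x : E8 R} (hx : x ∈ F1 p) (e : E8 R) :
    ∃ c : R, br p (br e x) = kf p e • x + c • p := ⟨_, br_p_br_sharp hc hx e⟩

theorem br_e_br_p (hc : Cone p) (hp0 : p ≠ 0) {w : E8 R} (hw : kf p w = 0) (e : E8 R) :
    br e (br p w) - kf p e • w ∈ F0 p := by
  obtain ⟨e', P⟩ := exists_pt hc hp0
  obtain ⟨v, hv, h⟩ := P.lift_br' (fk e) (kfK' hw)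
  rw [← F0K hp0]
  have h1 : fk (br e (br p w) - kf p e • w) = v := by
    have h2 : fk (br e (br p w) - kf p e • w) = fk (br e (br p w)) - fk (kf p e • w) := by
      funext i
      simp
    rw [h2, fk_br, fk_br, fk_smul, fk_kf]
    have h3 : br (fk e) (br (fk p) (fk w)) = kf (fk p) (fk e) • fk w + v := h
    rw [h3, add_sub_cancel_left]
  rw [h1]
  exact hv

end domain

end LicciCore

end

section

/-!
# LICCI, codimension 6: a pair is conjugate to the standard pair of the chart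

If `Pair p (c • wq q)`, there is an automorphism of `e_8` fixing `c • wq q` which maps
`p (ix q) • eb (ix q)` to `p`.
-/

set_option linter.unusedSectionVars false

namespace Pool.Agent.Licci

open scoped BigOperators

/-- the extreme weights, and the form on the lowest vectors -/
def thk (q m : ℕ) : Bool :=
  (bif Nat.beq (dg m q) 4 then Nat.beq m q else true) &&
    (bif Nat.beq (dg m q) 0 then Nat.beq m (232 + q) else true) &&
      isz (kcN (232 + q) m + bif Nat.beq m q then 1 else 0)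

theorem thk_all : (List.range 8).all (fun q => (List.range 248).all (thk q)) = true := by
  decide +kernel

theorem thk_wt : (List.range 8).all (fun q => Nat.beq (dg q q) 4 &&
    Nat.beq (dg (232 + q) q) 0) = true := by
  decide +kernel

theorem thk_spec (q : Fin 8) (m : Fin 248) : (wtg q m = 2 → m = ix q) ∧
    (wtg q m = -2 → m = ix (232 + q)) ∧ kc (ix (232 + q)) m = if m = ix q then -1 else 0 := by
  have hq := q.2
  have h := all_range (all_range thk_all q.2) m.2
  rw [thk, Bool.and_eq_true, Bool.and_eq_true] at h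
  obtain ⟨⟨h1, h2⟩, h3⟩ := h
  refine ⟨fun hw => ?_, fun hw => ?_, ?_⟩
  · have h4 : Nat.beq (dg m q) 4 = true := by
      rw [Nat.beq_eq]
      rw [wtg, wtN] at hw
      omega
    rw [h4, cond_true, Nat.beq_eq] at h1
    exact Fin.ext (by rw [h1, t_ix_val (by omega)])
  · have h4 : Nat.beq (dg m q) 0 = true := by
      rw [Nat.beq_eq]
      rw [wtg, wtN] at hw
      omega
    rw [h4, cond_true, Nat.beq_eq] at h2
    exact Fin.ext (by rw [h2, t_ix_val (by omega)])
  · rw [isz_iff] at h3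
    rw [kc, t_ix_val (by omega)]
    by_cases hm : m = ix q
    · have h4 : Nat.beq m q = true := by
        rw [Nat.beq_eq, hm, t_ix_val (by omega)]
      rw [h4, cond_true] at h3
      rw [if_pos hm]
      omega
    · have h4 : Nat.beq m q = false := by
        rw [Bool.eq_false_iff]
        intro h5
        rw [Nat.beq_eq] at h5
        exact hm (Fin.ext (by rw [h5, t_ix_val (by omega)]))
      rw [h4, cond_false] at h3
      rw [if_neg hm]
      omega

theorem wtg_top (q : Fin 8) : wtg q (ix q) = 2 := by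
  have hq := q.2
  have h := all_range thk_wt q.2
  rw [Bool.and_eq_true, Nat.beq_eq, Nat.beq_eq] at h
  rw [wtg, wtN, t_ix_val (by omega), h.1]
  rfl

theorem wtg_bot (q : Fin 8) : wtg q (ix (232 + q)) = -2 := by
  have hq := q.2
  have h := all_range thk_wt q.2
  rw [Bool.and_eq_true, Nat.beq_eq, Nat.beq_eq] at h
  rw [wtg, wtN, t_ix_val (by omega), h.2]
  rfl

section

variable {A : Type*} [CommRing A]

/-- pairing with the lowest vector -/
theorem kf_wq (q : Fin 8) (y : E8 A) : kf (wq q) y = y (ix q) := by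
  rw [wq, kf_neg_left, t_kf_eb, Finset.sum_eq_single (ix q)]
  · rw [(thk_spec q (ix q)).2.2, if_pos rfl]
    simp
  · intro j _ hj
    rw [(thk_spec q j).2.2, if_neg hj, Int.cast_zero, zero_mul]
  · intro h
    exact absurd (Finset.mem_univ _) h

theorem le_wq (q : Fin 8) (c : A) : Le (wtg q) (-2) (c • wq q : E8 A) := by
  intro m hm
  have h1 : m ≠ ix (232 + q) := by
    rintro rfl
    rw [wtg_bot] at hm
    exact absurd hm (lt_irrefl _)
  rw [Pi.smul_apply, wq, Pi.neg_apply, eb_apply, if_neg h1, neg_zero, smul_zero]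

/-- degrees below the range -/
theorem t_le_zero {q : Fin 8} {x : E8 A} (h : Le (wtg q) (-3) x) : x = 0 := by
  funext m
  exact h m (by have := wtg_ge q m; omega)

theorem t_le_add {d : Fin 248 → ℤ} {k : ℤ} {x y : E8 A} (hx : Le d k x) (hy : Le d k y) :
    Le d k (x + y) := fun m hm => by
  rw [Pi.add_apply, hx m hm, hy m hm, add_zero]

theorem t_le_smul {d : Fin 248 → ℤ} {k : ℤ} (c : A) {x : E8 A} (hx : Le d k x) :
    Le d k (c • x) := fun m hm => by
  rw [Pi.smul_apply, hx m hm, smul_zero]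

theorem t_le_mono {d : Fin 248 → ℤ} {k l : ℤ} (hkl : k ≤ l) {x : E8 A} (hx : Le d k x) :
    Le d l x := fun m hm => hx m (lt_of_le_of_lt hkl hm)

end

section

variable {A : Type*} [CommRing A] [Algebra ℚ A]

/-- an integer different from zero is a unit -/
theorem t_int_cancel {n : ℤ} (hn : n ≠ 0) {x : A} (h : (n : A) * x = 0) : x = 0 := by
  have h1 : (algebraMap ℚ A (n : ℚ)⁻¹) * ((n : A) * x) = 0 := by rw [h, mul_zero]
  have h2 : (algebraMap ℚ A (n : ℚ)⁻¹) * (n : A) = 1 := by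
    rw [← map_intCast (algebraMap ℚ A), ← map_mul, inv_mul_cancel₀ (by exact_mod_cast hn),
      map_one]
  rwa [← mul_assoc, h2, one_mul] at h1

theorem ex_of_br {x Y Z : E8 A} (h1 : br x Y = Z) (h2 : br x Z = 0) : ex x Y = Y + Z := by
  have h3 : ∀ n : ℕ, ((brL x) ^ (n + 2)) Y = 0 := by
    intro n
    rw [pow_add, pow_two, Module.End.mul_apply, Module.End.mul_apply, brL_apply, brL_apply, h1, h2,
      map_zero]
  rw [ex_apply, Finset.sum_range_succ', Finset.sum_range_succ']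
  have h4 : (∑ k ∈ Finset.range 5, algebraMap ℚ A (((k + 1 + 1).factorial : ℚ)⁻¹) •
      ((brL x) ^ (k + 1 + 1)) Y) = 0 := Finset.sum_eq_zero fun k _ => by rw [h3, smul_zero]
  rw [h4, zero_add]
  simp [h1, add_comm]

theorem ex_of_br' {x Y : E8 A} (h1 : br x Y = 0) : ex x Y = Y := by
  rw [ex_of_br h1 (br_zero_right x), add_zero]

/-- conjugation to the standard pair -/
theorem exists_theta {q : Fin 8} {p : E8 A} {c : A} (h : Pair p (c • wq q)) :
    ∃ θ : E8 A →ₗ[A] E8 A, IsAut θ ∧ θ (c • wq q) = c • wq q ∧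
      θ (p (ix q) • eb (ix q)) = p := by
  set w : E8 A := c • wq q with hw
  have hc : c * p (ix q) = 1 := by
    have := h.one
    rwa [hw, kf_smul_right, kf_symm, kf_wq] at this
  set p0 : E8 A := p (ix q) • eb (ix q) with hp0
  have h0 : br p0 w = hq q := by
    rw [hp0, hw, br_smul_left, br_smul_right, smul_smul, mul_comm, hc, one_smul]
    rfl
  set u : E8 A := br p w - hq q with hu
  have hu' : Le (wtg q) (-1) u := by
    have h1 : u = br (p - p0) w := by rw [hu, br_sub_left, h0]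
    rw [h1]
    have h2 : Le (wtg q) 1 (p - p0) := by
      intro m hm
      have h3 : m = ix q := (thk_spec q m).1 (by have := wtg_le q m; omega)
      rw [h3, hp0, Pi.sub_apply, Pi.smul_apply, eb_apply, if_pos rfl, smul_eq_mul, mul_one,
        sub_self]
    exact Le.br (fun i j k h => sc_wtg q h) h2 (le_wq q c)
  set u2 : E8 A := fun m => if wtg q m = -2 then u m else 0 with hu2
  have hu2' : Le (wtg q) (-2) u2 := by
    intro m hm
    rw [hu2]
    exact if_neg (by omega)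
  set n : E8 A := u - (algebraMap ℚ A 2⁻¹) • u2 with hn
  have hn' : Le (wtg q) (-1) n := by
    rw [hn, sub_eq_add_neg, ← neg_smul]
    exact t_le_add hu' (t_le_mono (by norm_num) (t_le_smul _ hu2'))
  have hnil : (brL n) ^ 7 = 0 := ad_nil_wt' q hn'
  have hhalf : (algebraMap ℚ A 2⁻¹) * 2 = 1 := by
    rw [← map_ofNat (algebraMap ℚ A) 2, ← map_mul]
    norm_num
  have e1 : br n (hq q) = u := by
    rw [br_skew]
    funext m
    rw [Pi.neg_apply, br_hq, hn, Pi.sub_apply, Pi.smul_apply, smul_eq_mul, hu2]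
    change -((wtg q m : A) * (u m - (algebraMap ℚ A) 2⁻¹ * (if wtg q m = -2 then u m else 0))) = u m
    by_cases h1 : wtg q m = -2
    · rw [if_pos h1, h1]
      push_cast
      linear_combination (-(u m)) * hhalf
    · rw [if_neg h1, mul_zero, sub_zero]
      by_cases h2 : wtg q m = -1
      · rw [h2]
        push_cast
        ring
      · have h3 : u m = 0 := hu' m (by have := wtg_ge q m; omega)
        rw [h3, mul_zero, neg_zero]
  have e2 : br n u = 0 := by
    rw [hn, br_sub_left, br_self, br_smul_left]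
    have h1 : Le (wtg q) (-2 + -1) (br u2 u) := Le.br (fun i j k h => sc_wtg q h) hu2' hu'
    rw [t_le_zero h1, smul_zero, sub_zero]
  have e3 : br n w = 0 := by
    have h1 : Le (wtg q) (-1 + -2) (br n w) := Le.br (fun i j k h => sc_wtg q h) hn' (le_wq q c)
    exact t_le_zero h1
  have e4 : ex n (hq q) = br p w := by
    rw [ex_of_br e1 e2, hu, add_sub_cancel]
  have e5 : ex n w = w := ex_of_br' e3
  have haut := ex_isAut hnil
  refine ⟨ex n, haut, e5, ?_⟩
  set p' : E8 A := ex (-n) p with hp'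
  have e6 : ex n p' = p := ex_ex_neg hnil p
  have e7 : br (hq q) p' = (2 : A) • p' := by
    apply haut.bij.1
    rw [haut.map_br, e4, e6, map_smul, e6, h.br_h_p]
  have e8 : p' = p' (ix q) • eb (ix q) := by
    funext m
    rw [Pi.smul_apply, eb_apply, smul_eq_mul]
    by_cases h1 : m = ix q
    · rw [if_pos h1, h1, mul_one]
    · rw [if_neg h1, mul_zero]
      have h2 := congrFun e7 m
      rw [br_hq, Pi.smul_apply, smul_eq_mul] at h2
      refine t_int_cancel (n := wtg q m - 2) (fun h3 => h1 ((thk_spec q m).1 (by omega))) ?_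
      push_cast
      linear_combination h2
  have e9 : kf p' w = 1 := by
    rw [← haut.kf_kf, e6, e5, h.one]
  have e10 : p' (ix q) = p (ix q) := by
    rw [hw, kf_smul_right, kf_symm, kf_wq] at e9
    linear_combination (p (ix q)) * e9 - (p' (ix q)) * hc
  rw [hp0, ← e10, ← e8, e6]

end

end Pool.Agent.Licci

end

section

/-!
# LICCI, codimension 6: the trace identity at an arbitrary extremal element
-/

set_option linter.unusedSectionVars false

namespace Pool.Agent.Licci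

open scoped BigOperators Matrix

section form

variable {A : Type*} [CommRing A]

theorem kf_eq_dot (x y : E8 A) :
    kf x y = x ⬝ᵥ ((Matrix.of fun i j => (kc i j : A)) *ᵥ y) := by
  rw [kf_def, dotProduct]
  refine Finset.sum_congr rfl fun i _ => ?_
  rw [Matrix.mulVec, dotProduct, Finset.mul_sum]
  refine Finset.sum_congr rfl fun j _ => ?_
  rw [Matrix.of_apply]
  ring

theorem exists_kc_inv : ∃ kI : Matrix (Fin 248) (Fin 248) A,
    (Matrix.of fun i j => (kc i j : A)) * kI = 1 ∧ kI * (Matrix.of fun i j => (kc i j : A)) = 1 := by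
  have h : (Matrix.of fun i m => (cf (dbN (i : Fin 248)) (m : Fin 248) : A)) *
      (Matrix.of fun i j => (kc i j : A)) = 1 := by
    ext i j
    rw [Matrix.mul_apply, Matrix.one_apply, ← kf_db i j, db, kf_sum_left]
    refine Finset.sum_congr rfl fun m _ => ?_
    rw [kf_smul_left, kf_eb_eb, Matrix.of_apply, Matrix.of_apply]
  exact ⟨_, mul_eq_one_comm.1 h, h⟩

theorem kc_transpose : (Matrix.of fun i j => (kc i j : A)).transpose =
    (Matrix.of fun i j => (kc i j : A)) := by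
  ext i j
  rw [Matrix.transpose_apply, Matrix.of_apply, Matrix.of_apply, kc, kc, kcN_symm j.2 i.2]

end form

section field

variable {K : Type*} [Field K] [CharZero K] {P : E8 K} {q : Fin 8} {c c' : K}

theorem F0_exists (hc : c * c' = 1) {w : E8 K} (hw : w ∈ F0 (c' • eb (ix q) : E8 K)) :
    ∃ χ : K, br w (c' • eb (ix q)) = χ • (c' • eb (ix q)) := by
  have h := F0_smul hw (ix q)
  have h4 : (c' • eb (ix q) : E8 K) (ix q) = c' := by
    rw [Pi.smul_apply, eb_apply, if_pos rfl, smul_eq_mul, mul_one]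
  rw [h4] at h
  refine ⟨c * br w (c' • eb (ix q)) (ix q), ?_⟩
  rw [mul_smul, ← h, smul_smul, hc, one_smul]

/-- the trace identity for the transported basis -/
theorem trace_theta (hc : c * c' = 1) {θ : E8 K →ₗ[K] E8 K} (hθ : IsAut θ)
    (hP : θ (c' • eb (ix q)) = P) {u v : E8 K} {χ χ' : K} (hu : br u P = χ • P)
    (hv : br v P = χ' • P) :
    (∑ k with wtg q k = 1, kf (θ (db k)) (br v (br u (θ (eb k))))) =
      12 * kf u v + 8 * χ * χ' := by
  obtain ⟨u', rfl⟩ := hθ.bij.2 u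
  obtain ⟨v', rfl⟩ := hθ.bij.2 v
  have hu' : br u' (c' • eb (ix q)) = χ • (c' • eb (ix q)) := by
    apply hθ.bij.1
    rw [hθ.map_br, hP, hu, map_smul, hP]
  have hv' : br v' (c' • eb (ix q)) = χ' • (c' • eb (ix q)) := by
    apply hθ.bij.1
    rw [hθ.map_br, hP, hv, map_smul, hP]
  rw [hθ.kf_kf, ← trace_base hc hu' hv']
  refine Finset.sum_congr rfl fun k _ => ?_
  rw [← hθ.map_br, ← hθ.map_br, hθ.kf_kf, kf_db_apply]

/-- expansion in the transported basis -/
theorem expand_theta (hc : c * c' = 1) {θ : E8 K →ₗ[K] E8 K} (hθ : IsAut θ)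
    (hP : θ (c' • eb (ix q)) = P) {y : E8 K} (hy : y ∈ F1 P) :
    ∃ r : K, y = (∑ k with wtg q k = 1, kf (θ (db k)) y • θ (eb k)) + r • P := by
  obtain ⟨y', rfl⟩ := hθ.bij.2 y
  have hy' : y' ∈ F1 (c' • eb (ix q) : E8 K) := by
    intro w hw
    obtain ⟨χ, hχ⟩ := F0_exists hc hw
    rw [← hθ.kf_kf]
    refine hy _ (F0_of_smul (c := χ) ?_)
    rw [← hP, ← hθ.map_br, hχ, map_smul]
  obtain ⟨r, hr⟩ := F1_base_expand hc hy'
  refine ⟨r, ?_⟩
  have h1 : θ y' = θ ((∑ k with wtg q k = 1, y' k • eb k) + r • (c' • eb (ix q))) := by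
    rw [← hr]
  rw [map_add, map_sum, map_smul, hP] at h1
  rw [h1]
  congr 1
  refine Finset.sum_congr rfl fun k _ => ?_
  rw [← h1, map_smul, hθ.kf_kf, kf_db_apply]

theorem eb_mem_F1_theta (hc : c * c' = 1) (hPr : Pair P (c • wq q)) {θ : E8 K →ₗ[K] E8 K}
    (hθ : IsAut θ) (hw : θ (c • wq q) = c • wq q)
    (hP : θ (c' • eb (ix q)) = P) {k : Fin 248} (hk : wtg q k = 1) : θ (eb k) ∈ F1 P := by
  refine hPr.mem_F1_one ?_
  have h1 : br P (c • wq q) = θ (hq q) := by
    rw [← br_base (q := q) hc, hθ.map_br, hP, hw]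
  rw [h1, ← hθ.map_br, br_hq_eb, hk, Int.cast_one, one_smul]

theorem kf_db_theta (hθ : E8 K →ₗ[K] E8 K) (h : IsAut hθ)
    (hP : hθ (c' • eb (ix q)) = P) {k : Fin 248} (hk : wtg q k = 1) : kf (hθ (db k)) P = 0 := by
  rw [← hP, h.kf_kf, kf_db_apply, Pi.smul_apply, eb_apply, if_neg, smul_zero]
  intro h1
  rw [h1, wtg_ix] at hk
  omega

/-- the trace identity for arbitrary dual families over a field -/
theorem trace_field {ι : Type*} [Fintype ι] (hcone : Cone P) (ht : P (ix q) ≠ 0)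
    {x w : ι → E8 K} {d : K} (hx : ∀ i, x i ∈ F1 P) (hwp : ∀ i, kf P (w i) = 0)
    (hspan : ∀ y ∈ F1 P, ∃ r : K, d • y = ∑ i, kf (w i) y • x i + r • P)
    {u v : E8 K} {χ χ' : K} (hu : br u P = χ • P) (hv : br v P = χ' • P) :
    ∑ i, kf (w i) (br v (br u (x i))) = d * (12 * kf u v + 8 * χ * χ') := by
  set c : K := (P (ix q))⁻¹ with hcdef
  have hc : c * P (ix q) = 1 := inv_mul_cancel₀ ht
  have hPr : Pair P (c • wq q) := by
    refine ⟨hcone, fun y => ?_, ?_⟩
    · rw [br_smul_left, br_smul_left, br_smul_right, cone_wq q y, kf_smul_left, smul_smul,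
        smul_smul, smul_smul]
      congr 1
      ring
    · rw [kf_smul_right, kf_wq', hc]
  obtain ⟨θ, hθ, hw, hP⟩ := exists_theta hPr
  have hmem : ∀ k, wtg q k = 1 → θ (eb k) ∈ F1 P := fun k hk =>
    eb_mem_F1_theta hc hPr hθ hw hP hk
  have hdb : ∀ k, wtg q k = 1 → kf (θ (db k)) P = 0 := fun k hk =>
    kf_db_theta θ hθ hP hk
  rw [← trace_theta hc hθ hP hu hv]
  set T : E8 K → E8 K := fun z => br v (br u z) with hT
  have hTadd : ∀ a b, T (a + b) = T a + T b := fun a b => by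
    simp only [hT, br_add_right]
  have hTsmul : ∀ (s : K) a, T (s • a) = s • T a := fun s a => by
    simp only [hT, br_smul_right]
  have hTsum : ∀ (s : Finset (Fin 248)) (f : Fin 248 → E8 K), T (∑ k ∈ s, f k) = ∑ k ∈ s, T (f k) :=
    fun s f => by simp only [hT, br_sum_right]
  have hTP : ∃ s : K, T P = s • P := by
    refine ⟨χ * χ', ?_⟩
    simp only [hT]
    rw [hu, br_smul_right, hv, smul_smul]
  have hF0 : ∀ {u : E8 K} {χ : K}, br u P = χ • P → ∀ z ∈ F1 P, br u z ∈ F1 P := by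
    intro u χ hu z hz y hy
    rw [kf_br_left, hz, neg_zero]
    have hy' : ∃ s : K, br y P = s • P := by
      have h := F0_smul hy (ix q)
      refine ⟨c * br y P (ix q), ?_⟩
      rw [mul_smul, ← h, smul_smul, hc, one_smul]
    obtain ⟨s, hs⟩ := hy'
    refine F0_of_smul (c := 0) ?_
    rw [br_br_skew, hs, br_smul_right, hu, br_smul_right, hs, smul_smul, smul_smul, mul_comm s χ,
      sub_self, zero_smul]
  have hTF : ∀ z ∈ F1 P, T z ∈ F1 P := fun z hz => hF0 hv _ (hF0 hu _ hz)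
  obtain ⟨s, hs⟩ := hTP
  -- each x i in the transported basis
  have h1 : ∀ i, T (x i) = (∑ k with wtg q k = 1, kf (θ (db k)) (x i) • T (θ (eb k))) +
      (kf (c • wq q) (x i - ∑ k with wtg q k = 1, kf (θ (db k)) (x i) • θ (eb k)) * s) • P := by
    intro i
    obtain ⟨r, hr⟩ := expand_theta hc hθ hP (hx i)
    have e : x i - ∑ k with wtg q k = 1, kf (θ (db k)) (x i) • θ (eb k) = r • P := by
      rw [sub_eq_iff_eq_add, add_comm]
      exact hr
    rw [e, kf_smul_right, kf_symm, hPr.one, mul_one]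
    conv_lhs => rw [hr]
    rw [hTadd, hTsum, hTsmul, hs, smul_smul]
    simp only [hTsmul]
  have h2 : ∀ k, wtg q k = 1 → ∀ i, kf (w i) (T (θ (eb k))) =
      ∑ l with wtg q l = 1, kf (θ (db l)) (T (θ (eb k))) * kf (w i) (θ (eb l)) := by
    intro k hk i
    obtain ⟨r, hr⟩ := expand_theta hc hθ hP (hTF _ (hmem k hk))
    have h3 : kf (w i) P = 0 := by rw [kf_symm, hwp]
    conv_lhs => rw [hr]
    rw [kf_add_right, kf_smul_right, h3, mul_zero, add_zero, kf_sum_right]
    simp only [kf_smul_right]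
  have h3 : ∀ k l, wtg q k = 1 → wtg q l = 1 →
      ∑ i, kf (θ (db k)) (x i) * kf (w i) (θ (eb l)) = if k = l then d else 0 := by
    intro k l hk hl
    obtain ⟨r, hr⟩ := hspan _ (hmem l hl)
    have h4 := congrArg (fun z => kf (θ (db k)) z) hr
    simp only [kf_smul_right, kf_add_right, kf_sum_right, hdb k hk, mul_zero, add_zero,
      hθ.kf_kf, kf_db_apply] at h4
    rw [eb_apply] at h4
    have h5 : (∑ i, kf (θ (db k)) (x i) * kf (w i) (θ (eb l))) =
        ∑ i, kf (w i) (θ (eb l)) * kf (θ (db k)) (x i) :=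
      Finset.sum_congr rfl fun i _ => mul_comm _ _
    rw [h5, ← h4]
    split_ifs <;> simp
  have h4 : ∀ i, kf (w i) (T (x i)) = ∑ k with wtg q k = 1, ∑ l with wtg q l = 1,
      kf (θ (db l)) (T (θ (eb k))) * (kf (θ (db k)) (x i) * kf (w i) (θ (eb l))) := by
    intro i
    have h5 : kf (w i) P = 0 := by rw [kf_symm, hwp]
    rw [h1 i, kf_add_right, kf_smul_right, h5, mul_zero, add_zero, kf_sum_right]
    refine Finset.sum_congr rfl fun k hk => ?_
    rw [kf_smul_right, h2 k (Finset.mem_filter.1 hk).2 i, Finset.mul_sum]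
    refine Finset.sum_congr rfl fun l _ => ?_
    ring
  rw [Finset.sum_congr rfl fun i _ => h4 i, Finset.sum_comm, Finset.mul_sum]
  refine Finset.sum_congr rfl fun k hk => ?_
  rw [Finset.sum_comm]
  have h6 : ∀ l ∈ Finset.univ.filter (fun l => wtg q l = 1),
      ∑ i, kf (θ (db l)) (T (θ (eb k))) * (kf (θ (db k)) (x i) * kf (w i) (θ (eb l))) =
        if k = l then d * kf (θ (db l)) (T (θ (eb k))) else 0 := by
    intro l hl
    rw [← Finset.mul_sum, h3 k l (Finset.mem_filter.1 hk).2 (Finset.mem_filter.1 hl).2]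
    split_ifs
    · ring
    · ring
  rw [Finset.sum_congr rfl h6, Finset.sum_ite_eq, if_pos hk]

end field

section domain

variable {R : Type*} [CommRing R] [IsDomain R] [CharZero R] {p : E8 R}

/-- (E10) the trace identity for dual families over a domain -/
theorem trace_identity {ι : Type*} [Fintype ι] (hcone : Cone p) (ht : ∃ q : Fin 8, p (ix q) ≠ 0)
    {x w : ι → E8 R} {d : R} (hx : ∀ i, x i ∈ F1 p) (hwp : ∀ i, kf p (w i) = 0)
    (hspan : ∀ y ∈ F1 p, ∃ r : R, d • y = ∑ i, kf (w i) y • x i + r • p)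
    {u v : E8 R} {χ χ' : R} (hu : br u p = χ • p) (hv : br v p = χ' • p) :
    ∑ i, kf (w i) (br v (br u (x i))) = d * (12 * kf u v + 8 * χ * χ') := by
  obtain ⟨q, hq⟩ := ht
  let K := FractionRing R
  have hinj := IsFractionRing.injective R K
  have : CharZero K := charZero_of_injective_algebraMap hinj
  set φ : R →+* K := algebraMap R K with hφ
  have hsm : ∀ (c : R) (y : E8 R), φ ∘ (c • y) = φ c • (φ ∘ y) := by
    intro c y
    funext j
    simp
  have h1 : ∀ {u : E8 R} {χ : R}, br u p = χ • p → br (φ ∘ u) (φ ∘ p) = φ χ • (φ ∘ p) := by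
    intro u χ hu
    rw [← br_map, hu, hsm]
  have h2 := trace_field (K := K) (P := φ ∘ p) (q := q) (x := fun i => φ ∘ x i)
    (w := fun i => φ ∘ w i) (d := φ d) (DimE.cone_map φ hcone) ?_ (fun i => DimE.F1_map.2 (hx i))
    (fun i => ?_) ?_ (h1 hu) (h1 hv)
  · apply hinj
    rw [map_sum, map_mul, map_add, map_mul, map_mul, map_mul, map_ofNat, map_ofNat, kf_map,
      ← h2]
    refine Finset.sum_congr rfl fun i _ => ?_
    rw [kf_map, br_map, br_map]
  · intro h
    apply hq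
    apply hinj
    rw [map_zero]
    exact h
  · rw [← kf_map, hwp, map_zero]
  · intro y hy
    obtain ⟨b, hb⟩ := IsLocalization.exist_integer_multiples_of_finite (nonZeroDivisors R) y
    choose y' hy' using hb
    have hb0 : φ (b : R) ≠ 0 := by
      rw [hφ, Ne, IsFractionRing.to_map_eq_zero_iff]
      exact nonZeroDivisors.ne_zero b.2
    have h3 : φ ∘ y' = φ (b : R) • y := by
      funext i
      rw [Function.comp_apply, hφ, hy', Pi.smul_apply, Algebra.smul_def, smul_eq_mul]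
    have h4 : y' ∈ F1 p := by
      rw [← DimE.F1_map (K := K), ← hφ, h3]
      exact (F1s (φ ∘ p)).smul_mem _ hy
    obtain ⟨r, hr⟩ := hspan y' h4
    refine ⟨(φ (b : R))⁻¹ * φ r, ?_⟩
    have h5 : φ ∘ (d • y') = φ ∘ (∑ i, kf (w i) y' • x i + r • p) := by rw [hr]
    have h6 : φ ∘ (∑ i, kf (w i) y' • x i + r • p) =
        ∑ i, φ (kf (w i) y') • (φ ∘ x i) + φ r • (φ ∘ p) := by
      funext j
      simp
    rw [hsm, h6, h3] at h5
    have h7 : ∀ i, φ (kf (w i) y') = φ (b : R) * kf (φ ∘ w i) y := by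
      intro i
      rw [kf_map, h3, kf_smul_right]
    have h8 : φ (b : R) • (φ d • y) =
        φ (b : R) • (∑ i, kf (φ ∘ w i) y • (φ ∘ x i) + ((φ (b : R))⁻¹ * φ r) • (φ ∘ p)) := by
      rw [smul_comm, h5, smul_add, Finset.smul_sum, smul_smul, ← mul_assoc,
        mul_inv_cancel₀ hb0, one_mul]
      congr 1
      refine Finset.sum_congr rfl fun i _ => ?_
      rw [h7, mul_smul]
    exact smul_right_injective _ hb0 h8

end domain

end Pool.Agent.Licci

end

section

/-!
# The facts on `e_8` used in the core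

The filtration facts are in `Core/EFacts`.
-/

set_option autoImplicit false
set_option linter.unusedSectionVars false
set_option linter.unusedVariables false

namespace LicciCore

open Pool.Agent.Licci Matrix

variable {R : Type*} [CommRing R] [IsDomain R] [CharZero R] {p : E8 R}

/-- dual families -/
structure DualFam (p : E8 R) (x w : Fin 56 → E8 R) (c : R) : Prop where
  ne : c ≠ 0
  x_mem : ∀ i, x i ∈ F1 p
  w_perp : ∀ i, kf p (w i) = 0
  pair : ∀ i j, kf (w i) (x j) = if i = j then c else 0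
  span : ∀ y ∈ F1 p, ∃ r : R, c • y = ∑ i, kf (w i) y • x i + r • p

theorem exists_dualFam (hc : Cone p) (ht : ∃ q : Fin 8, p (ix q) ≠ 0) :
    ∃ (x w : Fin 56 → E8 R) (c : R), DualFam p x w c := by
  obtain ⟨q, hq⟩ := ht
  have hp0 : p ≠ 0 := fun h => hq (by rw [h]; rfl)
  obtain ⟨c, x, w, w0, h1, h2, h3, h4, h5⟩ := DimE.exists_dual_families hc hp0
  exact ⟨x, w, c, h1, h2, h3, h4, fun y hy => ⟨_, h5 y hy⟩⟩

/-- the trace identity -/
theorem trace_id (hc : Cone p) (ht : ∃ q : Fin 8, p (ix q) ≠ 0) {x w : Fin 56 → E8 R} {c : R}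
    (h : DualFam p x w c) {u v : E8 R} {χ χ' : R} (hu : br u p = χ • p) (hv : br v p = χ' • p) :
    ∑ i, kf (w i) (br v (br u (x i))) = c * (12 * kf u v + 8 * χ * χ') :=
  trace_identity hc ht h.x_mem h.w_perp h.span hu hv

/-- local projectors -/
theorem exists_proj (hc : Cone p) (hp0 : p ≠ 0) (w : E8 R) : ∃ Pi : Matrix (Fin 248) (Fin 248) R,
    (∀ y, Pi *ᵥ y ∈ F1 p) ∧ ∀ x ∈ F1 p, Pi *ᵥ x = kf p w ^ 2 • x := by
  refine ⟨LinearMap.toMatrix' (DimE.pj p w), fun y => ?_, fun x hx => ?_⟩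
  · rw [← Matrix.toLin'_apply, Matrix.toLin'_toMatrix']
    exact DimE.pj_mem_F1 hc hp0 w y
  · rw [← Matrix.toLin'_apply, Matrix.toLin'_toMatrix']
    exact DimE.pj_F1 hc w hx

end LicciCore

end

section

/-!
# The complexes `X`, `X''`, `JJ`, `G`
-/

set_option autoImplicit false
set_option linter.unusedSectionVars false

open Matrix Kronecker RingTheory.Sequence IsLocalRing

namespace LicciCore

open LicciCx Cx Pool.Agent.Licci

universe u

/-- `p` as a column -/
def pcol {R : Type*} (p : Fin 248 → R) : Matrix (Fin 248) Unit R := Matrix.of fun i _ => p i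

/-- `X`, with the map `aa` to `W = e_8(R)` and `ph : X_{-1} → R`; `Z⁰(X'')` is mapped onto `F1 p` by
`(r, z) ↦ aa z + r p` with kernel `B⁰(X'')`. -/
structure CoreData (R : Type u) [CommRing R] [IsDomain R] [IsLocalRing R] (p : Fin 248 → R)
    (a : Fin 6 → R) (J : Type) [Fintype J] [DecidableEq J] where
  X : Cx R J
  deg_le : ∀ j, X.deg j ≤ 1
  le_deg : ∀ j, -1 ≤ X.deg j
  min : ∀ i j, X.d i j ∈ maximalIdeal R
  ue : ∀ i, UE X (a i)
  aa : Matrix (Fin 248) J R
  aa_deg : ∀ i j, X.deg j ≠ 0 → aa i j = 0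
  ph : Matrix Unit J R
  ph_deg : ∀ i j, X.deg j ≠ -1 → ph i j = 0
  aa_d : aa * X.d = -(pcol p * ph)
  mem : ∀ z ∈ X.Z0, aa *ᵥ z ∈ F1 p
  surj : ∀ x ∈ F1 p, ∃ z ∈ X.Z0, ∃ r : R, x = aa *ᵥ z + r • p
  ker : ∀ z ∈ X.Z0, ∀ r : R, aa *ᵥ z + r • p = 0 → ∃ w, Vh X (-1) w ∧ z = X.d *ᵥ w ∧
    r = (ph *ᵥ w) ()

/-- properties of the ring and of `p` -/
structure Setup (R : Type u) [CommRing R] [IsDomain R] [IsLocalRing R] (p : Fin 248 → R)
    (a : Fin 6 → R) : Prop where
  rat : Nonempty (Algebra ℚ R)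
  char0 : CharZero R
  reg : IsWeaklyRegular R (List.ofFn a)
  ne : ∀ i, a i ≠ 0
  mem : ∀ i, a i ∈ maximalIdeal R
  cone : Cone p
  pmem : ∀ i, ∃ n : ℕ, ∃ e : Fin 248 → R, kf p e = a i ^ n
  top : ∃ q : Fin 8, p (ix q) ≠ 0
  sat : Sat p
  proj : ∀ i, ∃ n : ℕ, ∃ Pi : Matrix (Fin 248) (Fin 248) R, (∀ y, Pi *ᵥ y ∈ F1 p) ∧
    ∀ x ∈ F1 p, Pi *ᵥ x = a i ^ n • x

section aux

variable {R : Type*} [CommRing R]

/-- the inverse of the matrix of the form -/
noncomputable def kMi (R : Type*) [CommRing R] : Matrix (Fin 248) (Fin 248) R :=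
  (exists_kM_inv (R := R)).choose

theorem kM_kMi (R : Type*) [CommRing R] : kM R * kMi R = 1 :=
  (exists_kM_inv (R := R)).choose_spec.1

theorem kMi_kM (R : Type*) [CommRing R] : kMi R * kM R = 1 :=
  (exists_kM_inv (R := R)).choose_spec.2

theorem dot_kM (x y : Fin 248 → R) : (kM R *ᵥ y) ⬝ᵥ x = kf x y := by
  rw [kf_eq, dotProduct_comm]

/-- a cocycle of the dual which vanishes on the cocycles is a boundary up to a scalar -/
theorem dual_bd_of_pair {J : Type*} [Fintype J] [DecidableEq J] {K : Cx R J} {c : R}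
    {h : Matrix J J R} (hh : IsCon K c h) {l : J → R} (hl : l ∈ K.dual.Z0)
    (h0 : ∀ z ∈ K.Z0, l ⬝ᵥ z = 0) : ∃ w, c • l = K.dual.d *ᵥ w := by
  have he : K.e *ᵥ l = l := by
    funext j
    show (Matrix.diagonal (fun j => ((sg (K.deg j) : ℤ) : R)) *ᵥ l) j = l j
    rw [Matrix.mulVec_diagonal]
    by_cases hj : K.deg j = 0
    · rw [hj, sg_zero]; simp
    · rw [hl.1 j (by rw [dual_deg]; omega), mul_zero]
  have hdt : K.dual.d = -(K.dᵀ * K.e) := by
    rw [dual_d, Matrix.transpose_mul, ep_transpose]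
  have hd : K.dᵀ *ᵥ l = 0 := by
    have h1 := hl.2
    rw [hdt, Matrix.neg_mulVec, ← Matrix.mulVec_mulVec, he, neg_eq_zero] at h1
    exact h1
  have hp : (K.pr c h)ᵀ *ᵥ l = 0 := by
    funext j
    have h1 : (fun i => K.pr c h i j) ∈ K.Z0 := by
      refine ⟨fun i hi => hh.sup i j (by rintro ⟨h1, -⟩; exact hi h1), ?_⟩
      funext i
      exact congrFun (congrFun hh.d_pr i) j
    have h2 := h0 _ h1
    rw [dotProduct_comm] at h2
    exact h2
  refine ⟨-(K.e *ᵥ (hᵀ *ᵥ l)), ?_⟩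
  have h3 : c • (1 : Matrix J J R) = K.pr c h + (K.d * h + h * K.d) := by
    rw [pr]; abel
  have h4 : c • l = (c • (1 : Matrix J J R))ᵀ *ᵥ l := by
    rw [Matrix.transpose_smul, Matrix.transpose_one, Matrix.smul_mulVec, Matrix.one_mulVec]
  rw [h4, h3, Matrix.transpose_add, Matrix.add_mulVec, hp, zero_add, Matrix.transpose_add,
    Matrix.add_mulVec, Matrix.transpose_mul, Matrix.transpose_mul, ← Matrix.mulVec_mulVec, hd,
    Matrix.mulVec_zero, zero_add, hdt, Matrix.mulVec_neg, Matrix.neg_mulVec, neg_neg,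
    Matrix.mulVec_mulVec, Matrix.mul_assoc, K.e_mul_self, Matrix.mul_one, Matrix.mulVec_mulVec]

/-- a matrix whose columns are cocycles of degree `0` -/
theorem cl_of_cols {J A : Type*} [Fintype J] [Fintype A] [DecidableEq J] [DecidableEq A]
    {K : Cx R J} {f : Matrix J A R} (h : ∀ y, f *ᵥ y ∈ K.Z0) : Cl (free R A 0) K 0 f := by
  have hcol : ∀ k, (fun j => f j k) ∈ K.Z0 := by
    intro k
    have := h (Pi.single k 1)
    rwa [Matrix.mulVec_single_one] at this
  refine Cl.mk0 ?_ ?_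
  · intro i j hij
    exact (hcol j).1 i (by rw [free_deg] at hij; simpa using hij)
  · rw [free_d, Matrix.mul_zero]
    ext i j
    exact congrFun (hcol j).2 i

end aux

theorem Setup.p_ne {R : Type u} [CommRing R] [IsDomain R] [IsLocalRing R] {p : Fin 248 → R}
    {a : Fin 6 → R} (S : Setup R p a) : p ≠ 0 := by
  obtain ⟨q, hq⟩ := S.top
  intro h
  exact hq (congrFun h _)

namespace CoreData

variable {R : Type u} [CommRing R] [IsDomain R] [IsLocalRing R] {p : Fin 248 → R}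
  {a : Fin 6 → R} {J : Type} [Fintype J] [DecidableEq J] (D : CoreData R p a J)

theorem cl_ph : Cl D.X (free R Unit 0) 1 D.ph := by
  refine Cl.mk1 (fun i j h => D.ph_deg i j (by intro h1; apply h; rw [free_deg, h1]; rfl)) ?_
  rw [free_d, Matrix.zero_mul]
  ext i j
  rw [Matrix.zero_apply, Matrix.neg_apply, eq_comm, neg_eq_zero, Matrix.mul_apply]
  refine Finset.sum_eq_zero fun k _ => ?_
  by_cases hk : D.X.deg k = -1
  · rw [D.X.hmg k j (by intro h; have := D.le_deg j; omega), mul_zero]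
  · rw [D.ph_deg i k hk, zero_mul]

/-- `X''`, on `Unit ⊕ J` -/
def X2 : Cx R (Unit ⊕ J) := ext D.cl_ph

/-- the map `X'' → W` -/
def u : Matrix (Fin 248) (Unit ⊕ J) R := Matrix.fromCols (pcol p) D.aa

theorem cl_aa : IsHmg D.X (free R (Fin 248) 0) 0 D.aa :=
  fun i j h => D.aa_deg i j (by intro h1; apply h; rw [free_deg, h1]; rfl)

theorem cl_pcol : Cl (free R Unit 0) (free R (Fin 248) 0) 0 (pcol p) :=
  Cl.mk0 (fun i j h => (h (by simp)).elim) (by simp)

theorem cl_u : Cl D.X2 (free R (Fin 248) 0) 0 D.u := by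
  refine Cl.ofExt D.cl_ph cl_pcol D.cl_aa ?_
  rw [free_d, Matrix.zero_mul, D.aa_d]
  simp

/-- the projection `X'' → X` -/
def prX (R : Type*) [CommRing R] (J : Type*) [DecidableEq J] : Matrix J (Unit ⊕ J) R :=
  Matrix.fromCols 0 1

theorem cl_prX : Cl D.X2 D.X 0 (prX R J) := ext_pr D.cl_ph

theorem ue_X2 (i : Fin 6) : UE D.X2 (a i) := UE.ext (UE.free _) (D.ue i) D.cl_ph

/-- `J = cone (X'' → W) ≃ W / F¹` -/
def JJ : Cx R (Fin 248 ⊕ (Unit ⊕ J)) := cone D.cl_u

/-- cocycles of `X''` -/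
theorem mem_Z0_X2 {y : Unit ⊕ J → R} :
    y ∈ D.X2.Z0 ↔ (fun j => y (Sum.inr j)) ∈ D.X.Z0 := by
  have hd : D.X2.d *ᵥ y = Sum.elim (D.ph *ᵥ fun j => y (Sum.inr j))
      (D.X.d *ᵥ fun j => y (Sum.inr j)) := by
    rw [show D.X2.d = Matrix.fromBlocks (free R Unit 0).d D.ph 0 D.X.d from rfl,
      Matrix.fromBlocks_mulVec, free_d, Matrix.zero_mulVec, Matrix.zero_mulVec, zero_add, zero_add]
    rfl
  constructor
  · rintro ⟨h1, h2⟩
    refine ⟨fun j hj => h1 (Sum.inr j) hj, ?_⟩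
    rw [hd] at h2
    funext j
    exact congrFun h2 (Sum.inr j)
  · rintro ⟨h1, h2⟩
    refine ⟨?_, ?_⟩
    · rintro (j | j) hj
      · exact absurd rfl hj
      · exact h1 j hj
    · rw [hd]
      funext j
      rcases j with j | j
      · show (D.ph *ᵥ fun j => y (Sum.inr j)) j = 0
        rw [Matrix.mulVec, dotProduct]
        refine Finset.sum_eq_zero fun k _ => ?_
        by_cases hk : D.X.deg k = 0
        · rw [D.ph_deg j k (by omega), zero_mul]
        · have h3 : y (Sum.inr k) = 0 := h1 k hk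
          show D.ph j k * y (Sum.inr k) = 0
          rw [h3, mul_zero]
      · exact congrFun h2 j

theorem u_mulVec (y : Unit ⊕ J → R) :
    D.u *ᵥ y = D.aa *ᵥ (fun j => y (Sum.inr j)) + y (Sum.inl ()) • p := by
  have h1 : y = Sum.elim (fun _ => y (Sum.inl ())) (fun j => y (Sum.inr j)) := by
    funext j; rcases j with j | j <;> rfl
  conv_lhs => rw [h1]
  rw [u, Matrix.fromCols_mulVec_sumElim, add_comm]
  congr 1
  funext i
  simp [Matrix.mulVec, dotProduct, pcol, mul_comm]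

theorem u_mem (S : Setup R p a) {y : Unit ⊕ J → R} (hy : y ∈ D.X2.Z0) : D.u *ᵥ y ∈ F1 p := by
  have := S.char0
  rw [u_mulVec]
  exact F1_add (D.mem _ (D.mem_Z0_X2.1 hy)) (F1_smul _ (p_mem S.cone))

theorem u_surj {x : Fin 248 → R} (hx : x ∈ F1 p) : ∃ y ∈ D.X2.Z0, D.u *ᵥ y = x := by
  obtain ⟨z, hz, r, h⟩ := D.surj x hx
  refine ⟨Sum.elim (fun _ => r) z, D.mem_Z0_X2.2 hz, ?_⟩
  rw [u_mulVec, h]
  rfl

theorem u_ker {y : Unit ⊕ J → R} (hy : y ∈ D.X2.Z0) (h : D.u *ᵥ y = 0) : y ∈ D.X2.B0 := by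
  rw [u_mulVec] at h
  obtain ⟨w, hw, h1, h2⟩ := D.ker _ (D.mem_Z0_X2.1 hy) _ h
  refine ⟨Sum.elim 0 w, ?_, ?_⟩
  · rintro (j | j) hj
    · rfl
    · exact hw j hj
  · rw [show D.X2.d = Matrix.fromBlocks (free R Unit 0).d D.ph 0 D.X.d from rfl,
      Matrix.fromBlocks_mulVec]
    funext j
    rcases j with j | j
    · rw [h2]; simp [Function.comp_def]
    · rw [show y (Sum.inr j) = _ from congrFun h1 j]; simp [Function.comp_def]

/-- local retraction `W → Z⁰(X'')` -/
theorem exists_sig (S : Setup R p a) (i : Fin 6) : ∃ n : ℕ, ∃ sg : Matrix (Unit ⊕ J) (Fin 248) R,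
    (∀ y, sg *ᵥ y ∈ D.X2.Z0) ∧ (∀ y, D.u *ᵥ (sg *ᵥ y) ∈ F1 p) ∧
      ∀ x ∈ F1 p, D.u *ᵥ (sg *ᵥ x) = a i ^ n • x := by
  obtain ⟨n, Q, h1, h2⟩ := S.proj i
  choose f hf using fun k => D.u_surj (h1 (Pi.single k 1))
  have hsum : ∀ y, (Matrix.of fun j k => f k j) *ᵥ y = ∑ k, y k • f k := by
    intro y
    funext j
    simp [Matrix.mulVec, dotProduct, Finset.sum_apply, mul_comm]
  have hu : ∀ y, D.u *ᵥ ((Matrix.of fun j k => f k j) *ᵥ y) = Q *ᵥ y := by
    intro y
    rw [hsum, Matrix.mulVec_sum]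
    have h3 : y = ∑ k, y k • Pi.single k (1 : R) := by
      funext j
      simp [Finset.sum_apply, Pi.single_apply]
    conv_rhs => rw [h3, Matrix.mulVec_sum]
    refine Finset.sum_congr rfl fun k _ => ?_
    rw [Matrix.mulVec_smul, Matrix.mulVec_smul, (hf k).2]
  refine ⟨n, Matrix.of fun j k => f k j, ?_, ?_, ?_⟩
  · intro y
    rw [hsum]
    exact Submodule.sum_mem _ fun k _ => Submodule.smul_mem _ _ (hf k).1
  · intro y
    rw [hu]
    exact h1 y
  · intro x hx
    rw [hu]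
    exact h2 x hx

theorem X2_deg_le (j : Unit ⊕ J) : D.X2.deg j ≤ 1 := by
  rcases j with j | j
  · exact zero_le_one
  · exact D.deg_le j

theorem le_X2_deg (j : Unit ⊕ J) : -1 ≤ D.X2.deg j := by
  rcases j with j | j
  · show (-1 : ℤ) ≤ 0
    norm_num
  · exact D.le_deg j

/-- `X'' → W → X''` is homotopic to a scalar -/
theorem bd_sig (S : Setup R p a) {n : ℕ} {i : Fin 6} {sg : Matrix (Unit ⊕ J) (Fin 248) R}
    (h1 : ∀ y, sg *ᵥ y ∈ D.X2.Z0) (h2 : ∀ x ∈ F1 p, D.u *ᵥ (sg *ᵥ x) = a i ^ n • x) :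
    Bd D.X2 D.X2 0 (sg * D.u - a i ^ n • (1 : Matrix (Unit ⊕ J) (Unit ⊕ J) R)) := by
  have hsg := cl_of_cols h1
  have hcl : Cl D.X2 D.X2 0 (sg * D.u - a i ^ n • (1 : Matrix (Unit ⊕ J) (Unit ⊕ J) R)) :=
    ((hsg.mul D.cl_u).cast (add_zero 0)).sub (Cl.one.smul _)
  refine Bd.of_cycles a S.reg (fun i => D.ue_X2 i) (fun i => D.ue_X2 i) 2 ?_ (by norm_num) hcl ?_
  · intro i j
    have := D.X2_deg_le j
    have := D.le_X2_deg i
    push_cast
    omega
  · intro v hv hdv
    have hv' : v ∈ D.X2.Z0 := ⟨hv, hdv⟩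
    have h3 : (sg * D.u - a i ^ n • (1 : Matrix (Unit ⊕ J) (Unit ⊕ J) R)) *ᵥ v ∈ D.X2.Z0 := by
      rw [Matrix.sub_mulVec, Matrix.smul_mulVec, Matrix.one_mulVec, ← Matrix.mulVec_mulVec]
      exact Submodule.sub_mem _ (h1 _) (Submodule.smul_mem _ _ hv')
    obtain ⟨w, -, hw⟩ := D.u_ker h3 (by
      rw [Matrix.sub_mulVec, Matrix.smul_mulVec, Matrix.one_mulVec, ← Matrix.mulVec_mulVec,
        Matrix.mulVec_sub, h2 _ (D.u_mem S hv'), Matrix.mulVec_smul, sub_self])
    exact ⟨1, one_ne_zero, w, by rw [one_smul]; exact hw.symm⟩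

theorem ue_JJ (S : Setup R p a) (i : Fin 6) : UE D.JJ (a i) := by
  obtain ⟨n, sg, h1, -, h2⟩ := D.exists_sig S i
  exact UE.cone (UE.free _) D.cl_u ⟨n, sg, cl_of_cols h1, D.bd_sig S h1 h2⟩

theorem u_e : D.u * D.X2.e = D.u := by
  ext i j
  show (D.u * Matrix.diagonal fun j => ((sg (D.X2.deg j) : ℤ) : R)) i j = D.u i j
  rw [Matrix.mul_diagonal]
  by_cases h : D.X2.deg j = 0
  · rw [h, sg_zero]; simp
  · rw [D.cl_u.hmg i j (by rw [free_deg, add_zero]; exact fun h1 => h h1.symm), zero_mul]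

theorem cl_ut : Cl (free R (Fin 248) 0) D.X2.dual 0 (D.uᵀ * kM R) := by
  refine Cl.mk0 ?_ ?_
  · have h : IsHmg (free R (Fin 248) 0) D.X2.dual 0 D.uᵀ := by
      intro i j hij
      exact D.cl_u.hmg j i (by
        rw [free_deg, add_zero]
        intro h1
        apply hij
        rw [free_deg, dual_deg, ← h1]; rfl)
    exact h.mul' (fun i j hij => absurd (by simp [free_deg]) hij) (add_zero 0)
  · rw [free_d, Matrix.mul_zero, dual_d, Matrix.neg_mul, ← Matrix.mul_assoc,
      ← Matrix.transpose_mul, ← Matrix.mul_assoc, u_e]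
    have := D.cl_u.comm0
    rw [← this, free_d, Matrix.zero_mul, Matrix.transpose_zero, Matrix.zero_mul, neg_zero]

/-- the null-homotopy of the form on `X''` -/
theorem exists_kap (S : Setup R p a) : ∃ κ : Matrix (Unit ⊕ J) (Unit ⊕ J) R,
    IsHmg D.X2 D.X2.dual (-1) κ ∧ D.uᵀ * kM R * D.u = D.X2.dual.d * κ + κ * D.X2.d := by
  have := S.char0
  have h0 : Cl D.X2 D.X2.dual 0 (D.uᵀ * kM R * D.u) := (D.cl_ut.mul D.cl_u).cast (add_zero 0)
  have hb : Bd D.X2 D.X2.dual 0 (D.uᵀ * kM R * D.u) := by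
    refine Bd.of_cycles a S.reg (fun i => D.ue_X2 i) (fun i => (D.ue_X2 i).dual) 2 ?_
      (by norm_num) h0 ?_
    · intro i j
      have := D.X2_deg_le j
      have := D.X2_deg_le i
      rw [dual_deg]
      push_cast
      omega
    · intro v hv hdv
      have hv' : v ∈ D.X2.Z0 := ⟨hv, hdv⟩
      obtain ⟨N, hN⟩ := D.ue_X2 0
      obtain ⟨h, hh⟩ := hN
      refine ⟨a 0 ^ N, pow_ne_zero _ (S.ne 0), ?_⟩
      refine dual_bd_of_pair hh ⟨?_, ?_⟩ ?_
      · intro j hj
        exact Vh.mulVec h0.hmg hv j (by rw [zero_add]; exact hj)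
      · rw [Matrix.mulVec_mulVec, h0.comm0, ← Matrix.mulVec_mulVec, hdv, Matrix.mulVec_zero]
      · intro z hz
        rw [← Matrix.mulVec_mulVec, ← Matrix.mulVec_mulVec, Matrix.mulVec_transpose,
          ← Matrix.dotProduct_mulVec, dot_kM]
        exact D.u_mem S hz _ (F1_le_F0 S.cone (D.u_mem S hv'))
  obtain ⟨κ, hκ, h1⟩ := hb
  exact ⟨κ, hκ.cast (by norm_num), by rw [h1, sg_zero]; simp⟩

/-- the null-homotopy of the form on `X''` -/
noncomputable def kap (S : Setup R p a) : Matrix (Unit ⊕ J) (Unit ⊕ J) R :=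
  (D.exists_kap S).choose

/-- the map `J → X''^*` -/
noncomputable def jj (S : Setup R p a) : Matrix (Unit ⊕ J) (Fin 248 ⊕ (Unit ⊕ J)) R :=
  Matrix.fromCols (D.uᵀ * kM R) (D.kap S)

theorem cl_jj (S : Setup R p a) : Cl D.JJ D.X2.dual 0 (D.jj S) :=
  Cl.ofCone D.cl_u D.cl_ut (D.exists_kap S).choose_spec.1 (D.exists_kap S).choose_spec.2

/-- `G = fib (J → X''^*) ≃ F⁰ / F¹` -/
noncomputable def G (S : Setup R p a) : Cx R ((Fin 248 ⊕ (Unit ⊕ J)) ⊕ (Unit ⊕ J)) :=
  fib (D.cl_jj S)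

theorem ue_G (S : Setup R p a) (i : Fin 6) : UE (D.G S) (a i) := by
  obtain ⟨n, sg, h1, -, h2⟩ := D.exists_sig S i
  refine UE.fib (D.ue_JJ S i) (D.cl_jj S) ⟨n, Matrix.fromRows (kMi R * sgᵀ) 0, ?_, ?_⟩
  · have hs := (cl_of_cols h1).transpose
    have hs0 : sgᵀ * D.X2.dual.d = 0 := by
      rw [← hs.comm0, dual_d, free_d, Matrix.mul_zero, Matrix.transpose_zero, neg_zero,
        Matrix.zero_mul]
    refine Cl.mk0 (Hmg.fromRows ?_ Hmg.zero) ?_
    · have h3 : Hmg (fun _ : Fin 248 => (0 : ℤ)) D.X2.dual.deg 0 sgᵀ := by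
        intro i j hij
        exact hs.hmg i j (by rw [dual_deg, free_deg, neg_zero]; exact hij)
      exact Hmg.mul' (p' := fun _ : Fin 248 => (0 : ℤ))
        (fun i j hij => absurd (by simp [free_deg]) hij) h3 (add_zero 0)
    · rw [show D.JJ.d = Matrix.fromBlocks (free R (Fin 248) 0).d D.u 0 (-D.X2.d) from rfl,
        Matrix.fromBlocks_mul_fromRows, Matrix.fromRows_mul, Matrix.mul_assoc, hs0]
      simp
  · have h3 := (D.bd_sig S h1 h2).transpose
    rw [Matrix.transpose_sub, Matrix.transpose_smul, Matrix.transpose_one,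
      Matrix.transpose_mul] at h3
    rw [jj, Matrix.fromCols_mul_fromRows, Matrix.mul_zero, add_zero, Matrix.mul_assoc,
      ← Matrix.mul_assoc (kM R), kM_kMi, Matrix.one_mul]
    exact h3

end CoreData

end LicciCore

end
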