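import Pool.Agent.Work.MP_a98e4e_ag.Fu.L.Jac
import Pool.Agent.Work.MP_a98e4e_ag.L.Chunk
import Pool.Agent.Work.MP_a98e4e_ag.Fu.L.Grad
import Pool.Agent.Work.MP_a98e4e_ag.Fu.L.FormA4

section

/-! Kernel check: invariance of the form of `e_8`. -/

set_option linter.unusedSectionVars false

namespace Pool.Agent.Licci

/-- pairing of a sparse vector with a basis vector -/
def kl (L : List (ℕ × ℤ)) (k : ℕ) : ℤ := L.foldr (fun p s => p.2 * kcN p.1 k + s) 0

/-- invariance on a triple -/
def iv (i j k : ℕ) : Bool := isz (kl (sp i j) k - kl (sp j k) i)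

/-- invariance, checked on triples of weight zero -/
def ivc (i j : ℕ) : Bool :=
  let s := Nat.sub 2290649224 (Nat.add (cd i) (cd j))
  let k := fnd s
  bif Nat.blt k 240 then iv i j k
  else bif Nat.beq s 1145324612 then (List.range 8).all (fun q => iv i j (240 + q)) else true

set_option maxRecDepth 100000

theorem ivc_all_r15 : (List.range' 240 8).all (fun i => (List.range 248).all (fun j => ivc i j)) = true :=
  all_range_of8 _ (by decide +kernel) (by decide +kernel) (by decide +kernel) (by decide +kernel)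
    (by decide +kernel) (by decide +kernel) (by decide +kernel) (by decide +kernel)

theorem ivc_all : (List.range 248).all (fun i => (List.range 248).all (fun j => ivc i j)) = true :=
  all_range_of16 _ (by decide +kernel) (by decide +kernel) (by decide +kernel) (by decide +kernel) (by decide +kernel) (by decide +kernel) (by decide +kernel) (by decide +kernel)
    (by decide +kernel) (by decide +kernel) (by decide +kernel) (by decide +kernel) (by decide +kernel) (by decide +kernel) (by decide +kernel) ivc_all_r15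

end Pool.Agent.Licci

end

section

/-!
# Module P, part 1: the invariant bilinear form of `e_8`

`kap (e_b) (e_-b) = -1` for every root `b`; on the Cartan part it is the Cartan matrix.
-/

set_option linter.unusedSectionVars false

namespace Pool.Agent.Licci.P

open scoped BigOperators
open U (Sup)

/-- coefficients of the invariant form -/
def kN (i j : ℕ) : ℤ := kcN i j

theorem kN_symm {i j : ℕ} (hi : i < 248) (hj : j < 248) : kN i j = kN j i := by
  unfold kN kcN
  rcases lt_or_ge i 240 with h1 | h1 <;> rcases lt_or_ge j 240 with h2 | h2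
  · rw [blt_true h1, blt_true h2]
    simp only [cond_true]
    rw [show Nat.add (cd i) (cd j) = Nat.add (cd j) (cd i) from Nat.add_comm _ _]
  · rw [blt_true h1, blt_false h2]
    simp
  · rw [blt_false h1, blt_true h2]
    simp
  · rw [blt_false h1, blt_false h2]
    simp only [cond_false]
    have h : ∀ a < 8, ∀ b < 8, prN (gens.getD a 0) b = prN (gens.getD b 0) a := by decide +kernel
    exact h _ (by omega) _ (by omega)

theorem kN_wt {i j : ℕ} (hi : i < 248) (hj : j < 248) (h : kN i j ≠ 0) :
    cd i + cd j = off + off := by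
  unfold kN kcN at h
  rcases lt_or_ge i 240 with h1 | h1 <;> rcases lt_or_ge j 240 with h2 | h2
  · rw [blt_true h1, blt_true h2] at h
    simp only [cond_true] at h
    cases h3 : Nat.beq (Nat.add (cd i) (cd j)) 1145324612 with
    | true =>
      rw [← off2]
      simpa using h3
    | false => rw [h3] at h; simp at h
  · rw [blt_true h1, blt_false h2] at h
    simp at h
  · rw [blt_false h1, blt_true h2] at h
    simp at h
  · rw [cd_cartan h1 hi, cd_cartan h2 hj]

theorem kl_eq_map (L : List (ℕ × ℤ)) (k : ℕ) : kl L k = (L.map (fun p => p.2 * kN p.1 k)).sum := by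
  induction L with
  | nil => rfl
  | cons p L ih =>
    rw [List.map_cons, List.sum_cons, ← ih]
    rfl

theorem sum_of_ick {i j k : Fin 248} (h : iv i j k = true) :
    ∑ m : Fin 248, scN i j m * kN m k = ∑ m : Fin 248, scN j k m * kN i m := by
  have h0 := (isz_iff _).1 h
  rw [kl_eq_map, kl_eq_map] at h0
  have e1 := sum_cf (sp i j) (fun p hp => sp_rng i.2 j.2 hp) (fun m => kN m k)
  have e2 := sum_cf (sp j k) (fun p hp => sp_rng j.2 k.2 hp) (fun m => kN m i)
  simp only [scN] at *
  rw [e1]
  rw [show ∑ m : Fin 248, cf (sp j k) m * kN i m = ∑ m : Fin 248, cf (sp j k) m * kN m i from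
    Finset.sum_congr rfl fun m _ => by rw [kN_symm i.2 m.2], e2]
  linarith

theorem kN_inv (i j k : Fin 248) :
    ∑ m : Fin 248, scN i j m * kN m k = ∑ m : Fin 248, scN j k m * kN i m := by
  have h := all_range (all_range ivc_all i.2) j.2
  by_cases hw : cd i + cd j + cd k = off + off + off
  · unfold ivc at h
    simp only at h
    rcases lt_or_ge (k : ℕ) 240 with h5 | h5
    · have e : Nat.sub 2290649224 (Nat.add (cd i) (cd j)) = cd k + off := by
        change 2290649224 - (cd i + cd j) = _
        have : (2290649224 : ℕ) = off + off + off + off := rfl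
        omega
      rw [e, fnd_cd h5, blt_true h5, cond_true] at h
      exact sum_of_ick h
    · have e : Nat.sub 2290649224 (Nat.add (cd i) (cd j)) = off + off := by
        change 2290649224 - (cd i + cd j) = _
        have h6 := cd_cartan h5 k.2
        have : (2290649224 : ℕ) = off + off + off + off := rfl
        omega
      have e3 : ¬ fnd (off + off) < 240 := by
        intro h6
        have h7 := fnd_spec h6
        have h8 : (fnd (off + off) : ℕ) = 255 := by decide +kernel
        omega
      rw [e] at h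
      have e4 : Nat.blt (fnd (off + off)) 240 = false := blt_false (by omega)
      have e5 : Nat.beq (off + off) 1145324612 = true := by decide
      rw [e4, cond_false, e5, cond_true] at h
      have h9 := all_range h (i := (k : ℕ) - 240) (by omega)
      have e6 : 240 + ((k : ℕ) - 240) = k := by omega
      rw [e6] at h9
      exact sum_of_ick h9
  · have l0 : ∀ m : Fin 248, scN i j m * kN m k = 0 := by
      intro m
      by_contra hne
      have h1 := scN_wt i.2 j.2 (left_ne_zero_of_mul hne)
      have h2 := kN_wt m.2 k.2 (right_ne_zero_of_mul hne)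
      omega
    have r0 : ∀ m : Fin 248, scN j k m * kN i m = 0 := by
      intro m
      by_contra hne
      have h1 := scN_wt j.2 k.2 (left_ne_zero_of_mul hne)
      have h2 := kN_wt i.2 m.2 (right_ne_zero_of_mul hne)
      omega
    rw [Finset.sum_eq_zero fun m _ => l0 m, Finset.sum_eq_zero fun m _ => r0 m]

section

variable {A : Type*} [CommRing A]

/-- the invariant form -/
def kap : E8 A →ₗ[A] E8 A →ₗ[A] A :=
  LinearMap.mk₂ A (fun x y => ∑ i : Fin 248, ∑ j : Fin 248, (kN i j : A) * (x i * y j))
    (by intro x x' y; simp only [Pi.add_apply, ← Finset.sum_add_distrib]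
        refine Finset.sum_congr rfl fun i _ => Finset.sum_congr rfl fun j _ => ?_; ring)
    (by intro a x y
        simp only [Pi.smul_apply, smul_eq_mul, Finset.mul_sum]
        refine Finset.sum_congr rfl fun i _ => Finset.sum_congr rfl fun j _ => ?_; ring)
    (by intro x y y'; simp only [Pi.add_apply, ← Finset.sum_add_distrib]
        refine Finset.sum_congr rfl fun i _ => Finset.sum_congr rfl fun j _ => ?_; ring)
    (by intro a x y
        simp only [Pi.smul_apply, smul_eq_mul, Finset.mul_sum]
        refine Finset.sum_congr rfl fun i _ => Finset.sum_congr rfl fun j _ => ?_; ring)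

theorem kap_apply (x y : E8 A) :
    kap x y = ∑ i : Fin 248, ∑ j : Fin 248, (kN i j : A) * (x i * y j) := rfl

theorem kap_eb_right (x : E8 A) (j : Fin 248) :
    kap x (eb j) = ∑ i : Fin 248, (kN i j : A) * x i := by
  rw [kap_apply]
  refine Finset.sum_congr rfl fun i _ => ?_
  rw [Finset.sum_eq_single j]
  · simp [eb_apply]
  · intro b _ hb
    simp [eb_apply, hb]
  · simp

theorem kap_eb_left (i : Fin 248) (y : E8 A) :
    kap (eb i) y = ∑ j : Fin 248, (kN i j : A) * y j := by
  rw [kap_apply, Finset.sum_eq_single i]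
  · refine Finset.sum_congr rfl fun j _ => ?_
    simp [eb_apply]
  · intro b _ hb
    refine Finset.sum_eq_zero fun j _ => ?_
    simp [eb_apply, hb]
  · simp

/-- invariance -/
theorem kap_br (x y z : E8 A) : kap (br x y) z = kap x (br y z) := by
  have key : ∀ i j k : Fin 248, kap (br (eb i : E8 A) (eb j)) (eb k) = kap (eb i) (br (eb j) (eb k)) := by
    intro i j k
    rw [kap_eb_right, kap_eb_left]
    simp only [br_eb_eb, sc]
    have h := congrArg (fun n : ℤ => (n : A)) (kN_inv i j k)
    push_cast at h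
    calc ∑ m : Fin 248, ((kN m k : ℤ) : A) * ((scN i j m : ℤ) : A)
        = ∑ m : Fin 248, ((scN i j m : ℤ) : A) * ((kN m k : ℤ) : A) :=
          Finset.sum_congr rfl fun m _ => mul_comm _ _
      _ = ∑ m : Fin 248, ((scN j k m : ℤ) : A) * ((kN i m : ℤ) : A) := h
      _ = _ := Finset.sum_congr rfl fun m _ => mul_comm _ _
  have h3 : ∀ i j : Fin 248, ∀ z : E8 A, kap (br (eb i : E8 A) (eb j)) z = kap (eb i) (br (eb j) z) := by
    intro i j z
    have := E8.hom_ext (f := kap (br (eb i : E8 A) (eb j))) (g := (kap (eb i)) ∘ₗ (brL (eb j)))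
      (fun k => key i j k)
    exact LinearMap.congr_fun this z
  have h2 : ∀ i : Fin 248, ∀ y z : E8 A, kap (br (eb i : E8 A) y) z = kap (eb i) (br y z) := by
    intro i y z
    have := E8.hom_ext (f := (kap.flip z) ∘ₗ (brL (eb i : E8 A)))
      (g := (kap (eb i : E8 A)) ∘ₗ (brL.flip z)) (fun j => h3 i j z)
    exact LinearMap.congr_fun this y
  have := E8.hom_ext (f := (kap.flip z) ∘ₗ (brL.flip y)) (g := (kap.flip (br y z) : E8 A →ₗ[A] A))
    (fun i => h2 i y z)
  exact LinearMap.congr_fun this x

theorem kap_br' (x y z : E8 A) : kap y (br x z) = - kap (br x y) z := by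
  rw [br_skew x y, map_neg, LinearMap.neg_apply, neg_neg, kap_br]

theorem kap_map {A' : Type*} [CommRing A'] (φ : A →+* A') (x y : E8 A) :
    φ (kap x y) = kap (φ ∘ x : E8 A') (φ ∘ y) := by
  simp only [kap_apply, map_sum, map_mul, map_intCast, Function.comp_apply]

theorem kap_mem {R : Type*} [CommRing R] [Algebra R A] (S : Subalgebra R A) {x y : E8 A}
    (hx : ∀ m, x m ∈ S) (hy : ∀ m, y m ∈ S) : kap x y ∈ S := by
  rw [kap_apply]
  refine S.sum_mem fun i _ => S.sum_mem fun j _ => ?_
  exact S.mul_mem (intCast_mem S _) (S.mul_mem (hx i) (hy j))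

theorem kN_zdg {i j : Fin 248} (h : kN i j ≠ 0) : zdg i + zdg j = 0 := by
  have h1 := kN_wt i.2 j.2 h
  have a := zdN_three i.2
  have b := zdN_three j.2
  have ho := cd_cartan (i := 240) (by norm_num) (by norm_num)
  have h2 := gsN_add i.2 j.2 (k := 240) (by norm_num) (by rw [ho]; exact h1)
  have c := zdN_three (i := 240) (by norm_num)
  have c' : zdN 240 = 0 := zdN_cartan (by norm_num) (by norm_num)
  unfold zdg
  omega

theorem kap_of_sup {a b : ℤ} (hab : a + b ≠ 0) {x y : E8 A} (hx : Sup zdg a x) (hy : Sup zdg b y) :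
    kap x y = 0 := by
  rw [kap_apply]
  refine Finset.sum_eq_zero fun i _ => Finset.sum_eq_zero fun j _ => ?_
  by_cases h : kN i j = 0
  · rw [h, Int.cast_zero, zero_mul]
  · have h1 := kN_zdg h
    by_cases hi : zdg i = a
    · rw [hy j (by omega), mul_zero, mul_zero]
    · rw [hx i hi, zero_mul, mul_zero]

/-- only the components of `x` in degree `-b` matter -/
theorem kap_congr {b : ℤ} {x x' y : E8 A} (hy : Sup zdg b y) (h : ∀ m, zdg m = -b → x m = x' m) :
    kap x y = kap x' y := by
  rw [kap_apply, kap_apply]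
  refine Finset.sum_congr rfl fun i _ => Finset.sum_congr rfl fun j _ => ?_
  by_cases hk : kN i j = 0
  · rw [hk, Int.cast_zero, zero_mul, zero_mul]
  · have h1 := kN_zdg hk
    by_cases hj : zdg j = b
    · rw [h i (by omega)]
    · simp [hy j hj]

end

section

variable {A : Type*} [CommRing A] [Algebra ℚ A]

theorem kap_pow (x : E8 A) (n : ℕ) : ∀ y z : E8 A,
    kap (((brL x) ^ n) y) z = (-1) ^ n * kap y (((brL x) ^ n) z) := by
  induction n with
  | zero => intro y z; simp
  | succ n ih =>
    intro y z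
    have h := kap_br' x (((brL x) ^ n) y) z
    have h1 : ((brL x) ^ (n + 1)) y = br x (((brL x) ^ n) y) := by
      rw [pow_succ', Module.End.mul_apply, brL_apply]
    have h2 : ((brL x) ^ (n + 1)) z = ((brL x) ^ n) (br x z) := by
      rw [pow_succ, Module.End.mul_apply, brL_apply]
    rw [h1, h2, ← neg_eq_iff_eq_neg.2 h, ih, pow_succ]
    ring

theorem neg_brL_pow (x z : E8 A) (n : ℕ) :
    ((brL (-x)) ^ n) z = ((-1 : A) ^ n) • ((brL x) ^ n) z := by
  induction n with
  | zero => simp
  | succ n ih =>
    rw [pow_succ', Module.End.mul_apply, ih, brL_apply, pow_succ' (brL x), Module.End.mul_apply,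
      brL_apply, br_neg_left, br_smul_right, pow_succ, mul_neg_one, neg_smul]

theorem kap_ex_left (x y z : E8 A) : kap (ex x y) z = kap y (ex (-x) z) := by
  rw [ex_apply, ex_apply, map_sum, map_sum, LinearMap.sum_apply]
  refine Finset.sum_congr rfl fun n _ => ?_
  rw [map_smul, map_smul, LinearMap.smul_apply, kap_pow, neg_brL_pow, map_smul, smul_eq_mul,
    smul_eq_mul, smul_eq_mul]

theorem kap_ex {x : E8 A} (hx : (brL x) ^ 7 = 0) (y z : E8 A) :
    kap (ex x y) (ex x z) = kap y z := by
  rw [kap_ex_left, ex_neg_ex hx]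

end

end Pool.Agent.Licci.P

end

section

/-!
# Module P, part 2: brackets with `V3 f`, in `gl_8`-terms

`L3 φ` = inclusion of `F^*` in degree `-3`, `p3m` = the component of degree `-3`.
-/

set_option linter.unusedSectionVars false

namespace Pool.Agent.Licci.P

open scoped BigOperators
open U (Sup)

/-- index of the `i`-th basis vector in degree `-3` -/
def ixm (i : Fin 8) : Fin 248 := ix (232 + (i : ℕ))

theorem ixm_val (i : Fin 8) : ((ixm i : Fin 248) : ℕ) = 232 + i := by
  unfold ixm
  have := i.2
  simp [ix, Nat.mod_eq_of_lt (show 232 + (i : ℕ) < 248 by omega)]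

theorem ixm_inj {i j : Fin 8} (h : ixm i = ixm j) : i = j := by
  have := congrArg (fun m : Fin 248 => (m : ℕ)) h
  simp only [ixm_val] at this
  exact Fin.ext (by omega)

theorem ix_inj {i j : Fin 8} (h : (ix (i : ℕ) : Fin 248) = ix (j : ℕ)) : i = j := by
  have := congrArg (fun m : Fin 248 => (m : ℕ)) h
  simp only [ix_fin] at this
  exact Fin.ext this

set_option maxRecDepth 100000 in
theorem zdg_ixm : ∀ i : Fin 8, zdg (ixm i) = -3 := by decide +kernel

set_option maxRecDepth 100000 in
theorem ixm_surj : ∀ m : Fin 248, zdg m = -3 → ∃ i : Fin 8, ixm i = m := by decide +kernel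

set_option maxRecDepth 100000 in
theorem ix_surj : ∀ m : Fin 248, zdg m = 3 → ∃ i : Fin 8, ix (i : ℕ) = m := by decide +kernel

/-- `δ_ij e_k` -/
def dl (i j k : ℕ) : List (ℕ × ℤ) := bif Nat.beq i j then [(k, 1)] else []

set_option maxRecDepth 100000 in
theorem chk_ppm : ∀ j k i : Fin 8,
    zr (lm j (sp k (232 + i)) ++ ng (dl i j k ++ dl i k j)) = true := by decide +kernel

set_option maxRecDepth 100000 in
theorem chk_mpm : ∀ j i k : Fin 8,
    zr (rm (sp (232 + j) i) (232 + k) ++ (dl i k (232 + j) ++ dl i j (232 + k))) = true := by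
  decide +kernel

section

variable {A : Type*} [CommRing A]

theorem cf_dl (i j k l : ℕ) : cf (dl i j k) l = if i = j ∧ k = l then 1 else 0 := by
  unfold dl
  by_cases h : i = j
  · rw [show Nat.beq i j = true from by simpa using h, cond_true, cf_cons, cf_nil, add_zero]
    by_cases h' : k = l
    · rw [if_pos h', if_pos ⟨h, h'⟩]
    · rw [if_neg h', if_neg (fun h'' => h' h''.2)]
  · rw [show Nat.beq i j = false from by rw [Bool.eq_false_iff]; simpa using h, cond_false, cf_nil,
      if_neg (fun h'' => h h''.1)]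

theorem br_br_of_zr {g j k : Fin 248} {L : List (ℕ × ℤ)}
    (h : zr (lm g (sp j k) ++ ng L) = true) (l : Fin 248) :
    (br (eb g : E8 A) (br (eb j) (eb k))) l = ((cf L l : ℤ) : A) := by
  rw [br_eb_br]
  congr 1
  have h0 := zr_spec h l
  rw [cf_append, cf_ng, cf_lm] at h0
  have e1 := sum_cf (sp j k) (fun p hp => sp_rng j.2 k.2 hp) (fun m => scN g m l)
  simp only [scN] at *
  rw [e1]
  linarith

theorem br_br_of_zr' {g j k : Fin 248} {L : List (ℕ × ℤ)}
    (h : zr (rm (sp g j) k ++ L) = true) (l : Fin 248) :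
    (br (br (eb g : E8 A) (eb j)) (eb k)) l = ((- cf L l : ℤ) : A) := by
  rw [br_br_eb]
  congr 1
  have h0 := zr_spec h l
  rw [cf_append, cf_rm] at h0
  have e1 := sum_cf (sp g j) (fun p hp => sp_rng g.2 j.2 hp) (fun m => scN m k l)
  simp only [scN] at *
  rw [e1]
  linarith

theorem br_ppm (j k i : Fin 8) :
    br (eb (ix (j : ℕ)) : E8 A) (br (eb (ix (k : ℕ))) (eb (ixm i))) =
      (if i = j then eb (ix (k : ℕ)) else 0) + (if i = k then eb (ix (j : ℕ)) else 0) := by
  funext l
  have h := chk_ppm j k i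
  rw [← ix_fin j, ← ix_fin k, ← ixm_val i] at h
  rw [br_br_of_zr h l, cf_append, cf_dl, cf_dl]
  push_cast
  rw [Pi.add_apply]
  congr 1
  · by_cases h1 : i = j
    · subst h1
      rw [if_pos rfl, eb_apply]
      by_cases h2 : l = ix (k : ℕ)
      · subst h2
        rw [if_pos rfl, if_pos ⟨(ix_fin i).symm, rfl⟩]
      · rw [if_neg h2, if_neg (fun h3 => h2 (Fin.ext h3.2.symm))]
    · rw [if_neg h1, if_neg, Pi.zero_apply]
      rintro ⟨h3, -⟩
      rw [ix_fin] at h3
      exact h1 (Fin.ext h3)
  · by_cases h1 : i = k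
    · subst h1
      rw [if_pos rfl, eb_apply]
      by_cases h2 : l = ix (j : ℕ)
      · subst h2
        rw [if_pos rfl, if_pos ⟨(ix_fin i).symm, rfl⟩]
      · rw [if_neg h2, if_neg (fun h3 => h2 (Fin.ext h3.2.symm))]
    · rw [if_neg h1, if_neg, Pi.zero_apply]
      rintro ⟨h3, -⟩
      rw [ix_fin] at h3
      exact h1 (Fin.ext h3)

theorem br_mpm (j i k : Fin 8) :
    br (br (eb (ixm j) : E8 A) (eb (ix (i : ℕ)))) (eb (ixm k)) =
      - ((if i = k then eb (ixm j) else 0) + (if i = j then eb (ixm k) else 0)) := by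
  funext l
  have h := chk_mpm j i k
  have e : (232 + (j : ℕ)) = ((ixm j : Fin 248) : ℕ) := (ixm_val j).symm
  have e' : (232 + (k : ℕ)) = ((ixm k : Fin 248) : ℕ) := (ixm_val k).symm
  rw [e, e'] at h
  have h' : zr (rm (sp (ixm j) (ix (i : ℕ) : Fin 248)) (ixm k) ++ (dl i k (ixm j) ++ dl i j (ixm k)))
      = true := by
    rw [ix_fin i]
    exact h
  rw [br_br_of_zr' h' l, cf_append, cf_dl, cf_dl]
  rw [Pi.neg_apply, Pi.add_apply]
  push_cast
  congr 2
  · by_cases h1 : i = k
    · subst h1
      rw [if_pos rfl, eb_apply]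
      by_cases h2 : l = ixm j
      · subst h2
        rw [if_pos rfl, if_pos ⟨rfl, rfl⟩]
      · rw [if_neg h2, if_neg (fun h3 => h2 (Fin.ext h3.2.symm))]
    · rw [if_neg h1, if_neg, Pi.zero_apply]
      rintro ⟨h3, -⟩
      exact h1 (Fin.ext h3)
  · by_cases h1 : i = j
    · subst h1
      rw [if_pos rfl, eb_apply]
      by_cases h2 : l = ixm k
      · subst h2
        rw [if_pos rfl, if_pos ⟨rfl, rfl⟩]
      · rw [if_neg h2, if_neg (fun h3 => h2 (Fin.ext h3.2.symm))]
    · rw [if_neg h1, if_neg, Pi.zero_apply]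
      rintro ⟨h3, -⟩
      exact h1 (Fin.ext h3)

/-- inclusion of `F^*` in degree `-3` -/
def L3 (φ : Vec A) : E8 A := ∑ i, φ i • eb (ixm i)

/-- component of degree `-3` -/
def p3m (Y : E8 A) : Vec A := fun i => Y (ixm i)

theorem L3_apply (φ : Vec A) (i : Fin 8) : L3 φ (ixm i) = φ i := by
  unfold L3
  rw [Finset.sum_apply, Finset.sum_eq_single i]
  · rw [Pi.smul_apply, eb_apply, if_pos rfl, smul_eq_mul, mul_one]
  · intro b _ hb
    rw [Pi.smul_apply, eb_apply, if_neg (fun h => hb (ixm_inj h).symm), smul_zero]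
  · simp

theorem p3m_L3 (φ : Vec A) : p3m (L3 φ) = φ := by
  funext i
  exact L3_apply φ i

theorem L3_sup (φ : Vec A) : Sup zdg (-3) (L3 φ) := by
  intro m hm
  unfold L3
  rw [Finset.sum_apply]
  refine Finset.sum_eq_zero fun i _ => ?_
  rw [Pi.smul_apply, eb_apply, if_neg, smul_zero]
  rintro rfl
  exact hm (zdg_ixm i)

theorem eq_L3 {Y : E8 A} (h : Sup zdg (-3) Y) : Y = L3 (p3m Y) := by
  funext m
  by_cases hm : zdg m = -3
  · obtain ⟨i, rfl⟩ := ixm_surj m hm
    rw [L3_apply]
    rfl
  · rw [h m hm, L3_sup _ m hm]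

theorem V3_eq_sum (f : Vec A) : V3 f = ∑ i : Fin 8, f i • (eb (ix (i : ℕ)) : E8 A) := by
  funext m
  rw [Finset.sum_apply]
  by_cases hm : zdg m = 3
  · obtain ⟨i, rfl⟩ := ix_surj m hm
    rw [V3_apply_ix, Finset.sum_eq_single i]
    · rw [Pi.smul_apply, eb_apply, if_pos rfl, smul_eq_mul, mul_one]
    · intro b _ hb
      rw [Pi.smul_apply, eb_apply, if_neg (fun h => hb (ix_inj h).symm), smul_zero]
    · simp
  · rw [V3_sup _ m hm, eq_comm]
    refine Finset.sum_eq_zero fun i _ => ?_
    rw [Pi.smul_apply, eb_apply, if_neg, smul_zero]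
    rintro rfl
    exact hm (zdg_lt8 i)

/-- the pairing of `F` and `F^*` -/
def dot (f φ : Vec A) : A := ∑ i, f i * φ i

theorem dot_single (f : Vec A) (i : Fin 8) : dot f (Pi.single i 1) = f i := by
  unfold dot
  rw [Finset.sum_eq_single i]
  · simp
  · intro b _ hb
    simp [hb]
  · simp

theorem br_V3_left (f : Vec A) (X : E8 A) :
    br (V3 f) X = ∑ j : Fin 8, f j • br (eb (ix (j : ℕ)) : E8 A) X := by
  rw [V3_eq_sum, br_sum_left]
  simp only [br_smul_left]

theorem br_V3_right (f : Vec A) (X : E8 A) :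
    br X (V3 f) = ∑ j : Fin 8, f j • br X (eb (ix (j : ℕ)) : E8 A) := by
  rw [V3_eq_sum, br_sum_right]
  simp only [br_smul_right]

theorem br_L3_left (φ : Vec A) (X : E8 A) :
    br (L3 φ) X = ∑ j : Fin 8, φ j • br (eb (ixm j) : E8 A) X := by
  rw [L3, br_sum_left]
  simp only [br_smul_left]

theorem br_L3_right (φ : Vec A) (X : E8 A) :
    br X (L3 φ) = ∑ j : Fin 8, φ j • br X (eb (ixm j) : E8 A) := by
  rw [L3, br_sum_right]
  simp only [br_smul_right]

theorem V3_V3_L3 (f g φ : Vec A) : br (V3 f) (br (V3 g) (L3 φ)) =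
    dot f φ • V3 g + dot g φ • V3 f := by
  rw [br_V3_left g, br_sum_right]
  simp only [br_smul_right, br_L3_right φ, br_sum_right, br_V3_left f, br_ppm]
  simp only [smul_add, Finset.sum_add_distrib, smul_ite, smul_zero,
    Finset.sum_ite_eq', Finset.mem_univ, if_true, Finset.smul_sum]
  congr 1
  · rw [V3_eq_sum g, Finset.smul_sum]
    refine Finset.sum_congr rfl fun k _ => ?_
    rw [dot, smul_smul, Finset.sum_mul, Finset.sum_smul]
    refine Finset.sum_congr rfl fun i _ => ?_
    rw [smul_smul, smul_smul]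
    congr 1
    ring
  · rw [V3_eq_sum f, dot, Finset.sum_smul]
    refine Finset.sum_congr rfl fun k _ => ?_
    rw [Finset.smul_sum]
    refine Finset.sum_congr rfl fun i _ => ?_
    rw [smul_smul, smul_smul, smul_smul]
    congr 1
    ring

theorem L3_V3_L3 (φ f ψ : Vec A) : br (br (L3 φ) (V3 f)) (L3 ψ) =
    - (dot f ψ • L3 φ + dot f φ • L3 ψ) := by
  rw [br_V3_right f, br_sum_left]
  simp only [br_smul_left, br_L3_left φ, br_sum_left, br_L3_right ψ, br_mpm]
  have h : ∀ i k : Fin 8, (∑ j : Fin 8, φ j • -((if i = k then (eb (ixm j) : E8 A) else 0) +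
      (if i = j then eb (ixm k) else 0))) = -((if i = k then L3 φ else 0) + φ i • eb (ixm k)) := by
    intro i k
    simp only [smul_neg, smul_add, Finset.sum_neg_distrib, Finset.sum_add_distrib, smul_ite,
      smul_zero, Finset.sum_ite_eq, Finset.mem_univ, if_true]
    congr 2
    by_cases hik : i = k
    · simp only [if_pos hik]
      rfl
    · simp only [if_neg hik, Finset.sum_const_zero]
  have h' : ∀ i : Fin 8, (∑ k : Fin 8, ψ k • (∑ j : Fin 8, φ j • -((if i = k then (eb (ixm j) : E8 A)
      else 0) + (if i = j then eb (ixm k) else 0)))) = -(ψ i • L3 φ + φ i • L3 ψ) := by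
    intro i
    simp only [h]
    simp only [smul_neg, smul_add, Finset.sum_neg_distrib, Finset.sum_add_distrib, smul_ite,
      smul_zero, Finset.sum_ite_eq, Finset.mem_univ, if_true]
    congr 2
    rw [L3, Finset.smul_sum]
    refine Finset.sum_congr rfl fun k _ => ?_
    rw [smul_comm]
  have e : ∀ i : Fin 8, (∑ k : Fin 8, ψ k • f i • (∑ j : Fin 8, φ j • -((if i = k then
      (eb (ixm j) : E8 A) else 0) + (if i = j then eb (ixm k) else 0)))) =
      f i • -(ψ i • L3 φ + φ i • L3 ψ) := by
    intro i
    rw [← h' i, Finset.smul_sum]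
    refine Finset.sum_congr rfl fun k _ => ?_
    rw [smul_comm]
  rw [Finset.sum_congr rfl fun i _ => e i]
  simp only [smul_neg, smul_add, Finset.sum_neg_distrib, Finset.sum_add_distrib, dot,
    Finset.sum_smul, smul_smul]

/-! ### the invariant form on basis vectors -/

theorem kap_eb_of {m n : Fin 248} (hm : (m : ℕ) < 240) (h : cd m + cd n = off + off) (Y : E8 A) :
    kap Y (eb n) = - Y m := by
  have hn : (n : ℕ) < 240 := by
    by_contra hn
    have h1 := cd_cartan (i := (n : ℕ)) (by omega) n.2
    have h2 : cd m = off := by omega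
    have h3 := fnd_cd hm
    rw [h2] at h3
    have h4 : fnd (off + off) = 255 := by decide +kernel
    omega
  rw [kap_eb_right, Finset.sum_eq_single m]
  · have e : kN m n = -1 := by
      unfold kN kcN
      rw [blt_true hm, cond_true, blt_true hn, cond_true,
        show Nat.beq (Nat.add (cd m) (cd n)) 1145324612 = true from by
        rw [off2]
        simpa using h, cond_true]
    rw [e]
    push_cast
    ring
  · intro b _ hb
    have e : kN b n = 0 := by
      by_contra hne
      have h1 := kN_wt b.2 n.2 hne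
      have hb' : (b : ℕ) < 240 := by
        by_contra hb'
        unfold kN kcN at hne
        rw [blt_false (by omega), cond_false, blt_true hn, cond_true] at hne
        exact hne rfl
      have h2 : cd b = cd m := by omega
      have h3 := fnd_cd hb'
      rw [h2, fnd_cd hm] at h3
      exact hb (Fin.ext h3.symm)
    rw [e, Int.cast_zero, zero_mul]
  · simp

set_option maxRecDepth 100000 in
theorem neg_chk1 : ∀ i j k : Fin 8, i < j → j < k →
    (i1 i j k : ℕ) < 240 ∧ cd (i1 i j k) + cd (im1 i j k) = off + off := by decide +kernel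

set_option maxRecDepth 100000 in
theorem neg_chk2 : ∀ i j : Fin 8, i < j → (im2 i j : ℕ) < 240 ∧ zdg (im2 i j) = -2 ∧
    cd (im2 i j) + cd (i2 i j) = off + off := by decide +kernel

set_option maxRecDepth 100000 in
theorem neg_chk3 : ∀ i : Fin 8, (ix (i : ℕ) : ℕ) < 240 ∧
    cd (ix (i : ℕ)) + cd (ixm i) = off + off := by decide +kernel

theorem kap_im1 (Y : E8 A) {i j k : Fin 8} (h1 : i < j) (h2 : j < k) :
    kap Y (eb (im1 i j k)) = - Y (i1 i j k) :=
  kap_eb_of (neg_chk1 i j k h1 h2).1 (neg_chk1 i j k h1 h2).2 Y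

theorem kap_i2 (Y : E8 A) {i j : Fin 8} (h : i < j) : kap Y (eb (i2 i j)) = - Y (im2 i j) :=
  kap_eb_of (neg_chk2 i j h).1 (neg_chk2 i j h).2.2 Y

theorem kap_ixm (Y : E8 A) (i : Fin 8) : kap Y (eb (ixm i)) = - Y (ix (i : ℕ)) :=
  kap_eb_of (neg_chk3 i).1 (neg_chk3 i).2 Y

theorem kap_L3 (Y : E8 A) (φ : Vec A) : kap Y (L3 φ) = - dot (p3 Y) φ := by
  rw [L3, map_sum, dot, ← Finset.sum_neg_distrib]
  refine Finset.sum_congr rfl fun i _ => ?_
  rw [map_smul, kap_ixm, smul_eq_mul, p3]
  ring

/-- the vector `V3 f` is in the cone -/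
theorem V3_cone (f : Vec A) (x : E8 A) : br (V3 f) (br (V3 f) x) = (-2 * kap (V3 f) x) • V3 f := by
  have key : ∀ m : Fin 248, br (V3 f) (br (V3 f) (eb m)) = (-2 * kap (V3 f) (eb m)) • V3 f := by
    intro m
    by_cases hm : zdg m = -3
    · obtain ⟨i, rfl⟩ := ixm_surj m hm
      have h := V3_V3_L3 f f (Pi.single i 1)
      have e : L3 (Pi.single i 1 : Vec A) = eb (ixm i) := by
        unfold L3
        rw [Finset.sum_eq_single i]
        · simp
        · intro b _ hb
          simp [hb]
        · simp
      rw [e, dot_single] at h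
      rw [h, kap_ixm, V3_apply_ix, ← add_smul]
      congr 1
      ring
    · have hs : Sup zdg (zdg m) (eb m : E8 A) := by
        intro b hb
        rw [eb_apply, if_neg]
        rintro rfl
        exact hb rfl
      have h1 := Sup.br (fun _ _ _ h => sc_zdg h) (V3_sup f)
        (Sup.br (fun _ _ _ h => sc_zdg h) (V3_sup f) hs)
      rw [kap_of_sup (by omega) (V3_sup f) hs, mul_zero, zero_smul]
      funext b
      refine h1 b ?_
      change zdg b ≠ _
      have := zdg_le b
      have := zdg_ge m
      omega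
  have := E8.hom_ext (f := (brL (V3 f)) ∘ₗ (brL (V3 f)))
    (g := ((-2 : A) • (kap (V3 f) : E8 A →ₗ[A] A)).smulRight (V3 f)) (fun m => by
      rw [LinearMap.comp_apply, brL_apply, brL_apply, key m, LinearMap.smulRight_apply,
        LinearMap.smul_apply, smul_eq_mul])
  have h := LinearMap.congr_fun this x
  rw [LinearMap.comp_apply, brL_apply, brL_apply, LinearMap.smulRight_apply,
        LinearMap.smul_apply, smul_eq_mul] at h
  exact h

end

end Pool.Agent.Licci.P

end
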